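import Mathlib
import Pool.Agent.H378R2.Final
import Pool.Agent.H378R2.M7m
import Pool.Agent.H378R2.M7e
import Pool.Agent.Helper601.PNT

/-! The prime number theorem with the tent weight: `LPhi X ~ MPhi X`. -/

open Finset Filter Topology
open Pool.Agent.H378R2

namespace Pool.Agent.H510R2.Maier

theorem abel (N : ℕ) (f g : ℕ → ℝ) :
    ∑ n ∈ Icc 1 N, f n * g n =
      ∑ n ∈ Icc 1 N, (f n - f (n + 1)) * (∑ k ∈ Icc 1 n, g k) +
        f (N + 1) * ∑ k ∈ Icc 1 N, g k := by
  induction N with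
  | zero => simp
  | succ N ih =>
    rw [Finset.sum_Icc_succ_top (by omega), Finset.sum_Icc_succ_top (by omega : 1 ≤ N + 1), ih,
      Finset.sum_Icc_succ_top (by omega : 1 ≤ N + 1)]
    ring

theorem psi_nat (n : ℕ) : Chebyshev.psi n = ∑ k ∈ Icc 1 n, ArithmeticFunction.vonMangoldt k := by
  unfold Chebyshev.psi
  rw [Nat.floor_natCast]
  apply Finset.sum_congr _ (fun _ _ => rfl)
  ext x
  simp only [Finset.mem_Ioc, Finset.mem_Icc]
  omega

theorem lphi_mphi (ε : ℝ) (hε : 0 < ε) : ∀ᶠ X : ℝ in atTop, |LPhi X - MPhi X| ≤ ε * X := by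
  have h1 := Pool.Agent.Helper601.PNT.psi_div_tendsto
  have h2 : ∀ᶠ x : ℝ in atTop, |Chebyshev.psi x / x - 1| < ε / 12 := by
    have := (Metric.tendsto_nhds.1 h1) (ε / 12) (by positivity)
    simpa [Real.dist_eq] using this
  obtain ⟨x0, hx0⟩ := eventually_atTop.1 h2
  set x1 := max x0 1 with hx1
  have hx11 : 1 ≤ x1 := le_max_right _ _
  -- a bound for |psi n - n|
  have hall : ∀ n : ℕ, 1 ≤ n → |Chebyshev.psi n - n| ≤ ε / 12 * n + 8 * x1 := by
    intro n hn
    have hn0 : (1 : ℝ) ≤ n := by exact_mod_cast hn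
    rcases le_total x1 n with h | h
    · have h3 := (hx0 n ((le_max_left _ _).trans h)).le
      have h4 : Chebyshev.psi n - n = (Chebyshev.psi n / n - 1) * n := by
        field_simp
      rw [h4, abs_mul, abs_of_nonneg (by linarith : (0 : ℝ) ≤ n)]
      have := mul_le_mul_of_nonneg_right h3 (by linarith : (0 : ℝ) ≤ n)
      linarith
    · have h3 := Chebyshev.psi_nonneg (n : ℝ)
      have h4 : Chebyshev.psi n ≤ 7 * n := by
        have h5 := Chebyshev.psi_le_const_mul_self (x := (n : ℝ)) (by linarith)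
        have h6 : Real.log 4 + 4 ≤ 7 := by
          rw [show (4 : ℝ) = 2 ^ 2 by norm_num, Real.log_pow]
          have := Real.log_two_lt_d9
          push_cast
          linarith
        nlinarith
      rw [abs_le]
      constructor
      · nlinarith
      · nlinarith
  filter_upwards [eventually_ge_atTop (4 : ℝ), eventually_ge_atTop (96 * x1 / ε)] with X hX4 hXe
  have hX0 : 0 < X := by linarith
  set N := ⌊3 * X⌋₊ with hN
  have hNle : (N : ℝ) ≤ 3 * X := Nat.floor_le (by linarith)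
  have hNlt : 3 * X < N + 1 := Nat.lt_floor_add_one _
  have hend : Phi (((N + 1 : ℕ) : ℝ) / X) = 0 := by
    apply Phi_eq_zero_of_ge
    rw [le_div_iff₀ hX0]
    push_cast
    have := exp_one_lt_three'
    nlinarith
  have e1 : LPhi X = ∑ n ∈ Icc 1 N, (Phi ((n : ℕ) / X) - Phi (((n + 1 : ℕ) : ℝ) / X)) * Chebyshev.psi n := by
    unfold LPhi
    rw [abel N (fun n => Phi ((n : ℕ) / X)) (fun n => ArithmeticFunction.vonMangoldt n), hend, zero_mul, add_zero]
    apply Finset.sum_congr rfl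
    intro n _
    rw [psi_nat]
  have e2 : MPhi X = ∑ n ∈ Icc 1 N, (Phi ((n : ℕ) / X) - Phi (((n + 1 : ℕ) : ℝ) / X)) * (n : ℝ) := by
    unfold MPhi
    have := abel N (fun n => Phi ((n : ℕ) / X)) (fun _ => (1 : ℝ))
    simp only [mul_one] at this
    rw [this, hend, zero_mul, add_zero]
    apply Finset.sum_congr rfl
    intro n _
    simp
  rw [e1, e2, ← Finset.sum_sub_distrib]
  calc |∑ n ∈ Icc 1 N, ((Phi ((n : ℕ) / X) - Phi (((n + 1 : ℕ) : ℝ) / X)) * Chebyshev.psi n -
        (Phi ((n : ℕ) / X) - Phi (((n + 1 : ℕ) : ℝ) / X)) * (n : ℝ))|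
      ≤ ∑ n ∈ Icc 1 N, |(Phi ((n : ℕ) / X) - Phi (((n + 1 : ℕ) : ℝ) / X)) * Chebyshev.psi n -
        (Phi ((n : ℕ) / X) - Phi (((n + 1 : ℕ) : ℝ) / X)) * (n : ℝ)| := Finset.abs_sum_le_sum_abs _ _
    _ ≤ ∑ n ∈ Icc 1 N, (1 / X) * (ε / 4 * X + 8 * x1) := by
        apply Finset.sum_le_sum
        intro n hn
        rw [Finset.mem_Icc] at hn
        rw [← mul_sub, abs_mul]
        have h3 : |Phi ((n : ℕ) / X) - Phi (((n + 1 : ℕ) : ℝ) / X)| ≤ 1 / X := by
          have h4 := Phi_lip (u := (n : ℝ) / X) (v := ((n + 1 : ℕ) : ℝ) / X) (by positivity) (by positivity)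
          refine h4.trans ?_
          rw [← sub_div, abs_div, abs_of_pos hX0]
          push_cast
          rw [show (n : ℝ) - (n + 1) = -1 by ring, abs_neg, abs_one]
        have h5 := hall n hn.1
        have hn' : (n : ℝ) ≤ N := by exact_mod_cast hn.2
        have h6 : |Chebyshev.psi n - n| ≤ ε / 4 * X + 8 * x1 := by
          have : ε / 12 * n ≤ ε / 12 * (3 * X) := by
            apply mul_le_mul_of_nonneg_left (by linarith) (by positivity)
          linarith
        exact mul_le_mul h3 h6 (abs_nonneg _) (by positivity)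
    _ = N * ((1 / X) * (ε / 4 * X + 8 * x1)) := by
        rw [Finset.sum_const, Nat.card_Icc, nsmul_eq_mul]; simp
    _ ≤ (3 * X) * ((1 / X) * (ε / 4 * X + 8 * x1)) := by
        apply mul_le_mul_of_nonneg_right hNle (by positivity)
    _ = 3 * (ε / 4 * X + 8 * x1) := by field_simp
    _ ≤ ε * X := by
        have h7 : 96 * x1 ≤ ε * X := by
          rw [div_le_iff₀ hε] at hXe
          linarith
        linarith

end Pool.Agent.H510R2.Maier
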