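import Mathlib
import Pool.Agent.H305R2.MertensM
import Pool.Agent.H305R2.MertensE
import Pool.Agent.Helper601.PNT

/-! Mertens in real variables. -/

open Finset Filter Topology

namespace Pool.Agent.H510R2.Maier

/-- `∑_{p ≤ N} 1/p` -/
noncomputable def R1 (N : ℕ) : ℝ := ∑ p ∈ (Finset.Icc 1 N).filter Nat.Prime, (1 : ℝ) / p

/-- `∑_{p ≤ N} log p / p` -/
noncomputable def R2 (N : ℕ) : ℝ := ∑ p ∈ (Finset.Icc 1 N).filter Nat.Prime, Real.log p / p

/-- `∏_{p ≤ N} (1-1/p)` -/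
noncomputable def QQ (N : ℕ) : ℝ := ∏ p ∈ (Finset.Icc 1 N).filter Nat.Prime, (1 - 1 / (p : ℝ))

theorem log_floor_sub : Tendsto (fun x : ℝ => Real.log ⌊x⌋₊ - Real.log x) atTop (𝓝 0) := by
  have h1 : Tendsto (fun x : ℝ => (⌊x⌋₊ : ℝ) / x) atTop (𝓝 1) := tendsto_nat_floor_div_atTop
  have h2 : Tendsto (fun x : ℝ => Real.log ((⌊x⌋₊ : ℝ) / x)) atTop (𝓝 0) := by
    have := (Real.continuousAt_log (one_ne_zero)).tendsto.comp h1
    simpa [Function.comp_def] using this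
  refine h2.congr' ?_
  filter_upwards [eventually_ge_atTop (1 : ℝ)] with x hx
  have h3 : (0 : ℝ) < ⌊x⌋₊ := by exact_mod_cast Nat.floor_pos.2 hx
  rw [Real.log_div h3.ne' (by linarith)]

theorem log_floor_div : Tendsto (fun x : ℝ => Real.log ⌊x⌋₊ / Real.log x) atTop (𝓝 1) := by
  have h1 : Tendsto (fun x : ℝ => (Real.log ⌊x⌋₊ - Real.log x) * (Real.log x)⁻¹ + 1) atTop (𝓝 (0 * 0 + 1)) :=
    (log_floor_sub.mul (tendsto_inv_atTop_zero.comp Real.tendsto_log_atTop)).add_const 1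
  rw [zero_mul, zero_add] at h1
  refine h1.congr' ?_
  filter_upwards [eventually_gt_atTop (1 : ℝ)] with x hx
  have : 0 < Real.log x := Real.log_pos hx
  field_simp
  ring

theorem R1_real : ∃ M : ℝ, Tendsto (fun x : ℝ => R1 ⌊x⌋₊ - Real.log (Real.log x)) atTop (𝓝 M) := by
  obtain ⟨M, hM⟩ := Pool.Agent.H305R2.mertens_inv_tendsto
  refine ⟨M, ?_⟩
  have h1 := hM.comp (tendsto_nat_floor_atTop (α := ℝ))
  have h2 : Tendsto (fun x : ℝ => Real.log (Real.log ⌊x⌋₊ / Real.log x)) atTop (𝓝 0) := by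
    have := (Real.continuousAt_log (one_ne_zero)).tendsto.comp log_floor_div
    simpa [Function.comp_def] using this
  have h3 := h1.add h2
  rw [add_zero] at h3
  refine h3.congr' ?_
  filter_upwards [eventually_ge_atTop (3 : ℝ)] with x hx
  have h4 : (2 : ℝ) ≤ ⌊x⌋₊ := by
    exact_mod_cast Nat.le_floor (by norm_num; linarith)
  have h5 : 0 < Real.log ⌊x⌋₊ := Real.log_pos (by linarith)
  have h6 : 0 < Real.log x := Real.log_pos (by linarith)
  simp only [Function.comp]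
  rw [Real.log_div h5.ne' h6.ne']
  unfold R1
  ring

theorem R1_diff {f g : ℝ → ℝ} (hf : Tendsto f atTop atTop) (hg : Tendsto g atTop atTop) {ρ : ℝ}
    (hρ : 0 < ρ) (h : Tendsto (fun L => Real.log (f L) / Real.log (g L)) atTop (𝓝 ρ)) :
    Tendsto (fun L => R1 ⌊f L⌋₊ - R1 ⌊g L⌋₊) atTop (𝓝 (Real.log ρ)) := by
  obtain ⟨M, hM⟩ := R1_real
  have h1 := hM.comp hf
  have h2 := hM.comp hg
  have h3 : Tendsto (fun L => Real.log (Real.log (f L) / Real.log (g L))) atTop (𝓝 (Real.log ρ)) :=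
    (Real.continuousAt_log hρ.ne').tendsto.comp h
  have h4 := (h1.sub h2).add h3
  rw [sub_self, zero_add] at h4
  refine h4.congr' ?_
  filter_upwards [hf.eventually_gt_atTop 1, hg.eventually_gt_atTop 1] with L h5 h6
  have h7 := Real.log_pos h5
  have h8 := Real.log_pos h6
  simp only [Function.comp]
  rw [Real.log_div h7.ne' h8.ne']
  ring

theorem R2_real : ∃ C : ℝ, ∀ x : ℝ, 1 ≤ x → |R2 ⌊x⌋₊ - Real.log x| ≤ C := by
  obtain ⟨C, hC⟩ := Pool.Agent.Helper601.Mertens.mertens_log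
  refine ⟨C + Real.log 2, fun x hx => ?_⟩
  have h1 : 1 ≤ ⌊x⌋₊ := Nat.le_floor (by simpa using hx)
  have h1' : (1 : ℝ) ≤ ⌊x⌋₊ := by exact_mod_cast h1
  have h2 := hC _ h1
  have h3 : (⌊x⌋₊ : ℝ) ≤ x := Nat.floor_le (by linarith)
  have h4 : x < ⌊x⌋₊ + 1 := Nat.lt_floor_add_one x
  have h5 : Real.log ⌊x⌋₊ ≤ Real.log x := Real.log_le_log (by linarith) h3
  have h6 : Real.log x ≤ Real.log 2 + Real.log ⌊x⌋₊ := by
    rw [← Real.log_mul (by norm_num) (by linarith)]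
    exact Real.log_le_log (by linarith) (by linarith)
  have h7 : R2 ⌊x⌋₊ - Real.log x = (R2 ⌊x⌋₊ - Real.log ⌊x⌋₊) + (Real.log ⌊x⌋₊ - Real.log x) := by ring
  rw [h7]
  refine (abs_add_le _ _).trans ?_
  apply add_le_add
  · exact h2
  · rw [abs_le]; constructor <;> linarith

theorem R2_diff {f g : ℝ → ℝ} (hf : Tendsto f atTop atTop) (hg : Tendsto g atTop atTop) {ρ : ℝ}
    (h : Tendsto (fun L => (Real.log (f L) - Real.log (g L)) / Real.log L) atTop (𝓝 ρ)) :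
    Tendsto (fun L => (R2 ⌊f L⌋₊ - R2 ⌊g L⌋₊) / Real.log L) atTop (𝓝 ρ) := by
  obtain ⟨C, hC⟩ := R2_real
  have h1 : Tendsto (fun L => ((R2 ⌊f L⌋₊ - Real.log (f L)) - (R2 ⌊g L⌋₊ - Real.log (g L))) / Real.log L)
      atTop (𝓝 0) := by
    have h2 : Tendsto (fun L : ℝ => (C + C) * (Real.log L)⁻¹) atTop (𝓝 0) := by
      have := (tendsto_inv_atTop_zero.comp Real.tendsto_log_atTop).const_mul (C + C)
      simpa using this
    apply squeeze_zero_norm' _ h2
    filter_upwards [hf.eventually_ge_atTop 1, hg.eventually_ge_atTop 1, eventually_gt_atTop (1 : ℝ)] with L h3 h4 h5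
    have h6 : 0 < Real.log L := Real.log_pos h5
    rw [Real.norm_eq_abs, abs_div, abs_of_pos h6, div_eq_mul_inv]
    apply mul_le_mul_of_nonneg_right _ (by positivity)
    exact (abs_sub _ _).trans (add_le_add (hC _ h3) (hC _ h4))
  have h7 := h1.add h
  rw [zero_add] at h7
  refine h7.congr fun L => ?_
  rw [← add_div]
  congr 1
  ring

theorem QQ_pos (N : ℕ) : 0 < QQ N := by
  apply Finset.prod_pos
  intro p hp
  have hp' := (Finset.mem_filter.1 hp).2.two_le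
  have : (2 : ℝ) ≤ p := by exact_mod_cast hp'
  have : 1 / (p : ℝ) ≤ 1 / 2 := by gcongr
  linarith

theorem QQ_real : Tendsto (fun x : ℝ => (QQ ⌊x⌋₊)⁻¹ / Real.log x) atTop
    (𝓝 (Real.exp Real.eulerMascheroniConstant)) := by
  have h1 := Pool.Agent.H305R2.mertens_three.comp (tendsto_nat_floor_atTop (α := ℝ))
  have h2 := h1.mul log_floor_div
  rw [mul_one] at h2
  refine h2.congr' ?_
  filter_upwards [eventually_ge_atTop (3 : ℝ)] with x hx
  have h4 : (2 : ℝ) ≤ ⌊x⌋₊ := by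
    exact_mod_cast Nat.le_floor (by norm_num; linarith)
  have h5 : 0 < Real.log ⌊x⌋₊ := Real.log_pos (by linarith)
  have h6 : 0 < Real.log x := Real.log_pos (by linarith)
  have h7 : (∏ p ∈ (Finset.Icc 1 ⌊x⌋₊).filter Nat.Prime, (1 - (p : ℝ)⁻¹)⁻¹) = (QQ ⌊x⌋₊)⁻¹ := by
    unfold QQ
    rw [Finset.prod_inv_distrib]
    simp only [one_div]
  simp only [Function.comp]
  rw [h7]
  field_simp

theorem QQ_ratio {f g : ℝ → ℝ} (hf : Tendsto f atTop atTop) (hg : Tendsto g atTop atTop) {ρ : ℝ}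
    (h : Tendsto (fun L => Real.log (g L) / Real.log (f L)) atTop (𝓝 ρ)) :
    Tendsto (fun L => QQ ⌊f L⌋₊ / QQ ⌊g L⌋₊) atTop (𝓝 ρ) := by
  have h1 := QQ_real.comp hf
  have h2 := QQ_real.comp hg
  have h3 := (h2.div h1 (Real.exp_pos _).ne').mul h
  rw [div_self (Real.exp_pos _).ne', one_mul] at h3
  refine h3.congr' ?_
  filter_upwards [hf.eventually_gt_atTop 1, hg.eventually_gt_atTop 1] with L h5 h6
  have h7 := Real.log_pos h5
  have h8 := Real.log_pos h6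
  have h9 := QQ_pos ⌊f L⌋₊
  have h10 := QQ_pos ⌊g L⌋₊
  simp only [Function.comp, Pi.div_apply]
  field_simp

theorem tlog (c e : ℝ) (hc : 0 < c) : Tendsto (fun L : ℝ => Real.log (c * L ^ e) / Real.log L) atTop (𝓝 e) := by
  have h1 : Tendsto (fun L : ℝ => Real.log c * (Real.log L)⁻¹ + e) atTop (𝓝 (Real.log c * 0 + e)) :=
    ((tendsto_inv_atTop_zero.comp Real.tendsto_log_atTop).const_mul _).add_const e
  rw [mul_zero, zero_add] at h1
  refine h1.congr' ?_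
  filter_upwards [eventually_gt_atTop (1 : ℝ)] with L hL
  have h2 := Real.log_pos hL
  rw [Real.log_mul hc.ne' (Real.rpow_pos_of_pos (by linarith) _).ne', Real.log_rpow (by linarith)]
  field_simp

theorem ttop (c e : ℝ) (hc : 0 < c) (he : 0 < e) : Tendsto (fun L : ℝ => c * L ^ e) atTop atTop :=
  (tendsto_rpow_atTop he).const_mul_atTop hc

theorem R1_cell (c c' e e' : ℝ) (hc : 0 < c) (hc' : 0 < c') (he : 0 < e) (he' : 0 < e') :
    Tendsto (fun L : ℝ => R1 ⌊c * L ^ e⌋₊ - R1 ⌊c' * L ^ e'⌋₊) atTop (𝓝 (Real.log (e / e'))) := by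
  apply R1_diff (ttop c e hc he) (ttop c' e' hc' he') (by positivity)
  have h1 := (tlog c e hc).div (tlog c' e' hc') he'.ne'
  refine h1.congr' ?_
  filter_upwards [eventually_gt_atTop (1 : ℝ)] with L hL
  have h2 := Real.log_pos hL
  simp only [Pi.div_apply]
  field_simp

theorem R2_cell (c c' e e' : ℝ) (hc : 0 < c) (hc' : 0 < c') (he : 0 < e) (he' : 0 < e') :
    Tendsto (fun L : ℝ => (R2 ⌊c * L ^ e⌋₊ - R2 ⌊c' * L ^ e'⌋₊) / Real.log L) atTop (𝓝 (e - e')) := by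
  apply R2_diff (ttop c e hc he) (ttop c' e' hc' he')
  have h1 := (tlog c e hc).sub (tlog c' e' hc')
  refine h1.congr fun L => ?_
  rw [sub_div]

theorem QQ_cell (c c' e e' : ℝ) (hc : 0 < c) (hc' : 0 < c') (he : 0 < e) (he' : 0 < e') :
    Tendsto (fun L : ℝ => QQ ⌊c * L ^ e⌋₊ / QQ ⌊c' * L ^ e'⌋₊) atTop (𝓝 (e' / e)) := by
  apply QQ_ratio (ttop c e hc he) (ttop c' e' hc' he')
  have h1 := (tlog c' e' hc').div (tlog c e hc) he.ne'
  refine h1.congr' ?_
  filter_upwards [eventually_gt_atTop (1 : ℝ)] with L hL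
  have h2 := Real.log_pos hL
  simp only [Pi.div_apply]
  field_simp

end Pool.Agent.H510R2.Maier
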