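import Mathlib
import Pool.Agent.H510R2.Maier.MA9

/-! Numerical constant. -/

open Finset Filter Topology

namespace Pool.Agent.H510R2.Maier

theorem log_ub (x y : ℝ) (n : ℕ) (hx : 0 < x) (hy : 0 ≤ y)
    (h : x ≤ ∑ i ∈ Finset.range n, y ^ i / (Nat.factorial i : ℝ)) : Real.log x ≤ y := by
  rw [Real.log_le_iff_le_exp hx]
  exact h.trans (Real.sum_le_exp_of_nonneg hy n)

theorem l15 : Real.log (3 / 2) ≤ 0.405466 := by
  apply log_ub _ _ 9 (by norm_num) (by norm_num)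
  simp only [Finset.sum_range_succ, Finset.sum_range_zero, Nat.factorial]
  norm_num

theorem l13 : Real.log (13 / 10) ≤ 0.262365 := by
  apply log_ub _ _ 9 (by norm_num) (by norm_num)
  simp only [Finset.sum_range_succ, Finset.sum_range_zero, Nat.factorial]
  norm_num

theorem l11 : Real.log (11 / 10) ≤ 0.095311 := by
  apply log_ub _ _ 9 (by norm_num) (by norm_num)
  simp only [Finset.sum_range_succ, Finset.sum_range_zero, Nat.factorial]
  norm_num

theorem l43 : Real.log (4 / 3) ≤ 0.287683 := by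
  apply log_ub _ _ 9 (by norm_num) (by norm_num)
  simp only [Finset.sum_range_succ, Finset.sum_range_zero, Nat.factorial]
  norm_num

theorem l54 : Real.log (5 / 4) ≤ 0.223144 := by
  apply log_ub _ _ 9 (by norm_num) (by norm_num)
  simp only [Finset.sum_range_succ, Finset.sum_range_zero, Nat.factorial]
  norm_num

/-- the constant of the three cells -/
noncomputable def cst : ℝ :=
  ((Real.log (2 - 1 / 2) + (1 / 2) / (2 - 1 / 2)) * Real.log ((3 / 5) / (2 / 5)) - 1 / (2 - 1 / 2) * (3 / 5 - 2 / 5)) +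
  ((Real.log (2 - 7 / 10) + (7 / 10) / (2 - 7 / 10)) * Real.log ((4 / 5) / (3 / 5)) - 1 / (2 - 7 / 10) * (4 / 5 - 3 / 5)) +
  ((Real.log (2 - 9 / 10) + (9 / 10) / (2 - 9 / 10)) * Real.log (1 / (4 / 5)) - 1 / (2 - 9 / 10) * (1 - 4 / 5))

theorem cst_le : cst ≤ 0.2648 := by
  have a1 := l15
  have a2 := l13
  have a3 := l11
  have a4 := l43
  have a5 := l54
  have b1 : 0 ≤ Real.log (3 / 2) := Real.log_nonneg (by norm_num)
  have b2 : 0 ≤ Real.log (13 / 10) := Real.log_nonneg (by norm_num)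
  have b3 : 0 ≤ Real.log (11 / 10) := Real.log_nonneg (by norm_num)
  have b4 : 0 ≤ Real.log (4 / 3) := Real.log_nonneg (by norm_num)
  have b5 : 0 ≤ Real.log (5 / 4) := Real.log_nonneg (by norm_num)
  unfold cst
  rw [show (2 : ℝ) - 1 / 2 = 3 / 2 by norm_num, show (2 : ℝ) - 7 / 10 = 13 / 10 by norm_num,
    show (2 : ℝ) - 9 / 10 = 11 / 10 by norm_num, show (3 / 5 : ℝ) / (2 / 5) = 3 / 2 by norm_num,
    show (4 / 5 : ℝ) / (3 / 5) = 4 / 3 by norm_num, show (1 : ℝ) / (4 / 5) = 5 / 4 by norm_num]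
  have c1 : (Real.log (3 / 2) + (1 / 2) / (3 / 2)) * Real.log (3 / 2) ≤ (0.405466 + (1 / 2) / (3 / 2)) * 0.405466 := by
    gcongr
  have c2 : (Real.log (13 / 10) + (7 / 10) / (13 / 10)) * Real.log (4 / 3) ≤ (0.262365 + (7 / 10) / (13 / 10)) * 0.287683 := by
    gcongr
  have c3 : (Real.log (11 / 10) + (9 / 10) / (11 / 10)) * Real.log (5 / 4) ≤ (0.095311 + (9 / 10) / (11 / 10)) * 0.223144 := by
    gcongr
  have : (0.405466 + (1 / 2) / (3 / 2)) * 0.405466 - 1 / (3 / 2) * (3 / 5 - 2 / 5) +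
    ((0.262365 + (7 / 10) / (13 / 10)) * 0.287683 - 1 / (13 / 10) * (4 / 5 - 3 / 5)) +
    ((0.095311 + (9 / 10) / (11 / 10)) * 0.223144 - 1 / (11 / 10) * (1 - 4 / 5)) ≤ (0.2648 : ℝ) := by norm_num
  linarith

/-- the number of integers without prime factor in `(L^{2/5}, L/1000]` -/
theorem NAs_ev (lam : ℝ) (hlam : 0 < lam) : ∀ᶠ L : ℝ in atTop,
    0.4283 * (Yf lam L : ℝ) ≤ (NAs ⌊L ^ (2 / 5 : ℝ)⌋₊ ⌊L / 1000⌋₊ (Yf lam L)).card := by
  set K : ℝ := Real.sqrt lam + 1 with hK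
  have hK1 : 1 ≤ K := by
    have := Real.sqrt_nonneg lam
    linarith
  have hK0 : 0 < K := by linarith
  -- limits
  have t1 := R1_cell 1 1 (3 / 5) (2 / 5) one_pos one_pos (by norm_num) (by norm_num)
  have t2 := R1_cell 1 1 (4 / 5) (3 / 5) one_pos one_pos (by norm_num) (by norm_num)
  have t3 := R1_cell (1 / 1000) 1 1 (4 / 5) (by norm_num) one_pos one_pos (by norm_num)
  have s1 := R2_cell 1 1 (3 / 5) (2 / 5) one_pos one_pos (by norm_num) (by norm_num)
  have s2 := R2_cell 1 1 (4 / 5) (3 / 5) one_pos one_pos (by norm_num) (by norm_num)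
  have s3 := R2_cell (1 / 1000) 1 1 (4 / 5) (by norm_num) one_pos one_pos (by norm_num)
  have hF := (((t1.const_mul (Real.log (2 - 1 / 2) + (1 / 2) / (2 - 1 / 2))).sub (s1.const_mul (1 / (2 - 1 / 2)))).add
    ((t2.const_mul (Real.log (2 - 7 / 10) + (7 / 10) / (2 - 7 / 10))).sub (s2.const_mul (1 / (2 - 7 / 10))))).add
    ((t3.const_mul (Real.log (2 - 9 / 10) + (9 / 10) / (2 - 9 / 10))).sub (s3.const_mul (1 / (2 - 9 / 10))))
  have hF2 := hF.eventually_lt_const (show _ < cst + 0.00001 by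
    show cst < _
    linarith)
  have tY := R1_cell lam K 2 1 hlam hK0 (by norm_num) one_pos
  rw [div_one] at tY
  have tY2 := tY.eventually_const_lt (show Real.log 2 - 0.00001 < Real.log 2 by linarith)
  have tz := R1_cell (1 / 1000) 1 1 (2 / 5) (by norm_num) one_pos one_pos (by norm_num)
  have hlog52 : Real.log (1 / (2 / 5)) < 1 := by
    rw [show (1 : ℝ) / (2 / 5) = 5 / 2 by norm_num]
    rw [Real.log_lt_iff_lt_exp (by norm_num)]
    have := Real.exp_one_gt_d9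
    linarith
  have tz2 := tz.eventually_lt_const hlog52
  have hin := inner_bd lam hlam K hK1 0.00001 (by norm_num)
  have hpi := PI_Y lam hlam 1 one_pos
  have hlogb := Real.tendsto_log_atTop.eventually_ge_atTop (200000 : ℝ)
  have h15 : ∀ᶠ L : ℝ in atTop, (1000 : ℝ) ≤ L ^ (1 / 5 : ℝ) :=
    (tendsto_rpow_atTop (by norm_num)).eventually_ge_atTop _
  have hbig : ∀ᶠ L : ℝ in atTop, (K + 1) / lam ≤ L := eventually_ge_atTop _
  filter_upwards [hF2, tY2, tz2, hin, hpi, hlogb, h15, hbig, eventually_gt_atTop (1 : ℝ)] with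
    L e1 e2 e3 e4 e5 e6 e7 e8 e9
  have hL0 : 0 < L := by linarith
  simp only [one_mul, Real.rpow_one] at e1 e2 e3
  rw [show (1 : ℝ) / 1000 * L = L / 1000 by ring] at e1 e3
  have hYeq : ⌊lam * L ^ (2 : ℝ)⌋₊ = Yf lam L := by
    unfold Yf
    rw [show (2 : ℝ) = ((2 : ℕ) : ℝ) by norm_num, Real.rpow_natCast]
  rw [hYeq] at e2
  set Y := Yf lam L with hY
  set T := ⌊K * L⌋₊ with hT
  set w := ⌊L ^ (2 / 5 : ℝ)⌋₊ with hw
  set c1 := ⌊L ^ (3 / 5 : ℝ)⌋₊ with hc1
  set c2 := ⌊L ^ (4 / 5 : ℝ)⌋₊ with hc2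
  set z := ⌊L / 1000⌋₊ with hz
  have hwc1 : w ≤ c1 := Nat.floor_le_floor (Real.rpow_le_rpow_of_exponent_le e9.le (by norm_num))
  have hc12 : c1 ≤ c2 := Nat.floor_le_floor (Real.rpow_le_rpow_of_exponent_le e9.le (by norm_num))
  have hc2z : c2 ≤ z := by
    apply Nat.floor_le_floor
    rw [le_div_iff₀ (by norm_num)]
    calc L ^ (4 / 5 : ℝ) * 1000 ≤ L ^ (4 / 5 : ℝ) * L ^ (1 / 5 : ℝ) := by gcongr
      _ = L := by
          rw [← Real.rpow_add hL0]
          norm_num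
  have hzL : (z : ℝ) ≤ L / 1000 := Nat.floor_le (by positivity)
  have hzL' : (z : ℝ) ≤ L := by linarith
  have hYle : (Y : ℝ) ≤ lam * L ^ 2 := Nat.floor_le (by positivity)
  have hYlt : lam * L ^ 2 < (Y : ℝ) + 1 := Nat.lt_floor_add_one _
  have hTle : (T : ℝ) ≤ K * L := Nat.floor_le (by positivity)
  have hTlt : K * L < (T : ℝ) + 1 := Nat.lt_floor_add_one _
  have hYT : Y < (T + 1) ^ 2 := by
    have : (Y : ℝ) < ((T + 1) ^ 2 : ℕ) := by
      push_cast
      calc (Y : ℝ) ≤ lam * L ^ 2 := hYle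
        _ = (Real.sqrt lam * L) ^ 2 := by rw [mul_pow, Real.sq_sqrt hlam.le]
        _ ≤ (K * L) ^ 2 := by
            gcongr
            linarith
        _ < ((T : ℝ) + 1) ^ 2 := by gcongr
    exact_mod_cast this
  have hzT : z ≤ T := by
    apply Nat.floor_le_floor
    nlinarith
  have hTY : T ≤ Y := by
    have : (T : ℝ) ≤ Y := by
      have h1 : (K + 1) * L ≤ lam * L ^ 2 := by
        rw [div_le_iff₀ hlam] at e8
        nlinarith
      nlinarith
    exact_mod_cast this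
  have hmain := NAs_lower w z Y T hYT hzT hTY
  refine le_trans ?_ hmain
  have hY0 : (0 : ℝ) ≤ Y := Nat.cast_nonneg _
  -- the sum over `p`
  have hsum : ∑ p ∈ PI w z, (1 : ℝ) / p * ∑ q ∈ PI T (Y / p), (1 : ℝ) / q ≤ cst + 0.00002 := by
    have g1 : ∑ p ∈ PI w z, (1 : ℝ) / p * ∑ q ∈ PI T (Y / p), (1 : ℝ) / q ≤
        ∑ p ∈ PI w z, ((1 : ℝ) / p * Real.log (2 - Real.log p / Real.log L) + 0.00001 * ((1 : ℝ) / p)) := by
      apply Finset.sum_le_sum
      intro p hp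
      have g2 := mem_PI.1 hp
      have g3 : (p : ℝ) ≤ z := by exact_mod_cast g2.1.2
      have g4 := e4 p g2.2 (by linarith)
      calc (1 : ℝ) / p * ∑ q ∈ PI T (Y / p), (1 : ℝ) / q ≤
          1 / p * (Real.log (2 - Real.log p / Real.log L) + 0.00001) := by gcongr
        _ = _ := by ring
    rw [Finset.sum_add_distrib, ← Finset.mul_sum, sum_PI_inv (hwc1.trans (hc12.trans hc2z))] at g1
    have g5 := cell_bd w c1 hwc1 L (1 / 2) e9 (by
      have : (c1 : ℝ) ≤ z := by exact_mod_cast hc12.trans hc2z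
      linarith) (by norm_num)
    have g6 := cell_bd c1 c2 hc12 L (7 / 10) e9 (by
      have : (c2 : ℝ) ≤ z := by exact_mod_cast hc2z
      linarith) (by norm_num)
    have g7 := cell_bd c2 z hc2z L (9 / 10) e9 hzL' (by norm_num)
    have g8 : ∑ p ∈ PI w z, (1 : ℝ) / p * Real.log (2 - Real.log p / Real.log L) =
        ∑ p ∈ PI w c1, (1 : ℝ) / p * Real.log (2 - Real.log p / Real.log L) +
        ∑ p ∈ PI c1 c2, (1 : ℝ) / p * Real.log (2 - Real.log p / Real.log L) +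
        ∑ p ∈ PI c2 z, (1 : ℝ) / p * Real.log (2 - Real.log p / Real.log L) := by
      rw [sum_PI (fun p : ℕ => (1 : ℝ) / p * Real.log (2 - Real.log p / Real.log L)) (hwc1.trans (hc12.trans hc2z)),
        sum_PI (fun p : ℕ => (1 : ℝ) / p * Real.log (2 - Real.log p / Real.log L)) hwc1,
        sum_PI (fun p : ℕ => (1 : ℝ) / p * Real.log (2 - Real.log p / Real.log L)) hc12,
        sum_PI (fun p : ℕ => (1 : ℝ) / p * Real.log (2 - Real.log p / Real.log L)) hc2z]
      ring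
    rw [g8] at g1
    linarith
  have hcard : ((PI T Y).card : ℝ) ≤ 0.00001 * Y := by
    refine (e5 T).trans ?_
    have h1 : (Y : ℝ) / Real.log L ≤ Y / 200000 := by gcongr
    calc (1 / 2 + 1) * ((Y : ℝ) / Real.log L) ≤ (1 / 2 + 1) * (Y / 200000) := by gcongr
      _ ≤ _ := by linarith
  have hlog2 := Real.log_two_gt_d9
  have hc := cst_le
  have h1 : (0.69313 : ℝ) * Y ≤ Y * (R1 Y - R1 T) := by
    rw [mul_comm]
    apply mul_le_mul_of_nonneg_left _ hY0
    linarith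
  have h2 : Y * ∑ p ∈ PI w z, (1 : ℝ) / p * ∑ q ∈ PI T (Y / p), (1 : ℝ) / q ≤ Y * 0.26482 := by
    apply mul_le_mul_of_nonneg_left _ hY0
    linarith
  linarith

end Pool.Agent.H510R2.Maier
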