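import Mathlib
import Pool.Agent.H510R2.Maier.MA7

/-! Averaging over the classes modulo the small primes. -/

open Finset Filter Topology
open Pool.Agent.H378R2

namespace Pool.Agent.H510R2.Maier

theorem card_shift (n h : ℕ) (hn : 0 < n) :
    ((Finset.range n).filter (fun b => (b + h).Coprime n)).card = n.totient := by
  rw [← Nat.filter_coprime_Ico_eq_totient n h]
  apply Finset.card_bij (fun b _ => b + h)
  · intro b hb
    rw [Finset.mem_filter, Finset.mem_range] at hb
    rw [Finset.mem_filter, Finset.mem_Ico]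
    exact ⟨⟨by omega, by omega⟩, (Nat.coprime_comm.1 hb.2)⟩
  · intro a _ b _ hab
    omega
  · intro x hx
    rw [Finset.mem_filter, Finset.mem_Ico] at hx
    refine ⟨x - h, ?_, by omega⟩
    rw [Finset.mem_filter, Finset.mem_range]
    refine ⟨by omega, ?_⟩
    rw [Nat.sub_add_cancel hx.1.1]
    exact Nat.coprime_comm.1 hx.2

theorem exists_class (H : Finset ℕ) (n : ℕ) (hn : 0 < n) :
    ∃ b < n, H.card * n.totient ≤ n * (H.filter (fun h => (b + h).Coprime n)).card := by
  by_contra hcon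
  push Not at hcon
  have h1 : ∑ b ∈ Finset.range n, (H.filter (fun h => (b + h).Coprime n)).card = H.card * n.totient := by
    simp only [Finset.card_filter]
    rw [Finset.sum_comm]
    rw [Finset.sum_congr rfl (g := fun _ => n.totient)]
    · rw [Finset.sum_const, smul_eq_mul]
    · intro h _
      rw [← card_shift n h hn, Finset.card_filter]
  have h2 : ∑ b ∈ Finset.range n, n * (H.filter (fun h => (b + h).Coprime n)).card <
      ∑ b ∈ Finset.range n, H.card * n.totient := by
    apply Finset.sum_lt_sum_of_nonempty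
    · exact ⟨0, Finset.mem_range.2 hn⟩
    · intro b hb
      exact hcon b (Finset.mem_range.1 hb)
  rw [← Finset.mul_sum, h1, Finset.sum_const, Finset.card_range, smul_eq_mul] at h2
  omega

theorem coprime_prod_aux {a : ℕ} {s : Finset ℕ} (ha : a.Prime) (hs : ∀ p ∈ s, p.Prime) (h : a ∉ s) :
    Nat.Coprime a (∏ p ∈ s, p) := by
  apply Nat.Coprime.prod_right
  intro i hi
  rw [Nat.coprime_primes ha (hs i hi)]
  rintro rfl
  exact h hi

theorem totient_prod (B : Finset ℕ) (hB : ∀ p ∈ B, p.Prime) :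
    ((∏ p ∈ B, p).totient : ℝ) = (∏ p ∈ B, p : ℕ) * BE B := by
  induction B using Finset.induction_on with
  | empty => simp [BE]
  | insert a s ha ih =>
    have hap := hB a (Finset.mem_insert_self _ _)
    have hs : ∀ p ∈ s, p.Prime := fun p hp => hB p (Finset.mem_insert_of_mem hp)
    have ih := ih hs
    rw [Finset.prod_insert ha, Nat.totient_mul (coprime_prod_aux hap hs ha), Nat.totient_prime hap]
    unfold BE at ih ⊢
    rw [Finset.prod_insert ha]
    push_cast [hap.one_le] at ih ⊢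
    rw [ih]
    have : (a : ℝ) ≠ 0 := by exact_mod_cast hap.ne_zero
    field_simp

theorem prod_coprime_of_disjoint {A B : Finset ℕ} (hA : ∀ p ∈ A, p.Prime) (hB : ∀ p ∈ B, p.Prime)
    (h : Disjoint A B) : Nat.Coprime (∏ p ∈ A, p) (∏ p ∈ B, p) := by
  apply Nat.Coprime.prod_left
  intro a ha
  exact coprime_prod_aux (hA a ha) hB (Finset.disjoint_left.1 h ha)

/-- Choice of the residue class: `0` modulo the primes of `A`, by averaging modulo those of `B`. -/
theorem choose_class (A B : Finset ℕ) (hA : ∀ p ∈ A, p.Prime) (hB : ∀ p ∈ B, p.Prime)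
    (hAB : Disjoint A B) (Y : ℕ) : ∃ r : ℕ,
    BE B * (((Icc 1 Y).filter (fun h => ∀ p ∈ A, ¬ p ∣ h)).card : ℝ) ≤ VV (∏ p ∈ A ∪ B, p) r Y := by
  classical
  set WA := ∏ p ∈ A, p with hWA
  set WB := ∏ p ∈ B, p with hWB
  have hWB0 : 0 < WB := Finset.prod_pos fun p hp => (hB p hp).pos
  set H := (Icc 1 Y).filter (fun h => ∀ p ∈ A, ¬ p ∣ h) with hH
  obtain ⟨b, hb, hcard⟩ := exists_class H WB hWB0
  have hco := prod_coprime_of_disjoint hA hB hAB
  obtain ⟨r, hrA, hrB⟩ := Nat.chineseRemainder hco 0 b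
  refine ⟨r, ?_⟩
  have h1 : H.filter (fun h => (b + h).Coprime WB) ⊆ (Icc 1 Y).filter (fun h => (r + h).Coprime (∏ p ∈ A ∪ B, p)) := by
    intro h hh
    rw [Finset.mem_filter, hH, Finset.mem_filter] at hh
    obtain ⟨⟨hh1, hh2⟩, hh3⟩ := hh
    rw [Finset.mem_filter]
    refine ⟨hh1, ?_⟩
    rw [Finset.prod_union hAB]
    apply Nat.Coprime.mul_right
    · apply Nat.Coprime.prod_right
      intro p hp
      rw [Nat.coprime_comm, (hA p hp).coprime_iff_not_dvd]
      intro hd
      have h2 : p ∣ r := by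
        have h3 : p ∣ WA := Finset.dvd_prod_of_mem _ hp
        exact h3.trans ((Nat.modEq_zero_iff_dvd).1 hrA)
      exact hh2 p hp ((Nat.dvd_add_right h2).1 hd)
    · have h4 : r + h ≡ b + h [MOD WB] := Nat.ModEq.add_right h hrB
      have h5 := h4.gcd_eq
      rw [Nat.Coprime, h5]
      exact hh3
  have h2 : (H.filter (fun h => (b + h).Coprime WB)).card ≤ VV (∏ p ∈ A ∪ B, p) r Y := by
    unfold VV
    exact Finset.card_le_card h1
  have h3 : (H.card : ℝ) * WB.totient ≤ WB * (H.filter (fun h => (b + h).Coprime WB)).card := by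
    exact_mod_cast hcard
  rw [totient_prod B hB] at h3
  have h4 : ((H.filter (fun h => (b + h).Coprime WB)).card : ℝ) ≤ VV (∏ p ∈ A ∪ B, p) r Y := by
    exact_mod_cast h2
  refine le_trans ?_ h4
  have h5 : (0 : ℝ) < WB := by exact_mod_cast hWB0
  rw [← hWB] at h3
  have h6 : (WB : ℝ) * (BE B * H.card) ≤ WB * (H.filter (fun h => (b + h).Coprime WB)).card := by
    linarith
  exact le_of_mul_le_mul_left h6 h5

theorem weier (s : Finset ℕ) (f : ℕ → ℝ) (h0 : ∀ i ∈ s, 0 ≤ f i) (h1 : ∀ i ∈ s, f i ≤ 1) :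
    1 - ∑ i ∈ s, f i ≤ ∏ i ∈ s, (1 - f i) := by
  induction s using Finset.induction_on with
  | empty => simp
  | insert a s ha ih =>
    have ih := ih (fun i hi => h0 i (Finset.mem_insert_of_mem hi)) (fun i hi => h1 i (Finset.mem_insert_of_mem hi))
    have hp : ∏ i ∈ s, (1 - f i) ≤ 1 := by
      apply Finset.prod_le_one
      · intro i hi
        have := h1 i (Finset.mem_insert_of_mem hi)
        linarith
      · intro i hi
        have := h0 i (Finset.mem_insert_of_mem hi)
        linarith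
    have ha0 := h0 a (Finset.mem_insert_self _ _)
    have ha1 := h1 a (Finset.mem_insert_self _ _)
    rw [Finset.sum_insert ha, Finset.prod_insert ha]
    nlinarith

theorem QQ_split {w z : ℕ} (h : w ≤ z) : QQ z = QQ w * ∏ p ∈ PI w z, (1 - 1 / (p : ℝ)) := by
  have h1 : (Icc 1 z).filter Nat.Prime = (Icc 1 w).filter Nat.Prime ∪ PI w z := by
    ext p
    rw [Finset.mem_union, mem_PI, Finset.mem_filter, Finset.mem_filter, Finset.mem_Icc, Finset.mem_Icc]
    constructor
    · rintro ⟨⟨h1, h2⟩, h3⟩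
      rcases le_or_gt p w with h4 | h4
      · exact Or.inl ⟨⟨h1, h4⟩, h3⟩
      · exact Or.inr ⟨⟨h4, h2⟩, h3⟩
    · rintro (⟨⟨h1, h2⟩, h3⟩ | ⟨⟨h1, h2⟩, h3⟩)
      · exact ⟨⟨h1, h2.trans h⟩, h3⟩
      · exact ⟨⟨h3.one_lt.le, h2⟩, h3⟩
  have h2 : Disjoint ((Icc 1 w).filter Nat.Prime) (PI w z) := by
    rw [Finset.disjoint_left]
    intro p hp hp'
    have := (Finset.mem_Icc.1 (Finset.mem_filter.1 hp).1).2
    have := (mem_PI.1 hp').1.1
    omega
  unfold QQ
  rw [h1, Finset.prod_union h2]

/-- the large part of the modulus has almost full density -/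
theorem BE_A_le (X : ℝ) (S : Finset ℕ) (ps w : ℕ) (hw : w ≤ yy X) (hw0 : 0 < w) (s : ℝ) (hs : ∑ q ∈ S, (1 : ℝ) / q ≤ s)
    (hs1 : 0 < 1 - s - 1 / w) :
    BE ((PW X S ps).filter (fun p => w < p)) ≤ QQ (yy X) / QQ w / (1 - s - 1 / w) := by
  classical
  set A := (PW X S ps).filter (fun p => w < p) with hA
  set R := (PI w (yy X)).filter (fun p => p ∈ S ∨ p = ps) with hR
  have hAR : PI w (yy X) = A ∪ R := by
    ext p
    rw [Finset.mem_union, hA, hR, Finset.mem_filter, Finset.mem_filter, mem_PW, mem_PI]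
    constructor
    · rintro ⟨⟨h1, h2⟩, h3⟩
      by_cases h4 : p ∈ S ∨ p = ps
      · exact Or.inr ⟨⟨⟨h1, h2⟩, h3⟩, h4⟩
      · push Not at h4
        exact Or.inl ⟨⟨h2, h3, h4.1, h4.2⟩, h1⟩
    · rintro (⟨⟨h2, h3, _, _⟩, h1⟩ | ⟨h, _⟩)
      · exact ⟨⟨h1, h2⟩, h3⟩
      · exact h
  have hdis : Disjoint A R := by
    rw [Finset.disjoint_left]
    intro p hp hp'
    rw [hA, Finset.mem_filter, mem_PW] at hp
    rw [hR, Finset.mem_filter] at hp'
    rcases hp'.2 with h | h
    · exact hp.1.2.2.1 h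
    · exact hp.1.2.2.2 h
  have hprod : ∏ p ∈ PI w (yy X), (1 - 1 / (p : ℝ)) = BE A * ∏ p ∈ R, (1 - 1 / (p : ℝ)) := by
    unfold BE
    rw [hAR, Finset.prod_union hdis]
  have hRs : 1 - s - 1 / w ≤ ∏ p ∈ R, (1 - 1 / (p : ℝ)) := by
    have h1 := weier R (fun p => 1 / (p : ℝ)) (fun i _ => by positivity) (fun i hi => by
      have := (mem_PI.1 (Finset.mem_filter.1 hi).1).2.one_lt.le
      have h2 : (1 : ℝ) ≤ i := by exact_mod_cast this
      rw [div_le_one (by linarith)]
      exact h2)
    refine le_trans ?_ h1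
    have h2 : ∑ p ∈ R, (1 : ℝ) / p ≤ s + 1 / w := by
      have h3 : R ⊆ S ∪ ({ps} : Finset ℕ).filter (fun p => w < p) := by
        intro p hp
        rw [hR, Finset.mem_filter, mem_PI] at hp
        rw [Finset.mem_union, Finset.mem_filter, Finset.mem_singleton]
        rcases hp.2 with h | h
        · exact Or.inl h
        · exact Or.inr ⟨h, hp.1.1.1⟩
      calc ∑ p ∈ R, (1 : ℝ) / p ≤ ∑ p ∈ S ∪ ({ps} : Finset ℕ).filter (fun p => w < p), (1 : ℝ) / p :=
            Finset.sum_le_sum_of_subset_of_nonneg h3 fun _ _ _ => by positivity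
        _ ≤ ∑ p ∈ S, (1 : ℝ) / p + ∑ p ∈ ({ps} : Finset ℕ).filter (fun p => w < p), (1 : ℝ) / p := by
            have := Finset.sum_union_inter (s₁ := S) (s₂ := ({ps} : Finset ℕ).filter (fun p => w < p)) (f := fun p : ℕ => (1 : ℝ) / p)
            have h4 : 0 ≤ ∑ p ∈ S ∩ ({ps} : Finset ℕ).filter (fun p => w < p), (1 : ℝ) / p :=
              Finset.sum_nonneg fun _ _ => by positivity
            linarith
        _ ≤ s + 1 / w := by
            apply add_le_add hs
            have hw' : (0 : ℝ) < w := by exact_mod_cast hw0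
            by_cases h5 : w < ps
            · have h6 : ({ps} : Finset ℕ).filter (fun p => w < p) = {ps} := by
                rw [Finset.filter_eq_self]
                intro x hx
                rw [Finset.mem_singleton.1 hx]; exact h5
              rw [h6, Finset.sum_singleton]
              have : (w : ℝ) ≤ ps := by exact_mod_cast h5.le
              gcongr
            · have h6 : ({ps} : Finset ℕ).filter (fun p => w < p) = ∅ := by
                rw [Finset.filter_eq_empty_iff]
                intro x hx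
                rw [Finset.mem_singleton.1 hx]; exact h5
              rw [h6, Finset.sum_empty]
              positivity
    linarith
  have hAp : ∀ p ∈ A, p.Prime := fun p hp => (mem_PW.1 (Finset.mem_filter.1 hp).1).2.1
  have hA0 : 0 < BE A := BE_pos hAp
  have hQ := QQ_split hw
  have hQw := QQ_pos w
  rw [hprod] at hQ
  rw [le_div_iff₀ hs1, le_div_iff₀ hQw]
  calc BE A * (1 - s - 1 / w) * QQ w = QQ w * (BE A * (1 - s - 1 / w)) := by ring
    _ ≤ QQ w * (BE A * ∏ p ∈ R, (1 - 1 / (p : ℝ))) := by gcongr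
    _ = QQ (yy X) := hQ.symm

end Pool.Agent.H510R2.Maier
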