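import Mathlib
import Pool.Agent.H510R2.Maier.MA8
import Pool.Agent.H510R2.Maier.MA10

/-! Windows with few and with many primes. -/

open Finset Filter Topology
open Pool.Agent.H378R2

namespace Pool.Agent.H510R2.Maier

theorem Yf_tendsto (lam : ℝ) (hlam : 0 < lam) : Tendsto (fun L : ℝ => (Yf lam L : ℝ)) atTop atTop := by
  apply tendsto_natCast_atTop_atTop.comp
  unfold Yf
  apply tendsto_nat_floor_atTop.comp
  exact (tendsto_pow_atTop (by norm_num)).const_mul_atTop hlam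

theorem loglin (lam : ℝ) (hlam : 0 < lam) (C δ : ℝ) (hC : 0 < C) (hδ : 0 < δ) : ∀ᶠ L : ℝ in atTop,
    C * Real.log L ≤ δ * Yf lam L := by
  have h1 := Real.isLittleO_log_id_atTop.bound (show (0 : ℝ) < δ / C by positivity)
  have h3 : ∀ᶠ L : ℝ in atTop, L ≤ Yf lam L := by
    filter_upwards [eventually_ge_atTop (2 / lam), eventually_ge_atTop (1 : ℝ)] with L h4 h5
    have h6 : lam * L ^ 2 < Yf lam L + 1 := Nat.lt_floor_add_one _
    rw [div_le_iff₀ hlam] at h4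
    nlinarith
  filter_upwards [h1, h3, eventually_gt_atTop (1 : ℝ)] with L h4 h5 h6
  have := Real.log_pos h6
  rw [Real.norm_of_nonneg this.le, id, Real.norm_of_nonneg (by linarith)] at h4
  calc C * Real.log L ≤ C * (δ / C * L) := by gcongr
    _ = δ * L := by field_simp
    _ ≤ δ * Yf lam L := by gcongr

theorem side_upper (lam : ℝ) (hlam : 0 < lam) : ∀ᶠ X : ℝ in atTop,
    ∀ (ps : ℕ) (S : Finset ℕ), GoodS X S → ∃ r : ℕ,
      1.0705 * (Yf lam (Real.log X) : ℝ) ≤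
        ((VV (WW X S ps) r (Yf lam (Real.log X)) : ℝ) - 80) / BE (PW X S ps) := by
  set E := Real.exp Real.eulerMascheroniConstant with hE
  have hE0 : 0 < E := Real.exp_pos _
  have t1 := QQ_cell (1 / 1000) 1 1 (2 / 5) (by norm_num) one_pos one_pos (by norm_num)
  have t2 : Tendsto (fun L : ℝ => 1 - 6 / (Real.log L) ^ 2 - 1 / (⌊L ^ (2 / 5 : ℝ)⌋₊ : ℝ)) atTop (𝓝 1) := by
    have a1 : Tendsto (fun L : ℝ => 6 / (Real.log L) ^ 2) atTop (𝓝 0) := by
      have : Tendsto (fun L : ℝ => (Real.log L) ^ 2) atTop atTop :=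
        (tendsto_pow_atTop (by norm_num)).comp Real.tendsto_log_atTop
      exact this.const_div_atTop 6
    have a2 : Tendsto (fun L : ℝ => 1 / (⌊L ^ (2 / 5 : ℝ)⌋₊ : ℝ)) atTop (𝓝 0) := by
      have : Tendsto (fun L : ℝ => (⌊L ^ (2 / 5 : ℝ)⌋₊ : ℝ)) atTop atTop :=
        tendsto_natCast_atTop_atTop.comp (tendsto_nat_floor_atTop.comp (tendsto_rpow_atTop (by norm_num)))
      exact this.const_div_atTop 1
    have a3 := (tendsto_const_nhds (x := (1 : ℝ)) (f := atTop (α := ℝ))).sub a1 |>.sub a2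
    simpa using a3
  have t3 := t1.div t2 one_ne_zero
  rw [div_one] at t3
  have t4 := t3.eventually_lt_const (show (2 / 5 : ℝ) / 1 < 0.40001 by norm_num)
  have t5 := t2.eventually_const_lt (show (1 / 2 : ℝ) < 1 by norm_num)
  have e1 := NAs_ev lam hlam
  have e2 := QQ_ev 1 one_pos
  have e3 := loglin lam hlam (80 * (E + 1)) 0.0001 (by positivity) (by norm_num)
  have e4 : ∀ᶠ L : ℝ in atTop, 1 ≤ ⌊L ^ (2 / 5 : ℝ)⌋₊ :=
    (tendsto_nat_floor_atTop.comp (tendsto_rpow_atTop (show (0 : ℝ) < 2 / 5 by norm_num))).eventually_ge_atTop 1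
  have e5 : ∀ᶠ L : ℝ in atTop, (1000 : ℝ) ≤ L ^ (3 / 5 : ℝ) :=
    (tendsto_rpow_atTop (by norm_num)).eventually_ge_atTop _
  have ev := ((((((t4.and t5).and e1).and e2).and e3).and e4).and e5).and (eventually_gt_atTop (1 : ℝ))
  filter_upwards [Real.tendsto_log_atTop.eventually ev] with X hX
  obtain ⟨⟨⟨⟨⟨⟨⟨h1, h2⟩, h3⟩, h4⟩, h5⟩, h6⟩, h7⟩, h8⟩ := hX
  intro ps S hS
  set L := Real.log X with hL
  have hL0 : 0 < L := by linarith
  have hlog := Real.log_pos h8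
  have hyy : yy X = ⌊L / 1000⌋₊ := rfl
  have hS2 := hS.2
  rw [← hL] at hS2
  simp only [Pi.div_apply, one_mul, Real.rpow_one] at h1
  rw [show (1 : ℝ) / 1000 * L = L / 1000 by ring] at h1
  set Y := Yf lam L with hY
  set w := ⌊L ^ (2 / 5 : ℝ)⌋₊ with hw
  have hwz : w ≤ yy X := by
    rw [hyy]
    apply Nat.floor_le_floor
    rw [le_div_iff₀ (by norm_num)]
    calc L ^ (2 / 5 : ℝ) * 1000 ≤ L ^ (2 / 5 : ℝ) * L ^ (3 / 5 : ℝ) := by gcongr
      _ = L := by
          rw [← Real.rpow_add hL0]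
          norm_num
  have hBA := BE_A_le X S ps w hwz h6 _ hS2 (by linarith)
  rw [hyy] at hBA
  set A := (PW X S ps).filter (fun p => w < p) with hA
  set B := (PW X S ps).filter (fun p => ¬ w < p) with hB
  have hPW : A ∪ B = PW X S ps := Finset.filter_union_filter_not_eq _ _
  have hPWp : ∀ p ∈ PW X S ps, p.Prime := fun p hp => (mem_PW.1 hp).2.1
  have hAp : ∀ p ∈ A, p.Prime := fun p hp => hPWp p (Finset.mem_filter.1 hp).1
  have hBp : ∀ p ∈ B, p.Prime := fun p hp => hPWp p (Finset.mem_filter.1 hp).1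
  have hdis : Disjoint A B := Finset.disjoint_filter_filter_not _ _ _
  obtain ⟨r, hr⟩ := choose_class A B hAp hBp hdis Y
  rw [hPW] at hr
  refine ⟨r, ?_⟩
  have hWW : (∏ p ∈ PW X S ps, p) = WW X S ps := rfl
  rw [hWW] at hr
  have hBE : BE (PW X S ps) = BE A * BE B := by
    unfold BE
    rw [← hPW, Finset.prod_union hdis]
  have hA0 : 0 < BE A := BE_pos hAp
  have hB0 : 0 < BE B := BE_pos hBp
  have hBAlt : BE A < 0.40001 := lt_of_le_of_lt hBA h1
  have hcnt : ((NAs w ⌊L / 1000⌋₊ Y).card : ℝ) ≤ (((Icc 1 Y).filter (fun h => ∀ p ∈ A, ¬ p ∣ h)).card : ℝ) := by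
    have : NAs w ⌊L / 1000⌋₊ Y ⊆ (Icc 1 Y).filter (fun h => ∀ p ∈ A, ¬ p ∣ h) := by
      intro h hh
      have hh' := Finset.mem_filter.1 hh
      refine Finset.mem_filter.2 ⟨hh'.1, fun p hp => hh'.2 p ?_⟩
      have h9 := Finset.mem_filter.1 hp
      have h10 := mem_PW.1 h9.1
      exact mem_PI.2 ⟨⟨h9.2, by rw [← hyy]; exact h10.1⟩, h10.2.1⟩
    exact_mod_cast Finset.card_le_card this
  have hQ : QQ ⌊L / 1000⌋₊ ≤ BE (PW X S ps) := by
    have := QQ_le_BE X S ps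
    rwa [hyy] at this
  have hinv : (BE (PW X S ps))⁻¹ ≤ (E + 1) * Real.log L := (inv_anti₀ (QQ_pos _) hQ).trans h4
  have hY0 : (0 : ℝ) ≤ Y := Nat.cast_nonneg _
  have g1 : 1.0706 * (Y : ℝ) ≤ (BE B * (((Icc 1 Y).filter (fun h => ∀ p ∈ A, ¬ p ∣ h)).card : ℝ)) / BE (PW X S ps) := by
    rw [hBE, mul_comm (BE A), mul_div_mul_left _ _ hB0.ne', le_div_iff₀ hA0]
    calc 1.0706 * (Y : ℝ) * BE A ≤ 1.0706 * (Y : ℝ) * 0.40001 := by gcongr
      _ ≤ 0.4283 * Y := by nlinarith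
      _ ≤ _ := h3.trans hcnt
  have hBE0 : 0 < BE (PW X S ps) := BE_pos hPWp
  calc 1.0705 * (Y : ℝ) = 1.0706 * Y - 0.0001 * Y := by ring
    _ ≤ 1.0706 * Y - 80 * (E + 1) * Real.log L := by linarith
    _ ≤ (BE B * (((Icc 1 Y).filter (fun h => ∀ p ∈ A, ¬ p ∣ h)).card : ℝ)) / BE (PW X S ps) -
        80 * (BE (PW X S ps))⁻¹ := by
        have : 80 * (BE (PW X S ps))⁻¹ ≤ 80 * ((E + 1) * Real.log L) := by gcongr
        linarith
    _ = (BE B * (((Icc 1 Y).filter (fun h => ∀ p ∈ A, ¬ p ∣ h)).card : ℝ) - 80) / BE (PW X S ps) := by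
        rw [sub_div, div_eq_mul_inv 80]
    _ ≤ _ := by gcongr

/-- number of primes in `(n, n+Y]` -/
def cnt (n Y : ℕ) : ℕ := ((Icc 1 Y).filter (fun h => (n + h).Prime)).card

theorem thw_ge (n Y : ℕ) (x : ℝ) (hx : 0 < x) (hn : x < n) : Real.log x * cnt n Y ≤ thw n Y := by
  unfold thw cnt
  rw [Finset.card_filter]
  push_cast
  rw [Finset.mul_sum]
  apply Finset.sum_le_sum
  intro h _
  unfold th
  split_ifs with hp
  · rw [mul_one]
    apply Real.log_le_log hx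
    push_cast
    have : (0 : ℝ) ≤ h := Nat.cast_nonneg _
    linarith
  · simp

theorem thw_le (n Y : ℕ) (x : ℝ) (hx : (n : ℝ) + Y ≤ x) (hn : 0 < n) : thw n Y ≤ Real.log x * cnt n Y := by
  unfold thw cnt
  rw [Finset.card_filter]
  push_cast
  rw [Finset.mul_sum]
  apply Finset.sum_le_sum
  intro h hh
  unfold th
  split_ifs with hp
  · rw [mul_one]
    apply Real.log_le_log
    · have : 0 < n + h := by omega
      exact_mod_cast this
    · have : (h : ℝ) ≤ Y := by exact_mod_cast (Finset.mem_Icc.1 hh).2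
      push_cast
      linarith
  · simp

theorem Yf_cube (lam : ℝ) : ∀ᶠ X : ℝ in atTop, (Yf lam (Real.log X) : ℝ) ≤ (Real.log X) ^ 3 := by
  have h1 : ∀ᶠ L : ℝ in atTop, (Yf lam L : ℝ) ≤ L ^ 3 := by
    filter_upwards [eventually_ge_atTop (max lam 1)] with L hL
    have h2 : lam ≤ L := (le_max_left _ _).trans hL
    have h3 : 1 ≤ L := (le_max_right _ _).trans hL
    rcases le_or_gt 0 lam with h4 | h4
    · have h5 : (Yf lam L : ℝ) ≤ lam * L ^ 2 := Nat.floor_le (by positivity)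
      calc (Yf lam L : ℝ) ≤ lam * L ^ 2 := h5
        _ ≤ L * L ^ 2 := by gcongr
        _ = L ^ 3 := by ring
    · have h5 : Yf lam L = 0 := by
        unfold Yf
        apply Nat.floor_of_nonpos
        nlinarith [sq_nonneg L]
      rw [h5]
      simp only [Nat.cast_zero]
      positivity
  exact Real.tendsto_log_atTop.eventually h1

/-- **Few primes.** -/
theorem windows_few (lam : ℝ) (hlam : 0 < lam) (δ : ℝ) (hδ : 0 < δ) : ∀ᶠ X : ℝ in atTop,
    ∃ n : ℕ, X < n ∧ (n : ℝ) < 3 * X ∧ Real.log X * cnt n (Yf lam (Real.log X)) ≤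
      (Real.exp Real.eulerMascheroniConstant / 2 + δ) * Yf lam (Real.log X) := by
  set E := Real.exp Real.eulerMascheroniConstant with hE
  have hE0 : 0 < E := Real.exp_pos _
  obtain ⟨Z, hZ⟩ := side_lower lam hlam (δ / 2) (by linarith)
  set ε : ℝ := min 1 ((δ / 2) / (E / 2 + δ / 2)) with hε
  have hε0 : 0 < ε := lt_min one_pos (by positivity)
  have hε1 : ε ≤ 1 := min_le_left _ _
  have hε2 : ε * (E / 2 + δ / 2) ≤ δ / 2 := by
    have : ε ≤ (δ / 2) / (E / 2 + δ / 2) := min_le_right _ _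
    rwa [le_div_iff₀ (by positivity)] at this
  obtain ⟨X0, hX0⟩ := rows ε hε0 hε1 Z
  filter_upwards [hZ, eventually_ge_atTop X0, Yf_cube lam, eventually_gt_atTop (1 : ℝ)] with X h1 h2 h3 h4
  obtain ⟨ps, S, hps, hS, hr⟩ := hX0 X h2
  obtain ⟨n, hn1, hn2, hn3⟩ := (hr 0 (Yf lam (Real.log X)) h3).2
  refine ⟨n, hn1, hn2, ?_⟩
  have h5 := h1 ps S hps hS
  refine (thw_ge n _ X (by linarith) hn1).trans (hn3.trans ?_)
  have hY0 : (0 : ℝ) ≤ Yf lam (Real.log X) := Nat.cast_nonneg _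
  calc (1 + ε) * (((VV (WW X S ps) 0 (Yf lam (Real.log X)) : ℝ) + 80) / BE (PW X S ps))
      ≤ (1 + ε) * ((E / 2 + δ / 2) * Yf lam (Real.log X)) := by gcongr
    _ = ((E / 2 + δ / 2) + ε * (E / 2 + δ / 2)) * Yf lam (Real.log X) := by ring
    _ ≤ (E / 2 + δ) * Yf lam (Real.log X) := by
        apply mul_le_mul_of_nonneg_right _ hY0
        linarith

/-- **Many primes.** -/
theorem windows_many (lam : ℝ) (hlam : 0 < lam) : ∀ᶠ X : ℝ in atTop,
    ∃ n : ℕ, X < n ∧ (n : ℝ) < 3 * X ∧ 1.0702 * (Yf lam (Real.log X) : ℝ) ≤ Real.log X * cnt n (Yf lam (Real.log X)) := by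
  have h0 := side_upper lam hlam
  obtain ⟨X0, hX0⟩ := rows 0.0001 (by norm_num) (by norm_num) 1
  have e1 : ∀ᶠ X : ℝ in atTop, (Real.log X) ^ 3 ≤ X := by
    have h1 := (Real.isLittleO_pow_log_id_atTop (n := 3)).bound (show (0 : ℝ) < 1 by norm_num)
    filter_upwards [h1, eventually_ge_atTop (1 : ℝ)] with X h2 h3
    rw [Real.norm_of_nonneg (pow_nonneg (Real.log_nonneg h3) 3), id, Real.norm_of_nonneg (by linarith)] at h2
    linarith
  filter_upwards [h0, eventually_ge_atTop X0, Yf_cube lam, eventually_gt_atTop (1 : ℝ), e1,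
    Real.tendsto_log_atTop.eventually_ge_atTop (20000 : ℝ)] with X h1 h2 h3 h4 h5 h6
  obtain ⟨ps, S, hps, hS, hr⟩ := hX0 X h2
  obtain ⟨r, hr1⟩ := h1 ps S hS
  obtain ⟨n, hn1, hn2, hn3⟩ := (hr r (Yf lam (Real.log X)) h3).1
  refine ⟨n, hn1, hn2, ?_⟩
  set Y := Yf lam (Real.log X) with hY
  have hY0 : (0 : ℝ) ≤ Y := Nat.cast_nonneg _
  have hn0 : 0 < n := by
    have : (0 : ℝ) < n := by linarith
    exact_mod_cast this
  have h7 := thw_le n Y (4 * X) (by linarith) hn0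
  have h8 : Real.log (4 * X) ≤ Real.log X + 2 := by
    rw [Real.log_mul (by norm_num) (by linarith)]
    have : Real.log 4 ≤ 2 := by
      rw [show (4 : ℝ) = 2 ^ 2 by norm_num, Real.log_pow]
      have := Real.log_two_lt_d9
      push_cast; linarith
    linarith
  have hc0 : (0 : ℝ) ≤ cnt n Y := Nat.cast_nonneg _
  have h9 : Real.log (4 * X) * cnt n Y ≤ (1 + 0.0001) * (Real.log X * cnt n Y) := by
    calc Real.log (4 * X) * cnt n Y ≤ ((1 + 0.0001) * Real.log X) * cnt n Y := by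
          apply mul_le_mul_of_nonneg_right _ hc0
          linarith
      _ = _ := by ring
  have h10 : (1 - 0.0001) * (1.0705 * (Y : ℝ)) ≤ (1 - 0.0001) * (((VV (WW X S ps) r Y : ℝ) - 80) / BE (PW X S ps)) := by
    gcongr
  have h11 : (1 - 0.0001) * (1.0705 * (Y : ℝ)) ≤ (1 + 0.0001) * (Real.log X * cnt n Y) :=
    h10.trans (hn3.trans (h7.trans h9))
  nlinarith

end Pool.Agent.H510R2.Maier
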