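import Mathlib
import Pool.Agent.H510R2.Maier.MA11

/-! From windows to `p_n`. -/

open Finset Filter Topology

namespace Pool.Agent.H510R2.Maier

/-- number of elements of `P` in `(n, n+Y]` -/
noncomputable def cntP (P : ℕ → Prop) (n Y : ℕ) : ℕ := by
  classical
  exact ((Icc 1 Y).filter (fun h => P (n + h))).card

theorem cntP_prime (n Y : ℕ) : cntP Nat.Prime n Y = cnt n Y := by
  unfold cntP cnt
  congr

theorem cntP_eq (P : ℕ → Prop) [DecidablePred P] (n Y : ℕ) :
    cntP P n Y = ((Icc 1 Y).filter (fun h => P (n + h))).card := by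
  unfold cntP
  congr

theorem count_cntP (P : ℕ → Prop) [DecidablePred P] (n Y : ℕ) :
    Nat.count P (n + 1 + Y) = Nat.count P (n + 1) + cntP P n Y := by
  rw [Nat.count_add]
  congr 1
  rw [Nat.count_eq_card_filter_range, cntP_eq]
  apply Finset.card_bij (fun k _ => k + 1)
  · intro k hk
    have hk1 := Finset.mem_filter.1 hk
    have hk2 := Finset.mem_range.1 hk1.1
    refine Finset.mem_filter.2 ⟨Finset.mem_Icc.2 (by omega), ?_⟩
    rw [show n + (k + 1) = n + 1 + k by ring]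
    exact hk1.2
  · intro a _ b _ h
    omega
  · intro h hh
    have hh1 := Finset.mem_filter.1 hh
    have hh2 := Finset.mem_Icc.1 hh1.1
    refine ⟨h - 1, Finset.mem_filter.2 ⟨Finset.mem_range.2 (by omega), ?_⟩, by omega⟩
    rw [show n + 1 + (h - 1) = n + h by omega]
    exact hh1.2

theorem nth_few (P : ℕ → Prop) [DecidablePred P] (hP : (Set.ofPred P).Infinite) (n Y K : ℕ) (hm : 0 < Nat.count P (n + 1))
    (hK : cntP P n Y < K) : n + Y < Nat.nth P (Nat.count P (n + 1) - 1 + K) := by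
  have h := count_cntP P n Y
  have h2 : Nat.count P (n + 1 + Y) ≤ Nat.count P (n + 1) - 1 + K := by omega
  have h3 := (Nat.count_le_iff_le_nth hP).1 h2
  omega

theorem nth_many (P : ℕ → Prop) [DecidablePred P] (n Y K : ℕ)
    (hK : K < cntP P n Y) : Nat.nth P (Nat.count P (n + 1) + K) ≤ n + Y := by
  have h := count_cntP P n Y
  have h2 : Nat.count P (n + 1) + K < Nat.count P (n + 1 + Y) := by omega
  have h3 := Nat.nth_lt_of_lt_count h2
  omega

/-- `p_n`, starting with `p_0 = 2` -/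
noncomputable def pp (n : ℕ) : ℕ := Nat.nth Nat.Prime n

theorem pp_lt {a b : ℕ} (h : pp a < pp b) : a < b :=
  (Nat.nth_lt_nth Nat.infinite_setOfPred_prime).1 h

theorem few_nth (n Y K : ℕ) (hn : 2 ≤ n) (hK : cnt n Y < K) : ∃ m : ℕ, pp m ≤ n ∧ n ≤ 2 * pp m ∧
    n + Y < pp (m + K) := by
  have h2 : Nat.Prime 2 := Nat.prime_two
  have hc : 0 < Nat.count Nat.Prime (n + 1) := by
    rw [Nat.pos_iff_ne_zero]
    intro h0
    rw [Nat.count_eq_zero ⟨2, h2⟩, Nat.nth_prime_zero_eq_two] at h0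
    omega
  refine ⟨Nat.count Nat.Prime (n + 1) - 1, ?_, ?_, ?_⟩
  · have : Nat.nth Nat.Prime (Nat.count Nat.Prime (n + 1) - 1) < n + 1 := Nat.nth_lt_of_lt_count (by omega)
    unfold pp
    omega
  · obtain ⟨q, hq, hq1, hq2⟩ := Nat.exists_prime_lt_and_le_two_mul (n / 2) (by omega)
    have h3 : Nat.count Nat.Prime q < Nat.count Nat.Prime (n + 1) := by
      have h4 : Nat.count Nat.Prime (q + 1) = Nat.count Nat.Prime q + 1 := by
        rw [Nat.count_succ, if_pos hq]
      have h5 : Nat.count Nat.Prime (q + 1) ≤ Nat.count Nat.Prime (n + 1) := Nat.count_monotone _ (by omega)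
      omega
    have h6 : q ≤ pp (Nat.count Nat.Prime (n + 1) - 1) := by
      unfold pp
      rw [← Nat.nth_count hq]
      exact (Nat.nth_le_nth Nat.infinite_setOfPred_prime).2 (by omega)
    omega
  · unfold pp
    exact nth_few Nat.Prime Nat.infinite_setOfPred_prime n Y K hc (by rw [cntP_prime]; exact hK)

theorem many_nth (n Y K : ℕ) (hK : K < cnt n Y) : ∃ m : ℕ, n < pp m ∧ pp m ≤ n + Y ∧
    pp (m + K) ≤ n + Y := by
  have h1 : ∀ K < cnt n Y, Nat.nth Nat.Prime (Nat.count Nat.Prime (n + 1) + K) ≤ n + Y := by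
    intro K hK
    exact nth_many Nat.Prime n Y K (by rw [cntP_prime]; exact hK)
  refine ⟨Nat.count Nat.Prime (n + 1), ?_, ?_, ?_⟩
  · have : n + 1 ≤ Nat.nth Nat.Prime (Nat.count Nat.Prime (n + 1)) :=
      (Nat.count_le_iff_le_nth Nat.infinite_setOfPred_prime).1 (le_refl (Nat.count Nat.Prime (n + 1)))
    unfold pp
    omega
  · exact h1 0 (by omega)
  · exact h1 K hK

/-- **long blocks** -/
theorem long_blocks (κ c : ℝ) (hκ : 0 < κ) (hc : c < 2 * Real.exp (-Real.eulerMascheroniConstant) * κ) :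
    ∃ᶠ n : ℕ in atTop, c * (Real.log (pp n)) ^ 2 < (pp (n + 1 + ⌊κ * Real.log (pp n)⌋₊) : ℝ) - pp n := by
  set E := Real.exp Real.eulerMascheroniConstant with hE
  have hE0 : 0 < E := Real.exp_pos _
  have hinv : 2 * Real.exp (-Real.eulerMascheroniConstant) * κ = 2 / E * κ := by
    rw [Real.exp_neg]; ring
  rw [hinv] at hc
  obtain ⟨lam, h1, h2⟩ := exists_between (max_lt hc (show 0 < 2 / E * κ by positivity))
  have hlc : c < lam := (le_max_left _ _).trans_lt h1
  have hlam : 0 < lam := (le_max_right _ _).trans_lt h1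
  have h3 : E / 2 * lam < κ := by
    calc E / 2 * lam < E / 2 * (2 / E * κ) := by gcongr
      _ = κ := by field_simp
  obtain ⟨κ', h4, h5⟩ := exists_between h3
  set δ := (κ' - E / 2 * lam) / lam with hδ
  have hδ0 : 0 < δ := by
    rw [hδ]; apply div_pos _ hlam; linarith
  have hδl : (E / 2 + δ) * lam = κ' := by
    rw [hδ]; field_simp; ring
  have hκ'0 : 0 < κ' := lt_trans (by positivity) h4
  rw [frequently_atTop]
  intro N
  have e1 := windows_few lam hlam δ hδ0
  -- largeness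
  have e2 : ∀ᶠ X : ℝ in atTop, κ' * Real.log X + 1 ≤ κ * (Real.log X - 1) := by
    filter_upwards [Real.tendsto_log_atTop.eventually_ge_atTop ((1 + κ) / (κ - κ'))] with X hX
    rw [div_le_iff₀ (by linarith)] at hX
    linarith
  have e3 : ∀ᶠ X : ℝ in atTop, c * (Real.log X + 2) ^ 2 ≤ lam * (Real.log X) ^ 2 := by
    rcases le_or_gt c 0 with hc0 | hc0
    · filter_upwards with X
      have a1 : c * (Real.log X + 2) ^ 2 ≤ 0 := mul_nonpos_of_nonpos_of_nonneg hc0 (sq_nonneg _)
      have a2 : 0 ≤ lam * (Real.log X) ^ 2 := by positivity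
      linarith
    · filter_upwards [Real.tendsto_log_atTop.eventually_ge_atTop (8 * c / (lam - c) + 1)] with X hX
      have h7 : 8 * c ≤ (lam - c) * Real.log X := by
        have h8 : 8 * c / (lam - c) ≤ Real.log X := by linarith
        rw [div_le_iff₀ (by linarith)] at h8
        linarith
      have h9 : 1 ≤ Real.log X := by
        have : 0 ≤ 8 * c / (lam - c) := div_nonneg (by linarith) (by linarith)
        linarith
      nlinarith
  obtain ⟨X, hX1, hX2, hX3, hX4, hX5⟩ := (e1.and (e2.and (e3.and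
    ((eventually_ge_atTop (2 * (pp N : ℝ) + 2)).and (eventually_ge_atTop (10 : ℝ)))))).exists
  obtain ⟨n, hn1, hn2, hn3⟩ := hX1
  have hXpos : 0 < X := by linarith
  set L := Real.log X with hL
  have hL1 : 1 ≤ L := by
    rw [hL, Real.le_log_iff_exp_le hXpos]
    have := Real.exp_one_lt_d9
    linarith
  set Y := Yf lam L with hY
  have hYle : (Y : ℝ) ≤ lam * L ^ 2 := Nat.floor_le (by positivity)
  have hYlt : lam * L ^ 2 < (Y : ℝ) + 1 := Nat.lt_floor_add_one _
  -- the count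
  have hcnt : (cnt n Y : ℝ) ≤ κ' * L := by
    have a1 : L * cnt n Y ≤ (E / 2 + δ) * (lam * L ^ 2) := hn3.trans (by gcongr)
    have a2 : (E / 2 + δ) * (lam * L ^ 2) = L * (κ' * L) := by rw [← hδl]; ring
    rw [a2] at a1
    exact le_of_mul_le_mul_left a1 (by linarith)
  have hn2' : 2 ≤ n := by
    have : (2 : ℝ) ≤ n := by linarith
    exact_mod_cast this
  obtain ⟨m, hm1, hm2, hm3⟩ := few_nth n Y (cnt n Y + 1) hn2' (Nat.lt_succ_self _)
  have hm1' : (pp m : ℝ) ≤ n := by exact_mod_cast hm1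
  have hm2' : (n : ℝ) ≤ 2 * pp m := by exact_mod_cast hm2
  have hpm : X / 2 ≤ pp m := by linarith
  have hNm : N < m := by
    apply pp_lt
    have : (pp N : ℝ) < pp m := by linarith
    exact_mod_cast this
  refine ⟨m, hNm.le, ?_⟩
  have hpm0 : (0 : ℝ) < pp m := by linarith
  have hlogp1 : L - 1 ≤ Real.log (pp m) := by
    have a1 : Real.log (X / 2) ≤ Real.log (pp m) := Real.log_le_log (by linarith) hpm
    rw [Real.log_div hXpos.ne' (by norm_num)] at a1
    have := Real.log_two_lt_d9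
    linarith
  have hlogp2 : Real.log (pp m) ≤ L + 2 := by
    have a1 : Real.log (pp m) ≤ Real.log (4 * X) := Real.log_le_log hpm0 (by linarith)
    rw [Real.log_mul (by norm_num) hXpos.ne'] at a1
    have a2 : Real.log 4 ≤ 2 := by
      rw [show (4 : ℝ) = 2 ^ 2 by norm_num, Real.log_pow]
      have := Real.log_two_lt_d9
      push_cast; linarith
    linarith
  have hK : cnt n Y + 1 ≤ ⌊κ * Real.log (pp m)⌋₊ := by
    apply Nat.le_floor
    push_cast
    calc (cnt n Y : ℝ) + 1 ≤ κ' * L + 1 := by linarith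
      _ ≤ κ * (L - 1) := hX2
      _ ≤ κ * Real.log (pp m) := by gcongr
  have hmono : pp (m + (cnt n Y + 1)) ≤ pp (m + 1 + ⌊κ * Real.log (pp m)⌋₊) :=
    (Nat.nth_le_nth Nat.infinite_setOfPred_prime).2 (by omega)
  have a3 : n + Y + 1 ≤ pp (m + 1 + ⌊κ * Real.log (pp m)⌋₊) := by omega
  have a4 : (n : ℝ) + Y + 1 ≤ pp (m + 1 + ⌊κ * Real.log (pp m)⌋₊) := by exact_mod_cast a3
  have a5 : c * (Real.log (pp m)) ^ 2 ≤ lam * L ^ 2 := by
    rcases le_or_gt c 0 with hc0 | hc0
    · have a1 : c * (Real.log (pp m)) ^ 2 ≤ 0 := mul_nonpos_of_nonpos_of_nonneg hc0 (sq_nonneg _)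
      have a2 : 0 ≤ lam * L ^ 2 := by positivity
      linarith
    · refine le_trans ?_ hX3
      have : 0 ≤ Real.log (pp m) := by linarith
      gcongr
  linarith

/-- **short blocks** -/
theorem short_blocks (κ c : ℝ) (hκ : 0 < κ) (hc : κ / 1.07 < c) :
    ∃ᶠ n : ℕ in atTop, (pp (n + 1 + ⌊κ * Real.log (pp n)⌋₊) : ℝ) - pp n < c * (Real.log (pp n)) ^ 2 := by
  have hc0 : 0 < c := lt_trans (by positivity) hc
  rw [div_lt_iff₀ (by norm_num)] at hc
  rw [frequently_atTop]
  intro N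
  have e1 := windows_many c hc0
  have e2 : ∀ᶠ X : ℝ in atTop, κ * (Real.log X + 2) + 1 + 1.07 < 1.07 * (c * Real.log X) := by
    filter_upwards [Real.tendsto_log_atTop.eventually_gt_atTop ((2 * κ + 2.07) / (c * 1.07 - κ))] with X hX
    rw [div_lt_iff₀ (by linarith)] at hX
    linarith
  have e3 : ∀ᶠ X : ℝ in atTop, c * (Real.log X) ^ 2 ≤ X := by
    have h1 := (Real.isLittleO_pow_log_id_atTop (n := 2)).bound (show (0 : ℝ) < 1 / c by positivity)
    filter_upwards [h1, eventually_ge_atTop (1 : ℝ)] with X h2 h3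
    rw [Real.norm_of_nonneg (pow_nonneg (Real.log_nonneg h3) 2), id, Real.norm_of_nonneg (by linarith)] at h2
    calc c * (Real.log X) ^ 2 ≤ c * (1 / c * X) := by gcongr
      _ = X := by field_simp
  obtain ⟨X, hX1, hX2, hX3, hX4, hX5⟩ := (e1.and (e2.and (e3.and
    ((eventually_ge_atTop (pp N : ℝ)).and (eventually_ge_atTop (10 : ℝ)))))).exists
  obtain ⟨n, hn1, hn2, hn3⟩ := hX1
  have hXpos : 0 < X := by linarith
  set L := Real.log X with hL
  have hL1 : 1 ≤ L := by
    rw [hL, Real.le_log_iff_exp_le hXpos]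
    have := Real.exp_one_lt_d9
    linarith
  set Y := Yf c L with hY
  have hYle : (Y : ℝ) ≤ c * L ^ 2 := Nat.floor_le (by positivity)
  have hYlt : c * L ^ 2 < (Y : ℝ) + 1 := Nat.lt_floor_add_one _
  have hcnt : 1.07 * (c * L) - 1.07 ≤ (cnt n Y : ℝ) := by
    have a1 : 1.07 * (c * L ^ 2 - 1) ≤ L * cnt n Y := by
      refine le_trans ?_ hn3
      have h8 : c * L ^ 2 - 1 ≤ Y := by linarith
      have h9 : (0 : ℝ) ≤ Y := Nat.cast_nonneg _
      linarith
    have a2 : L * (1.07 * (c * L) - 1.07) ≤ 1.07 * (c * L ^ 2 - 1) := by nlinarith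
    exact le_of_mul_le_mul_left (a2.trans a1) (by linarith)
  have hK1 : κ * (L + 2) + 1 < cnt n Y := by linarith
  set K0 := ⌊κ * (L + 2)⌋₊ + 1 with hK0
  have hK0lt : K0 < cnt n Y := by
    have h8 : (⌊κ * (L + 2)⌋₊ : ℝ) ≤ κ * (L + 2) := Nat.floor_le (by positivity)
    have h9 : (K0 : ℝ) < cnt n Y := by
      rw [hK0]
      push_cast
      linarith
    exact_mod_cast h9
  obtain ⟨m, hm1, hm2, hm3⟩ := many_nth n Y K0 hK0lt
  have hm1' : (n : ℝ) < pp m := by exact_mod_cast hm1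
  have hm2' : (pp m : ℝ) ≤ n + Y := by exact_mod_cast hm2
  have hm3' : (pp (m + K0) : ℝ) ≤ n + Y := by exact_mod_cast hm3
  have hNm : N < m := by
    apply pp_lt
    have : (pp N : ℝ) < pp m := by linarith
    exact_mod_cast this
  refine ⟨m, hNm.le, ?_⟩
  have hpm0 : (0 : ℝ) < pp m := by linarith
  have hlogp1 : L ≤ Real.log (pp m) := Real.log_le_log hXpos (by linarith)
  have hlogp2 : Real.log (pp m) ≤ L + 2 := by
    have a1 : Real.log (pp m) ≤ Real.log (4 * X) := Real.log_le_log hpm0 (by linarith)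
    rw [Real.log_mul (by norm_num) hXpos.ne'] at a1
    have a2 : Real.log 4 ≤ 2 := by
      rw [show (4 : ℝ) = 2 ^ 2 by norm_num, Real.log_pow]
      have := Real.log_two_lt_d9
      push_cast; linarith
    linarith
  have hK : ⌊κ * Real.log (pp m)⌋₊ + 1 ≤ K0 := by
    rw [hK0]
    apply Nat.succ_le_succ
    apply Nat.floor_le_floor
    gcongr
  have hmono : (pp (m + 1 + ⌊κ * Real.log (pp m)⌋₊) : ℝ) ≤ pp (m + K0) := by
    exact_mod_cast (Nat.nth_le_nth Nat.infinite_setOfPred_prime).2 (by omega)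
  have a5 : c * L ^ 2 ≤ c * (Real.log (pp m)) ^ 2 := by gcongr
  linarith

theorem cnt_pi (n Y : ℕ) : (cnt n Y : ℝ) = (Nat.primeCounting (n + Y) : ℝ) - Nat.primeCounting n := by
  have h := count_cntP Nat.Prime n Y
  rw [cntP_prime] at h
  have h2 : Nat.primeCounting (n + Y) = Nat.primeCounting n + cnt n Y := by
    unfold Nat.primeCounting Nat.primeCounting'
    have h3 : n + Y + 1 = n + 1 + Y := by ring
    rw [h3]
    exact h
  rw [h2]
  push_cast
  ring

/-- **Windows with many primes, final form.** -/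
theorem many_final (lam : ℝ) (hlam : 0 < lam) : ∀ᶠ X : ℝ in atTop, ∃ n : ℕ, X < n ∧ (n : ℝ) < 3 * X ∧
    1.07 * (lam * Real.log n) ≤
      (Nat.primeCounting (n + ⌊lam * (Real.log n) ^ 2⌋₊) : ℝ) - Nat.primeCounting n := by
  have e1 := windows_many lam hlam
  have e2 : ∀ᶠ X : ℝ in atTop, 1.07 * (lam * (Real.log X + 2)) + 1.0702 ≤ 1.0702 * (lam * Real.log X) := by
    filter_upwards [Real.tendsto_log_atTop.eventually_ge_atTop ((1.07 * lam * 2 + 1.0702) / (0.0002 * lam))] with X hX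
    rw [div_le_iff₀ (by positivity)] at hX
    linarith
  filter_upwards [e1, e2, eventually_ge_atTop (10 : ℝ)] with X h1 h2 h3
  obtain ⟨n, hn1, hn2, hn3⟩ := h1
  refine ⟨n, hn1, hn2, ?_⟩
  have hXpos : 0 < X := by linarith
  set L := Real.log X with hL
  have hL1 : 1 ≤ L := by
    rw [hL, Real.le_log_iff_exp_le hXpos]
    have := Real.exp_one_lt_d9
    linarith
  have hLn : L ≤ Real.log n := Real.log_le_log hXpos hn1.le
  have hLn2 : Real.log n ≤ L + 2 := by
    have a1 : Real.log n ≤ Real.log (4 * X) := Real.log_le_log (by linarith) (by linarith)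
    rw [Real.log_mul (by norm_num) hXpos.ne'] at a1
    have a2 : Real.log 4 ≤ 2 := by
      rw [show (4 : ℝ) = 2 ^ 2 by norm_num, Real.log_pow]
      have := Real.log_two_lt_d9
      push_cast; linarith
    linarith
  set Y := Yf lam L with hY
  have hYlt : lam * L ^ 2 < (Y : ℝ) + 1 := Nat.lt_floor_add_one _
  have hcnt : 1.0702 * (lam * L) - 1.0702 ≤ (cnt n Y : ℝ) := by
    have a1 : 1.0702 * (lam * L ^ 2 - 1) ≤ L * cnt n Y := by
      refine le_trans ?_ hn3
      have : lam * L ^ 2 - 1 ≤ Y := by linarith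
      gcongr
    have a2 : L * (1.0702 * (lam * L) - 1.0702) ≤ 1.0702 * (lam * L ^ 2 - 1) := by nlinarith
    exact le_of_mul_le_mul_left (a2.trans a1) (by linarith)
  have hYY : Y ≤ ⌊lam * (Real.log n) ^ 2⌋₊ := by
    apply Nat.floor_le_floor
    gcongr
  have hmono : cnt n Y ≤ cnt n ⌊lam * (Real.log n) ^ 2⌋₊ := by
    unfold cnt
    apply Finset.card_le_card
    apply Finset.filter_subset_filter
    exact Finset.Icc_subset_Icc_right hYY
  have hmono' : (cnt n Y : ℝ) ≤ cnt n ⌊lam * (Real.log n) ^ 2⌋₊ := by exact_mod_cast hmono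
  rw [← cnt_pi]
  have h4 : 1.07 * (lam * Real.log n) ≤ 1.07 * (lam * (L + 2)) := by gcongr
  linarith

end Pool.Agent.H510R2.Maier
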