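import Mathlib
import Pool.Agent.H510R2.Maier.MA12

/-! Cramér's random model. -/

open Finset Filter Topology MeasureTheory ProbabilityTheory

namespace Pool.Agent.H510R2.Maier

/-- **Cramér's random model**: independent events `A n` (`n` is a random prime), of probability
`1 / log n` for every `n ≥ 3`. -/
structure CramerModel {Ω : Type*} [MeasurableSpace Ω] (μ : Measure Ω) (A : ℕ → Set Ω) : Prop where
  meas : ∀ n, MeasurableSet (A n)
  indep : iIndepSet A μ
  prob : ∀ n : ℕ, 3 ≤ n → μ.real (A n) = 1 / Real.log n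

/-- the rate function `c - κ - κ log (c/κ)` -/
noncomputable def rate (κ c : ℝ) : ℝ := c - κ - κ * Real.log (c / κ)

variable {Ω : Type*} [MeasurableSpace Ω] {μ : Measure Ω} [IsProbabilityMeasure μ] {A : ℕ → Set Ω}

/-- the number of random primes in `(x, x+Y]` -/
noncomputable def Sw (A : ℕ → Set Ω) (x Y : ℕ) : Ω → ℝ :=
  ∑ h ∈ Icc 1 Y, (A (x + h)).indicator (fun _ => (1 : ℝ))

omit [MeasurableSpace Ω] in
theorem Sw_eq (A : ℕ → Set Ω) (x Y : ℕ) (ω : Ω) : Sw A x Y ω = cntP (fun m => ω ∈ A m) x Y := by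
  classical
  unfold Sw cntP
  rw [Finset.sum_apply, Finset.card_filter]
  push_cast
  apply Finset.sum_congr rfl
  intro h _
  rw [Set.indicator_apply]

theorem mgf_ind (B : Set Ω) (hB : MeasurableSet B) (t : ℝ) :
    mgf (B.indicator (fun _ => (1 : ℝ))) μ t ≤ Real.exp ((Real.exp t - 1) * μ.real B) := by
  have h1 : ∀ ω, Real.exp (t * B.indicator (fun _ => (1 : ℝ)) ω) =
      1 + (Real.exp t - 1) * B.indicator (fun _ => (1 : ℝ)) ω := by
    intro ω
    by_cases h : ω ∈ B
    · rw [Set.indicator_of_mem h]; simp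
    · rw [Set.indicator_of_notMem h]; simp
  have h2 : mgf (B.indicator (fun _ => (1 : ℝ))) μ t = 1 + (Real.exp t - 1) * μ.real B := by
    unfold mgf
    simp_rw [h1]
    rw [integral_add (integrable_const _), integral_const_mul, integral_indicator_const _ hB]
    · simp
    · exact ((integrable_const (1 : ℝ)).indicator hB).const_mul _
  rw [h2, add_comm]
  exact Real.add_one_le_exp _

theorem mgf_Sw (hA : CramerModel μ A) (x Y : ℕ) (hx : 3 ≤ x) (t : ℝ) :
    mgf (Sw A x Y) μ t ≤ Real.exp ((Real.exp t - 1) * ∑ h ∈ Icc 1 Y, 1 / Real.log ((x + h : ℕ) : ℝ)) := by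
  have hi : iIndepFun (fun n => (A n).indicator (fun _ω => (1 : ℝ))) μ := hA.indep.iIndepFun_indicator
  have hm : ∀ n, Measurable ((A n).indicator (fun _ω => (1 : ℝ))) := fun n =>
    measurable_const.indicator (hA.meas n)
  have h1 : Sw A x Y = ∑ n ∈ (Icc 1 Y).image (fun h => x + h), (A n).indicator (fun _ω => (1 : ℝ)) := by
    unfold Sw
    rw [Finset.sum_image]
    intro a _ b _ hab
    simpa using hab
  rw [h1, hi.mgf_sum hm, Finset.prod_image (by intro a _ b _ hab; simpa using hab), Finset.mul_sum, Real.exp_sum]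
  apply Finset.prod_le_prod
  · intro i _
    exact mgf_nonneg
  · intro i hi
    refine (mgf_ind (A (x + i)) (hA.meas _) t).trans ?_
    rw [hA.prob (x + i) (by omega)]

theorem Sw_meas (hA : CramerModel μ A) (x Y : ℕ) : Measurable (Sw A x Y) := by
  unfold Sw
  have h1 : (∑ h ∈ Icc 1 Y, (A (x + h)).indicator (fun _ => (1 : ℝ))) =
      fun ω => ∑ h ∈ Icc 1 Y, (A (x + h)).indicator (fun _ => (1 : ℝ)) ω := by
    ext ω
    rw [Finset.sum_apply]
  rw [h1]
  refine Finset.measurable_sum _ fun i _ => ?_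
  exact measurable_const.indicator (hA.meas _)

omit [MeasurableSpace Ω] in
theorem Sw_bdd (A : ℕ → Set Ω) (x Y : ℕ) (ω : Ω) : 0 ≤ Sw A x Y ω ∧ Sw A x Y ω ≤ Y := by
  rw [Sw_eq]
  refine ⟨Nat.cast_nonneg _, ?_⟩
  have : cntP (fun m => ω ∈ A m) x Y ≤ Y := by
    classical
    unfold cntP
    refine (Finset.card_filter_le _ _).trans ?_
    simp
  exact_mod_cast this

theorem Sw_int (hA : CramerModel μ A) (x Y : ℕ) (t : ℝ) :
    Integrable (fun ω => Real.exp (t * Sw A x Y ω)) μ := by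
  apply Integrable.of_bound (C := Real.exp (|t| * Y))
  · exact ((Sw_meas hA x Y).const_mul t).exp.aestronglyMeasurable
  · filter_upwards with ω
    rw [Real.norm_of_nonneg (Real.exp_pos _).le]
    apply Real.exp_le_exp.2
    have h := Sw_bdd A x Y ω
    calc t * Sw A x Y ω ≤ |t| * Sw A x Y ω := mul_le_mul_of_nonneg_right (le_abs_self t) h.1
      _ ≤ |t| * Y := mul_le_mul_of_nonneg_left h.2 (abs_nonneg _)

/-- Chernoff, lower tail -/
theorem tail_low (hA : CramerModel μ A) (x Y : ℕ) (hx : 3 ≤ x) (t a : ℝ) (ht : t ≤ 0) :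
    μ.real {ω | Sw A x Y ω ≤ a} ≤ Real.exp (-t * a + (Real.exp t - 1) * (Y / Real.log ((x + Y : ℕ) : ℝ))) := by
  refine (measure_le_le_exp_mul_mgf a ht (Sw_int hA x Y t)).trans ?_
  rw [Real.exp_add]
  apply mul_le_mul_of_nonneg_left _ (Real.exp_pos _).le
  refine (mgf_Sw hA x Y hx t).trans ?_
  apply Real.exp_le_exp.2
  apply mul_le_mul_of_nonpos_left
  · calc (Y : ℝ) / Real.log ((x + Y : ℕ) : ℝ) = ∑ h ∈ Icc 1 Y, 1 / Real.log ((x + Y : ℕ) : ℝ) := by
          rw [Finset.sum_const, nsmul_eq_mul, Nat.card_Icc, Nat.add_sub_cancel]; ring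
      _ ≤ ∑ h ∈ Icc 1 Y, 1 / Real.log ((x + h : ℕ) : ℝ) := by
          apply Finset.sum_le_sum
          intro h hh
          have h1 := (Finset.mem_Icc.1 hh).2
          have h2 : (1 : ℝ) < ((x + h : ℕ) : ℝ) := by exact_mod_cast (by omega : 1 < x + h)
          apply one_div_le_one_div_of_le (Real.log_pos h2)
          apply Real.log_le_log (by linarith)
          exact_mod_cast (by omega : x + h ≤ x + Y)
  · have := Real.exp_le_one_iff.2 ht
    linarith

/-- Chernoff, upper tail -/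
theorem tail_high (hA : CramerModel μ A) (x Y : ℕ) (hx : 3 ≤ x) (t a : ℝ) (ht : 0 ≤ t) :
    μ.real {ω | a ≤ Sw A x Y ω} ≤ Real.exp (-t * a + (Real.exp t - 1) * (Y / Real.log (x : ℝ))) := by
  refine (measure_ge_le_exp_mul_mgf a ht (Sw_int hA x Y t)).trans ?_
  rw [Real.exp_add]
  apply mul_le_mul_of_nonneg_left _ (Real.exp_pos _).le
  refine (mgf_Sw hA x Y hx t).trans ?_
  apply Real.exp_le_exp.2
  apply mul_le_mul_of_nonneg_left
  · calc ∑ h ∈ Icc 1 Y, 1 / Real.log ((x + h : ℕ) : ℝ) ≤ ∑ h ∈ Icc 1 Y, 1 / Real.log (x : ℝ) := by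
          apply Finset.sum_le_sum
          intro h hh
          have h2 : (1 : ℝ) < x := by exact_mod_cast (by omega : 1 < x)
          apply one_div_le_one_div_of_le (Real.log_pos h2)
          apply Real.log_le_log (by linarith)
          exact_mod_cast (by omega : x ≤ x + h)
      _ = (Y : ℝ) / Real.log (x : ℝ) := by
          rw [Finset.sum_const, nsmul_eq_mul, Nat.card_Icc, Nat.add_sub_cancel]; ring
  · have := Real.one_le_exp ht
    linarith

/-- Borel-Cantelli -/
theorem bc (E : ℕ → Set Ω) (C s : ℝ) (hs : 1 < s) (h : ∀ᶠ x : ℕ in atTop, μ.real (E x) ≤ C * (x : ℝ) ^ (-s)) :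
    ∀ᵐ ω ∂μ, ∀ᶠ x : ℕ in atTop, ω ∉ E x := by
  obtain ⟨x0, hx0⟩ := eventually_atTop.1 h
  set E' : ℕ → Set Ω := fun x => if x0 ≤ x then E x else ∅ with hE'
  have hC : Summable (fun x : ℕ => |C| * (x : ℝ) ^ (-s)) := by
    apply Summable.mul_left
    exact Real.summable_nat_rpow.2 (by linarith)
  have h1 : ∀ x, μ (E' x) ≤ ENNReal.ofReal (|C| * (x : ℝ) ^ (-s)) := by
    intro x
    by_cases hx : x0 ≤ x
    · have h2 := hx0 x hx
      have h3 : μ.real (E x) ≤ |C| * (x : ℝ) ^ (-s) := by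
        refine h2.trans ?_
        apply mul_le_mul_of_nonneg_right (le_abs_self C)
        positivity
      simp only [hE', if_pos hx]
      rw [← ENNReal.ofReal_toReal (measure_ne_top μ (E x))]
      exact ENNReal.ofReal_le_ofReal h3
    · simp [hE', if_neg hx]
  have h4 : (∑' x, μ (E' x)) ≠ ⊤ := by
    apply ne_top_of_le_ne_top _ (ENNReal.tsum_le_tsum h1)
    exact hC.tsum_ofReal_ne_top
  filter_upwards [ae_eventually_notMem h4] with ω hω
  filter_upwards [hω, eventually_ge_atTop x0] with x h5 h6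
  simpa [hE', if_pos h6] using h5

theorem window_low (hA : CramerModel μ A) (κ c : ℝ) (hκ : 0 < κ) (hc : κ < c) (hr : 1 < rate κ c) :
    ∀ᵐ ω ∂μ, ∀ᶠ x : ℕ in atTop, κ * Real.log x < cntP (fun m => ω ∈ A m) x ⌊c * (Real.log x) ^ 2⌋₊ := by
  have hc0 : 0 < c := hκ.trans hc
  set η := (rate κ c - 1) / 2 with hη
  have hη0 : 0 < η := by rw [hη]; linarith
  have key := bc (μ := μ) (fun x : ℕ => {ω | Sw A x ⌊c * (Real.log x) ^ 2⌋₊ ω ≤ κ * Real.log x}) 1 (1 + η) (by linarith) ?_
  · filter_upwards [key] with ω hω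
    filter_upwards [hω] with x hx
    rw [← Sw_eq]
    exact not_le.1 hx
  · have hL : Tendsto (fun x : ℕ => Real.log (x : ℝ)) atTop atTop :=
      Real.tendsto_log_atTop.comp tendsto_natCast_atTop_atTop
    have e1 := hL.eventually_ge_atTop ((c + 1) / η + 1)
    have e2 : ∀ᶠ x : ℕ in atTop, c * (Real.log (x : ℝ)) ^ 2 ≤ x := by
      have h1 := (Real.isLittleO_pow_log_id_atTop (n := 2)).bound (show (0 : ℝ) < 1 / c by positivity)
      have h2 := tendsto_natCast_atTop_atTop.eventually h1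
      filter_upwards [h2, eventually_ge_atTop 1] with x h2 h3
      have h3' : (1 : ℝ) ≤ x := by exact_mod_cast h3
      rw [Real.norm_of_nonneg (pow_nonneg (Real.log_nonneg h3') 2), id, Real.norm_of_nonneg (by linarith)] at h2
      calc c * (Real.log (x : ℝ)) ^ 2 ≤ c * (1 / c * x) := by gcongr
        _ = x := by field_simp
    filter_upwards [e1, e2, eventually_ge_atTop 3] with x h1 h2 h3
    have hx3 : (3 : ℝ) ≤ x := by exact_mod_cast h3
    set L := Real.log (x : ℝ) with hLdef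
    have hL1 : 1 ≤ L := by
      have : 0 ≤ (c + 1) / η := by positivity
      linarith
    set Y := ⌊c * L ^ 2⌋₊ with hY
    have hYle : (Y : ℝ) ≤ c * L ^ 2 := Nat.floor_le (by positivity)
    have hYlt : c * L ^ 2 < (Y : ℝ) + 1 := Nat.lt_floor_add_one _
    have ht : Real.log (κ / c) ≤ 0 := Real.log_nonpos (by positivity) (by rw [div_le_one hc0]; exact hc.le)
    refine (tail_low hA x Y h3 (Real.log (κ / c)) (κ * L) ht).trans ?_
    rw [Real.exp_log (by positivity), one_mul, Real.rpow_def_of_pos (by linarith)]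
    apply Real.exp_le_exp.2
    rw [← hLdef]
    have hlog : Real.log ((x + Y : ℕ) : ℝ) ≤ L + 1 := by
      have a1 : ((x + Y : ℕ) : ℝ) ≤ 2 * x := by push_cast; linarith
      have a2 : Real.log ((x + Y : ℕ) : ℝ) ≤ Real.log (2 * x) := by
        apply Real.log_le_log _ a1
        push_cast
        positivity
      rw [Real.log_mul (by norm_num) (by linarith)] at a2
      have := Real.log_two_lt_d9
      linarith
    have hlog0 : 0 < Real.log ((x + Y : ℕ) : ℝ) := by
      apply Real.log_pos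
      push_cast
      have : (0 : ℝ) ≤ Y := Nat.cast_nonneg _
      linarith
    have h4 : (c - η) * L ≤ Y / Real.log ((x + Y : ℕ) : ℝ) := by
      rcases le_or_gt c η with h5 | h5
      · have : (c - η) * L ≤ 0 := mul_nonpos_of_nonpos_of_nonneg (by linarith) (by linarith)
        exact this.trans (by positivity)
      · rw [le_div_iff₀ hlog0]
        calc (c - η) * L * Real.log ((x + Y : ℕ) : ℝ) ≤ (c - η) * L * (L + 1) := by
              apply mul_le_mul_of_nonneg_left hlog
              apply mul_nonneg <;> linarith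
          _ ≤ c * L ^ 2 - 1 := by
              have h6 : c + 1 ≤ η * (L - 1) := by
                have : (c + 1) / η ≤ L - 1 := by linarith
                rw [div_le_iff₀ hη0] at this
                linarith
              nlinarith
          _ ≤ Y := by linarith
    have h5 : (κ / c - 1) * (Y / Real.log ((x + Y : ℕ) : ℝ)) ≤ (κ / c - 1) * ((c - η) * L) := by
      apply mul_le_mul_of_nonpos_left h4
      have : κ / c ≤ 1 := by rw [div_le_one hc0]; exact hc.le
      linarith
    have h6 : Real.log (κ / c) = - Real.log (c / κ) := by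
      rw [← Real.log_inv, inv_div]
    have h7 : (κ / c - 1) * ((c - η) * L) = (κ - c) * L + (1 - κ / c) * η * L := by
      field_simp
      ring
    have h8 : (1 - κ / c) * η * L ≤ η * L := by
      have : 0 < κ / c := by positivity
      have : 0 ≤ η * L := by positivity
      nlinarith
    have h9 : rate κ c = 1 + 2 * η := by rw [hη]; ring
    have h10 : c - κ - κ * Real.log (c / κ) = 1 + 2 * η := h9
    calc -Real.log (κ / c) * (κ * L) + (κ / c - 1) * (Y / Real.log ((x + Y : ℕ) : ℝ))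
        ≤ κ * Real.log (c / κ) * L + ((κ - c) * L + η * L) := by
          rw [h6]
          have : -(-Real.log (c / κ)) * (κ * L) = κ * Real.log (c / κ) * L := by ring
          rw [this]
          linarith
      _ = -(c - κ - κ * Real.log (c / κ)) * L + η * L := by ring
      _ = L * -(1 + η) := by rw [h10]; ring

theorem window_high (hA : CramerModel μ A) (κ c : ℝ) (hc : 0 < c) (hcκ : c < κ) (hr : 1 < rate κ c) :
    ∀ᵐ ω ∂μ, ∀ᶠ x : ℕ in atTop, (cntP (fun m => ω ∈ A m) x ⌊c * (Real.log x) ^ 2⌋₊ : ℝ) < κ * Real.log x - 1 := by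
  have hκ : 0 < κ := hc.trans hcκ
  have key := bc (μ := μ) (fun x : ℕ => {ω | κ * Real.log x - 1 ≤ Sw A x ⌊c * (Real.log x) ^ 2⌋₊ ω})
    (κ / c) (rate κ c) hr ?_
  · filter_upwards [key] with ω hω
    filter_upwards [hω] with x hx
    rw [← Sw_eq]
    exact not_le.1 hx
  · filter_upwards [eventually_ge_atTop 3] with x h3
    have hx3 : (3 : ℝ) ≤ x := by exact_mod_cast h3
    set L := Real.log (x : ℝ) with hLdef
    have hL0 : 0 < L := Real.log_pos (by linarith)
    set Y := ⌊c * L ^ 2⌋₊ with hY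
    have hYle : (Y : ℝ) ≤ c * L ^ 2 := Nat.floor_le (by positivity)
    have ht : 0 ≤ Real.log (κ / c) := Real.log_nonneg (by rw [le_div_iff₀ hc]; linarith)
    refine (tail_high hA x Y h3 (Real.log (κ / c)) (κ * L - 1) ht).trans ?_
    rw [Real.exp_log (by positivity), Real.rpow_def_of_pos (by linarith), ← hLdef]
    have h1 : κ / c * Real.exp (L * -rate κ c) = Real.exp (Real.log (κ / c) + L * -rate κ c) := by
      rw [Real.exp_add, Real.exp_log (by positivity)]
    rw [h1]
    apply Real.exp_le_exp.2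
    have h2 : (Y : ℝ) / L ≤ c * L := by
      rw [div_le_iff₀ hL0]
      linarith
    have h3 : 0 ≤ κ / c - 1 := by
      have : 1 ≤ κ / c := by rw [le_div_iff₀ hc]; linarith
      linarith
    have h4 : (κ / c - 1) * (Y / L) ≤ (κ / c - 1) * (c * L) := mul_le_mul_of_nonneg_left h2 h3
    have h5 : (κ / c - 1) * (c * L) = (κ - c) * L := by field_simp
    have h6 : Real.log (κ / c) = - Real.log (c / κ) := by
      rw [← Real.log_inv, inv_div]
    unfold rate
    rw [h6] at ht ⊢
    linarith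

/-- the `n`-th random prime (counted from `0`) -/
noncomputable def PP (A : ℕ → Set Ω) (ω : Ω) (n : ℕ) : ℕ := Nat.nth (fun m => ω ∈ A m) n

theorem ae_infinite (hA : CramerModel μ A) : ∀ᵐ ω ∂μ, (Set.ofPred (fun m => ω ∈ A m)).Infinite := by
  have h1 : 1 < rate 1 4 := by
    unfold rate
    rw [div_one, show (4 : ℝ) = 2 ^ 2 by norm_num, Real.log_pow]
    have := Real.log_two_lt_d9
    push_cast
    linarith
  filter_upwards [window_low hA 1 4 one_pos (by norm_num) h1] with ω hω
  intro hfin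
  obtain ⟨x0, hx0⟩ := eventually_atTop.1 hω
  obtain ⟨M, hM⟩ := hfin.bddAbove
  have h2 := hx0 (max x0 (M + 1)) (le_max_left _ _)
  set x := max x0 (M + 1) with hx
  have hxM : M + 1 ≤ x := le_max_right _ _
  have h3 : 0 ≤ Real.log (x : ℝ) := Real.log_natCast_nonneg _
  have h4 : 0 < cntP (fun m => ω ∈ A m) x ⌊4 * (Real.log x) ^ 2⌋₊ := by
    have : (0 : ℝ) < cntP (fun m => ω ∈ A m) x ⌊4 * (Real.log x) ^ 2⌋₊ := by linarith
    exact_mod_cast this
  classical
  unfold cntP at h4
  obtain ⟨h, hh⟩ := Finset.card_pos.1 h4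
  have h5 := (Finset.mem_filter.1 hh)
  have h6 : x + h ≤ M := hM h5.2
  omega

/-- **Model, long blocks.** -/
theorem model_long (hA : CramerModel μ A) (κ c : ℝ) (hκ : 0 < κ) (hc : κ < c) (hr : 1 < rate κ c) :
    ∀ᵐ ω ∂μ, ∀ᶠ n : ℕ in atTop,
      (PP A ω (n + 1 + ⌊κ * Real.log (PP A ω n)⌋₊) : ℝ) - PP A ω n ≤ c * (Real.log (PP A ω n)) ^ 2 := by
  have hc0 : 0 < c := hκ.trans hc
  filter_upwards [window_low hA κ c hκ hc hr, ae_infinite hA] with ω hω hinf
  have hmono := Nat.nth_strictMono hinf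
  have htend : Tendsto (fun n => PP A ω n) atTop atTop := hmono.tendsto_atTop
  filter_upwards [htend.eventually hω] with n hn
  classical
  set x := PP A ω n with hx
  have h1 : ⌊κ * Real.log (x : ℝ)⌋₊ < cntP (fun m => ω ∈ A m) x ⌊c * (Real.log x) ^ 2⌋₊ := by
    rw [Nat.floor_lt (mul_nonneg hκ.le (Real.log_natCast_nonneg _))]
    exact hn
  have h2 := nth_many (fun m => ω ∈ A m) x _ _ h1
  have h3 : Nat.count (fun m => ω ∈ A m) (x + 1) = n + 1 := by
    have := Nat.count_nth_succ_of_infinite hinf n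
    rw [hx]
    unfold PP
    convert this
  have h4 : PP A ω (n + 1 + ⌊κ * Real.log (x : ℝ)⌋₊) ≤ x + ⌊c * (Real.log x) ^ 2⌋₊ := by
    rw [h3] at h2
    exact h2
  have h5 : (PP A ω (n + 1 + ⌊κ * Real.log (x : ℝ)⌋₊) : ℝ) ≤ x + ⌊c * (Real.log x) ^ 2⌋₊ := by exact_mod_cast h4
  have h6 : (⌊c * (Real.log (x : ℝ)) ^ 2⌋₊ : ℝ) ≤ c * (Real.log x) ^ 2 := Nat.floor_le (by positivity)
  linarith

/-- **Model, short blocks.** -/
theorem model_short (hA : CramerModel μ A) (κ c : ℝ) (hc : 0 < c) (hcκ : c < κ) (hr : 1 < rate κ c) :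
    ∀ᵐ ω ∂μ, ∀ᶠ n : ℕ in atTop,
      c * (Real.log (PP A ω n)) ^ 2 ≤ (PP A ω (n + 1 + ⌊κ * Real.log (PP A ω n)⌋₊) : ℝ) - PP A ω n := by
  filter_upwards [window_high hA κ c hc hcκ hr, ae_infinite hA] with ω hω hinf
  have hmono := Nat.nth_strictMono hinf
  have htend : Tendsto (fun n => PP A ω n) atTop atTop := hmono.tendsto_atTop
  filter_upwards [htend.eventually hω] with n hn
  classical
  set x := PP A ω n with hx
  have h1 : cntP (fun m => ω ∈ A m) x ⌊c * (Real.log x) ^ 2⌋₊ < ⌊κ * Real.log (x : ℝ)⌋₊ := by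
    have h2 : κ * Real.log (x : ℝ) - 1 < ⌊κ * Real.log (x : ℝ)⌋₊ := by
      have := Nat.lt_floor_add_one (κ * Real.log (x : ℝ))
      linarith
    have h3 : (cntP (fun m => ω ∈ A m) x ⌊c * (Real.log x) ^ 2⌋₊ : ℝ) < ⌊κ * Real.log (x : ℝ)⌋₊ := hn.trans h2
    exact_mod_cast h3
  have h3 : Nat.count (fun m => ω ∈ A m) (x + 1) = n + 1 := by
    have := Nat.count_nth_succ_of_infinite hinf n
    rw [hx]
    unfold PP
    convert this
  have h2 := nth_few (fun m => ω ∈ A m) hinf x _ _ (by rw [h3]; omega) h1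
  have h4 : x + ⌊c * (Real.log x) ^ 2⌋₊ < PP A ω (n + 1 + ⌊κ * Real.log (x : ℝ)⌋₊) := by
    rw [h3] at h2
    refine lt_of_lt_of_le h2 ?_
    unfold PP
    apply hmono.monotone
    omega
  have h5 : (x : ℝ) + ⌊c * (Real.log x) ^ 2⌋₊ + 1 ≤ PP A ω (n + 1 + ⌊κ * Real.log (x : ℝ)⌋₊) := by exact_mod_cast h4
  have h6 : c * (Real.log (x : ℝ)) ^ 2 < ⌊c * (Real.log (x : ℝ)) ^ 2⌋₊ + 1 := Nat.lt_floor_add_one _
  linarith

end Pool.Agent.H510R2.Maier
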