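import Mathlib
import Pool.Agent.H510R2.Maier.MA10
import Pool.Agent.H510R2.Maier.MA13

/-! Numerical thresholds, existence of the model. -/

open Finset Filter Topology MeasureTheory ProbabilityTheory

namespace Pool.Agent.H510R2.Maier

theorem log_lb (x y : ℝ) (n : ℕ) (hx : 0 < x) (hy : 0 ≤ y) (hy1 : y ≤ 1) (hn : 0 < n)
    (h : (∑ m ∈ Finset.range n, y ^ m / (Nat.factorial m : ℝ)) + y ^ n * (n + 1) / (Nat.factorial n * n) ≤ x) :
    y ≤ Real.log x := by
  rw [Real.le_log_iff_exp_le hx]
  exact (Real.exp_bound' hy hy1 hn).trans h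

/-- `H_n - log (n + 1/2)` -/
noncomputable def gs (n : ℕ) : ℝ := (harmonic n : ℝ) - Real.log (n + 1 / 2)

theorem gs_anti : Antitone gs := by
  apply antitone_nat_of_succ_le
  intro n
  unfold gs
  rw [harmonic_succ]
  push_cast
  have h1 : (0 : ℝ) < n + 1 / 2 := by positivity
  have h2 := Real.le_log_one_add_of_nonneg (x := 1 / ((n : ℝ) + 1 / 2)) (by positivity)
  have h3 : 2 * (1 / ((n : ℝ) + 1 / 2)) / (1 / ((n : ℝ) + 1 / 2) + 2) = ((n : ℝ) + 1)⁻¹ := by
    field_simp
    ring
  have h4 : 1 + 1 / ((n : ℝ) + 1 / 2) = ((n : ℝ) + 1 + 1 / 2) / ((n : ℝ) + 1 / 2) := by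
    field_simp
    ring
  rw [h3, h4, Real.log_div (by positivity) (by positivity)] at h2
  linarith

theorem gs_tendsto : Tendsto gs atTop (𝓝 Real.eulerMascheroniConstant) := by
  have h1 := Real.tendsto_harmonic_sub_log
  have h2 : Tendsto (fun n : ℕ => Real.log (((n : ℝ) + 1 / 2) / n)) atTop (𝓝 0) := by
    have h3 : Tendsto (fun n : ℕ => 1 + (1 / 2) / (n : ℝ)) atTop (𝓝 (1 + 0)) :=
      tendsto_const_nhds.add (tendsto_const_div_atTop_nhds_zero_nat _)
    rw [add_zero] at h3
    have h4 : Tendsto (fun n : ℕ => ((n : ℝ) + 1 / 2) / n) atTop (𝓝 1) := by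
      refine h3.congr' ?_
      filter_upwards [eventually_gt_atTop 0] with n hn
      have : (0 : ℝ) < n := by exact_mod_cast hn
      field_simp
    have h5 := (Real.continuousAt_log (one_ne_zero)).tendsto.comp h4
    simpa [Function.comp_def] using h5
  have h6 := h1.sub h2
  rw [sub_zero] at h6
  refine h6.congr' ?_
  filter_upwards [eventually_gt_atTop 0] with n hn
  have : (0 : ℝ) < n := by exact_mod_cast hn
  unfold gs
  rw [Real.log_div (by positivity) (by positivity)]
  ring

theorem gamma_lt : Real.eulerMascheroniConstant ≤ 0.57726 := by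
  refine (gs_anti.le_of_tendsto gs_tendsto 31).trans ?_
  unfold gs
  have h1 : (harmonic 31 : ℝ) ≤ 4.0272453 := by
    have : (harmonic 31 : ℚ) ≤ 4.0272453 := by
      simp only [harmonic, Finset.sum_range_succ, Finset.sum_range_zero]
      norm_num
    have h2 : ((harmonic 31 : ℚ) : ℝ) ≤ ((4.0272453 : ℚ) : ℝ) := by exact_mod_cast this
    refine h2.trans ?_
    norm_num
  have h2 : Real.log (((31 : ℕ) : ℝ) + 1 / 2) = 5 * Real.log 2 - Real.log (64 / 63) := by
    rw [show ((31 : ℕ) : ℝ) + 1 / 2 = 2 ^ 5 / (64 / 63) by norm_num, Real.log_div (by norm_num) (by norm_num), Real.log_pow]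
    norm_num
  have h3 : Real.log (64 / 63) ≤ 0.0157484 := by
    apply log_ub _ _ 5 (by norm_num) (by norm_num)
    simp only [Finset.sum_range_succ, Finset.sum_range_zero, Nat.factorial]
    norm_num
  have h4 := Real.log_two_gt_d9
  rw [h2]
  linarith

theorem two_exp_neg_gamma : 1.1228 < 2 * Real.exp (-Real.eulerMascheroniConstant) := by
  have h1 : Real.exp (-0.57726) ≤ Real.exp (-Real.eulerMascheroniConstant) := by
    apply Real.exp_le_exp.2
    have := gamma_lt
    linarith
  have h2 : Real.exp 0.57726 ≤ 1.7812 := by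
    refine (Real.exp_bound' (by norm_num) (by norm_num) (n := 8) (by norm_num)).trans ?_
    simp only [Finset.sum_range_succ, Finset.sum_range_zero, Nat.factorial]
    norm_num
  have h3 : (1.7812 : ℝ)⁻¹ ≤ Real.exp (-0.57726) := by
    rw [Real.exp_neg]
    exact inv_anti₀ (Real.exp_pos _) h2
  have h4 : (1.1228 : ℝ) < 2 * (1.7812 : ℝ)⁻¹ := by norm_num
  linarith

theorem rate_long (κ : ℝ) (hκ : 144 ≤ κ) : 1 < rate κ (1.1226 * κ) := by
  unfold rate
  have hκ0 : 0 < κ := by linarith
  rw [mul_div_assoc, div_self hκ0.ne', mul_one]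
  have h1 : Real.log 1.1226 ≤ 0.11565 := by
    apply log_ub _ _ 8 (by norm_num) (by norm_num)
    simp only [Finset.sum_range_succ, Finset.sum_range_zero, Nat.factorial]
    norm_num
  nlinarith

theorem rate_short (κ : ℝ) (hκ : 450 ≤ κ) : 1 < rate κ (0.9347 * κ) := by
  unfold rate
  have hκ0 : 0 < κ := by linarith
  rw [mul_div_assoc, div_self hκ0.ne', mul_one]
  have h1 : Real.log 0.9347 ≤ -0.067525 := by
    have h2 : Real.log 0.9347 = - Real.log (1 / 0.9347) := by
      rw [one_div, Real.log_inv, neg_neg]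
    rw [h2]
    have h3 : 0.067525 ≤ Real.log (1 / 0.9347) := by
      apply log_lb _ _ 8 (by norm_num) (by norm_num) (by norm_num) (by norm_num)
      simp only [Finset.sum_range_succ, Finset.sum_range_zero, Nat.factorial]
      norm_num
    linarith
  nlinarith

/-- the coin of bias `q` -/
noncomputable def coin (q : ℝ) : Measure Bool :=
  ENNReal.ofReal q • Measure.dirac true + ENNReal.ofReal (1 - q) • Measure.dirac false

theorem coin_prob (q : ℝ) (h0 : 0 ≤ q) (h1 : q ≤ 1) : IsProbabilityMeasure (coin q) := by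
  constructor
  unfold coin
  simp only [Measure.coe_add, Measure.coe_smul, Pi.add_apply, Pi.smul_apply, measure_univ, smul_eq_mul, mul_one]
  rw [← ENNReal.ofReal_add h0 (by linarith)]
  simp

theorem coin_true (q : ℝ) (h0 : 0 ≤ q) : (coin q).real {true} = q := by
  unfold coin Measure.real
  simp [h0]

/-- the probability `1 / log n`, truncated for `n ≤ 2` -/
noncomputable def qq (n : ℕ) : ℝ := if 3 ≤ n then 1 / Real.log n else 0

theorem qq_bd (n : ℕ) : 0 ≤ qq n ∧ qq n ≤ 1 := by
  unfold qq
  split_ifs with h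
  · have h3 : (3 : ℝ) ≤ n := by exact_mod_cast h
    have h1 : 1 ≤ Real.log n := by
      rw [Real.le_log_iff_exp_le (by linarith)]
      have := Real.exp_one_lt_d9
      linarith
    refine ⟨by positivity, ?_⟩
    rw [div_le_one (by linarith)]
    exact h1
  · norm_num

/-- **Cramér's model exists.** -/
theorem exists_model : ∃ (μ : Measure (ℕ → Bool)) (_ : IsProbabilityMeasure μ) (A : ℕ → Set (ℕ → Bool)),
    CramerModel μ A := by
  have hP : ∀ n, IsProbabilityMeasure (coin (qq n)) := fun n => coin_prob _ (qq_bd n).1 (qq_bd n).2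
  refine ⟨Measure.infinitePi (fun n => coin (qq n)), inferInstance, fun n => (fun ω => ω n) ⁻¹' {true}, ?_, ?_, ?_⟩
  · intro n
    exact (measurable_pi_apply n) (measurableSet_singleton _)
  · have h := iIndepFun_infinitePi (P := fun n => coin (qq n)) (X := fun (n : ℕ) (b : Bool) => b) (fun n => measurable_id)
    rw [iIndepSet_iff_meas_biInter]
    · intro s
      exact h.meas_biInter (fun i _ => ⟨{true}, measurableSet_singleton _, rfl⟩)
    · intro n
      exact (measurable_pi_apply n) (measurableSet_singleton _)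
  · intro n hn
    have h1 : (Measure.infinitePi (fun n => coin (qq n))).map (fun ω => ω n) = coin (qq n) := by
      exact Measure.infinitePi_map_eval _ n
    have h2 : (Measure.infinitePi (fun n => coin (qq n))).real ((fun ω => ω n) ⁻¹' {true}) = (coin (qq n)).real {true} := by
      rw [← h1, map_measureReal_apply (measurable_pi_apply n) (measurableSet_singleton _)]
    rw [h2, coin_true _ (qq_bd n).1]
    unfold qq
    rw [if_pos hn]

end Pool.Agent.H510R2.Maier
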