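import Mathlib
import Pool.Agent.H510R2.Maier.MB7
import Pool.Agent.H510R2.Maier.MA11

/-! The rows with many primes, general cut-off. -/

open Finset Filter Topology
open Pool.Agent.H378R2

namespace Pool.Agent.H510R2.Maier.G

/-- the large part of the modulus has almost full density -/
theorem BE_A_le (D : ℝ) (hD : 1000 ≤ D) (X : ℝ) (hX : 1 ≤ X) (S : Finset ℕ) (ps w : ℕ) (hw : w ≤ ⌊Real.log X / D⌋₊) (hw0 : 0 < w) (s : ℝ) (hs : ∑ q ∈ S, (1 : ℝ) / q ≤ s)
    (hs1 : 0 < 1 - s - 1 / w) :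
    BE ((PD X D S ps).filter (fun p => w < p)) ≤ QQ (⌊Real.log X / D⌋₊) / QQ w / (1 - s - 1 / w) := by
  classical
  set A := (PD X D S ps).filter (fun p => w < p) with hA
  set R := (PI w (⌊Real.log X / D⌋₊)).filter (fun p => p ∈ S ∨ p = ps) with hR
  have hAR : PI w (⌊Real.log X / D⌋₊) = A ∪ R := by
    ext p
    rw [Finset.mem_union, hA, hR, Finset.mem_filter, Finset.mem_filter, mem_PD hD hX, mem_PI]
    constructor
    · rintro ⟨⟨h1, h2⟩, h3⟩
      by_cases h4 : p ∈ S ∨ p = ps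
      · exact Or.inr ⟨⟨⟨h1, h2⟩, h3⟩, h4⟩
      · push Not at h4
        exact Or.inl ⟨⟨h2, h3, h4.1, h4.2⟩, h1⟩
    · rintro (⟨⟨h2, h3, _, _⟩, h1⟩ | ⟨h, _⟩)
      · exact ⟨⟨h1, h2⟩, h3⟩
      · exact h
  have hdis : Disjoint A R := by
    rw [Finset.disjoint_left]
    intro p hp hp'
    rw [hA, Finset.mem_filter, mem_PD hD hX] at hp
    rw [hR, Finset.mem_filter] at hp'
    rcases hp'.2 with h | h
    · exact hp.1.2.2.1 h
    · exact hp.1.2.2.2 h
  have hprod : ∏ p ∈ PI w (⌊Real.log X / D⌋₊), (1 - 1 / (p : ℝ)) = BE A * ∏ p ∈ R, (1 - 1 / (p : ℝ)) := by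
    unfold BE
    rw [hAR, Finset.prod_union hdis]
  have hRs : 1 - s - 1 / w ≤ ∏ p ∈ R, (1 - 1 / (p : ℝ)) := by
    have h1 := weier R (fun p => 1 / (p : ℝ)) (fun i _ => by positivity) (fun i hi => by
      have := (mem_PI.1 (Finset.mem_filter.1 hi).1).2.one_lt.le
      have h2 : (1 : ℝ) ≤ i := by exact_mod_cast this
      rw [div_le_one (by linarith)]
      exact h2)
    refine le_trans ?_ h1
    have h2 : ∑ p ∈ R, (1 : ℝ) / p ≤ s + 1 / w := by
      have h3 : R ⊆ S ∪ ({ps} : Finset ℕ).filter (fun p => w < p) := by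
        intro p hp
        rw [hR, Finset.mem_filter, mem_PI] at hp
        rw [Finset.mem_union, Finset.mem_filter, Finset.mem_singleton]
        rcases hp.2 with h | h
        · exact Or.inl h
        · exact Or.inr ⟨h, hp.1.1.1⟩
      calc ∑ p ∈ R, (1 : ℝ) / p ≤ ∑ p ∈ S ∪ ({ps} : Finset ℕ).filter (fun p => w < p), (1 : ℝ) / p :=
            Finset.sum_le_sum_of_subset_of_nonneg h3 fun _ _ _ => by positivity
        _ ≤ ∑ p ∈ S, (1 : ℝ) / p + ∑ p ∈ ({ps} : Finset ℕ).filter (fun p => w < p), (1 : ℝ) / p := by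
            have := Finset.sum_union_inter (s₁ := S) (s₂ := ({ps} : Finset ℕ).filter (fun p => w < p)) (f := fun p : ℕ => (1 : ℝ) / p)
            have h4 : 0 ≤ ∑ p ∈ S ∩ ({ps} : Finset ℕ).filter (fun p => w < p), (1 : ℝ) / p :=
              Finset.sum_nonneg fun _ _ => by positivity
            linarith
        _ ≤ s + 1 / w := by
            apply add_le_add hs
            have hw' : (0 : ℝ) < w := by exact_mod_cast hw0
            by_cases h5 : w < ps
            · have h6 : ({ps} : Finset ℕ).filter (fun p => w < p) = {ps} := by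
                rw [Finset.filter_eq_self]
                intro x hx
                rw [Finset.mem_singleton.1 hx]; exact h5
              rw [h6, Finset.sum_singleton]
              have : (w : ℝ) ≤ ps := by exact_mod_cast h5.le
              gcongr
            · have h6 : ({ps} : Finset ℕ).filter (fun p => w < p) = ∅ := by
                rw [Finset.filter_eq_empty_iff]
                intro x hx
                rw [Finset.mem_singleton.1 hx]; exact h5
              rw [h6, Finset.sum_empty]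
              positivity
    linarith
  have hAp : ∀ p ∈ A, p.Prime := fun p hp => PD_prime (Finset.mem_filter.1 hp).1
  have hA0 : 0 < BE A := BE_pos hAp
  have hQ := QQ_split hw
  have hQw := QQ_pos w
  rw [hprod] at hQ
  rw [le_div_iff₀ hs1, le_div_iff₀ hQw]
  calc BE A * (1 - s - 1 / w) * QQ w = QQ w * (BE A * (1 - s - 1 / w)) := by ring
    _ ≤ QQ w * (BE A * ∏ p ∈ R, (1 - 1 / (p : ℝ))) := by gcongr
    _ = QQ (⌊Real.log X / D⌋₊) := hQ.symm


/-- the number of integers without prime factor in `(L^{2/5}, L/1000]` -/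
theorem NAs_ev (D : ℝ) (hD : 1000 ≤ D) (lam : ℝ) (hlam : 0 < lam) : ∀ᶠ L : ℝ in atTop,
    0.4283 * (Yf lam L : ℝ) ≤ (NAs ⌊L ^ (2 / 5 : ℝ)⌋₊ ⌊L / D⌋₊ (Yf lam L)).card := by
  set K : ℝ := Real.sqrt lam + 1 with hK
  have hK1 : 1 ≤ K := by
    have := Real.sqrt_nonneg lam
    linarith
  have hK0 : 0 < K := by linarith
  have hD0 : 0 < D := by linarith
  -- limits
  have t1 := R1_cell 1 1 (3 / 5) (2 / 5) one_pos one_pos (by norm_num) (by norm_num)
  have t2 := R1_cell 1 1 (4 / 5) (3 / 5) one_pos one_pos (by norm_num) (by norm_num)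
  have t3 := R1_cell (1 / D) 1 1 (4 / 5) (by positivity) one_pos one_pos (by norm_num)
  have s1 := R2_cell 1 1 (3 / 5) (2 / 5) one_pos one_pos (by norm_num) (by norm_num)
  have s2 := R2_cell 1 1 (4 / 5) (3 / 5) one_pos one_pos (by norm_num) (by norm_num)
  have s3 := R2_cell (1 / D) 1 1 (4 / 5) (by positivity) one_pos one_pos (by norm_num)
  have hF := (((t1.const_mul (Real.log (2 - 1 / 2) + (1 / 2) / (2 - 1 / 2))).sub (s1.const_mul (1 / (2 - 1 / 2)))).add
    ((t2.const_mul (Real.log (2 - 7 / 10) + (7 / 10) / (2 - 7 / 10))).sub (s2.const_mul (1 / (2 - 7 / 10))))).add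
    ((t3.const_mul (Real.log (2 - 9 / 10) + (9 / 10) / (2 - 9 / 10))).sub (s3.const_mul (1 / (2 - 9 / 10))))
  have hF2 := hF.eventually_lt_const (show _ < cst + 0.00001 by
    show cst < _
    linarith)
  have tY := R1_cell lam K 2 1 hlam hK0 (by norm_num) one_pos
  rw [div_one] at tY
  have tY2 := tY.eventually_const_lt (show Real.log 2 - 0.00001 < Real.log 2 by linarith)
  have tz := R1_cell (1 / D) 1 1 (2 / 5) (by positivity) one_pos one_pos (by norm_num)
  have hlog52 : Real.log (1 / (2 / 5)) < 1 := by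
    rw [show (1 : ℝ) / (2 / 5) = 5 / 2 by norm_num]
    rw [Real.log_lt_iff_lt_exp (by norm_num)]
    have := Real.exp_one_gt_d9
    linarith
  have tz2 := tz.eventually_lt_const hlog52
  have hin := inner_bd lam hlam K hK1 0.00001 (by norm_num)
  have hpi := PI_Y lam hlam 1 one_pos
  have hlogb := Real.tendsto_log_atTop.eventually_ge_atTop (200000 : ℝ)
  have h15 : ∀ᶠ L : ℝ in atTop, D ≤ L ^ (1 / 5 : ℝ) :=
    (tendsto_rpow_atTop (by norm_num)).eventually_ge_atTop _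
  have hbig : ∀ᶠ L : ℝ in atTop, (K + 1) / lam ≤ L := eventually_ge_atTop _
  filter_upwards [hF2, tY2, tz2, hin, hpi, hlogb, h15, hbig, eventually_gt_atTop (1 : ℝ)] with
    L e1 e2 e3 e4 e5 e6 e7 e8 e9
  have hL0 : 0 < L := by linarith
  simp only [one_mul, Real.rpow_one] at e1 e2 e3
  rw [show (1 : ℝ) / D * L = L / D by ring] at e1 e3
  have hYeq : ⌊lam * L ^ (2 : ℝ)⌋₊ = Yf lam L := by
    unfold Yf
    rw [show (2 : ℝ) = ((2 : ℕ) : ℝ) by norm_num, Real.rpow_natCast]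
  rw [hYeq] at e2
  set Y := Yf lam L with hY
  set T := ⌊K * L⌋₊ with hT
  set w := ⌊L ^ (2 / 5 : ℝ)⌋₊ with hw
  set c1 := ⌊L ^ (3 / 5 : ℝ)⌋₊ with hc1
  set c2 := ⌊L ^ (4 / 5 : ℝ)⌋₊ with hc2
  set z := ⌊L / D⌋₊ with hz
  have hwc1 : w ≤ c1 := Nat.floor_le_floor (Real.rpow_le_rpow_of_exponent_le e9.le (by norm_num))
  have hc12 : c1 ≤ c2 := Nat.floor_le_floor (Real.rpow_le_rpow_of_exponent_le e9.le (by norm_num))
  have hc2z : c2 ≤ z := by
    apply Nat.floor_le_floor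
    rw [le_div_iff₀ hD0]
    calc L ^ (4 / 5 : ℝ) * D ≤ L ^ (4 / 5 : ℝ) * L ^ (1 / 5 : ℝ) := by gcongr
      _ = L := by
          rw [← Real.rpow_add hL0]
          norm_num
  have hzL : (z : ℝ) ≤ L / D := Nat.floor_le (by positivity)
  have hzL' : (z : ℝ) ≤ L := by
    refine hzL.trans ?_
    rw [div_le_iff₀ hD0]
    nlinarith
  have hYle : (Y : ℝ) ≤ lam * L ^ 2 := Nat.floor_le (by positivity)
  have hYlt : lam * L ^ 2 < (Y : ℝ) + 1 := Nat.lt_floor_add_one _
  have hTle : (T : ℝ) ≤ K * L := Nat.floor_le (by positivity)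
  have hTlt : K * L < (T : ℝ) + 1 := Nat.lt_floor_add_one _
  have hYT : Y < (T + 1) ^ 2 := by
    have : (Y : ℝ) < ((T + 1) ^ 2 : ℕ) := by
      push_cast
      calc (Y : ℝ) ≤ lam * L ^ 2 := hYle
        _ = (Real.sqrt lam * L) ^ 2 := by rw [mul_pow, Real.sq_sqrt hlam.le]
        _ ≤ (K * L) ^ 2 := by
            gcongr
            linarith
        _ < ((T : ℝ) + 1) ^ 2 := by gcongr
    exact_mod_cast this
  have hzT : z ≤ T := by
    apply Nat.floor_le_floor
    have : L / D ≤ L := by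
      rw [div_le_iff₀ hD0]
      nlinarith
    nlinarith
  have hTY : T ≤ Y := by
    have : (T : ℝ) ≤ Y := by
      have h1 : (K + 1) * L ≤ lam * L ^ 2 := by
        rw [div_le_iff₀ hlam] at e8
        calc (K + 1) * L ≤ (L * lam) * L := by gcongr
          _ = lam * L ^ 2 := by ring
      have h2 : (K + 1) * L = K * L + L := by ring
      linarith
    exact_mod_cast this
  have hmain := NAs_lower w z Y T hYT hzT hTY
  refine le_trans ?_ hmain
  have hY0 : (0 : ℝ) ≤ Y := Nat.cast_nonneg _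
  -- the sum over `p`
  have hsum : ∑ p ∈ PI w z, (1 : ℝ) / p * ∑ q ∈ PI T (Y / p), (1 : ℝ) / q ≤ cst + 0.00002 := by
    have g1 : ∑ p ∈ PI w z, (1 : ℝ) / p * ∑ q ∈ PI T (Y / p), (1 : ℝ) / q ≤
        ∑ p ∈ PI w z, ((1 : ℝ) / p * Real.log (2 - Real.log p / Real.log L) + 0.00001 * ((1 : ℝ) / p)) := by
      apply Finset.sum_le_sum
      intro p hp
      have g2 := mem_PI.1 hp
      have g3 : (p : ℝ) ≤ z := by exact_mod_cast g2.1.2
      have g4 := e4 p g2.2 (by linarith)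
      calc (1 : ℝ) / p * ∑ q ∈ PI T (Y / p), (1 : ℝ) / q ≤
          1 / p * (Real.log (2 - Real.log p / Real.log L) + 0.00001) := by gcongr
        _ = _ := by ring
    rw [Finset.sum_add_distrib, ← Finset.mul_sum, sum_PI_inv (hwc1.trans (hc12.trans hc2z))] at g1
    have g5 := cell_bd w c1 hwc1 L (1 / 2) e9 (by
      have : (c1 : ℝ) ≤ z := by exact_mod_cast hc12.trans hc2z
      linarith) (by norm_num)
    have g6 := cell_bd c1 c2 hc12 L (7 / 10) e9 (by
      have : (c2 : ℝ) ≤ z := by exact_mod_cast hc2z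
      linarith) (by norm_num)
    have g7 := cell_bd c2 z hc2z L (9 / 10) e9 hzL' (by norm_num)
    have g8 : ∑ p ∈ PI w z, (1 : ℝ) / p * Real.log (2 - Real.log p / Real.log L) =
        ∑ p ∈ PI w c1, (1 : ℝ) / p * Real.log (2 - Real.log p / Real.log L) +
        ∑ p ∈ PI c1 c2, (1 : ℝ) / p * Real.log (2 - Real.log p / Real.log L) +
        ∑ p ∈ PI c2 z, (1 : ℝ) / p * Real.log (2 - Real.log p / Real.log L) := by
      rw [sum_PI (fun p : ℕ => (1 : ℝ) / p * Real.log (2 - Real.log p / Real.log L)) (hwc1.trans (hc12.trans hc2z)),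
        sum_PI (fun p : ℕ => (1 : ℝ) / p * Real.log (2 - Real.log p / Real.log L)) hwc1,
        sum_PI (fun p : ℕ => (1 : ℝ) / p * Real.log (2 - Real.log p / Real.log L)) hc12,
        sum_PI (fun p : ℕ => (1 : ℝ) / p * Real.log (2 - Real.log p / Real.log L)) hc2z]
      ring
    rw [g8] at g1
    linarith
  have hcard : ((PI T Y).card : ℝ) ≤ 0.00001 * Y := by
    refine (e5 T).trans ?_
    have h1 : (Y : ℝ) / Real.log L ≤ Y / 200000 := by gcongr
    calc (1 / 2 + 1) * ((Y : ℝ) / Real.log L) ≤ (1 / 2 + 1) * (Y / 200000) := by gcongr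
      _ ≤ _ := by linarith
  have hlog2 := Real.log_two_gt_d9
  have hc := cst_le
  have h1 : (0.69313 : ℝ) * Y ≤ Y * (R1 Y - R1 T) := by
    rw [mul_comm]
    apply mul_le_mul_of_nonneg_left _ hY0
    linarith
  have h2 : Y * ∑ p ∈ PI w z, (1 : ℝ) / p * ∑ q ∈ PI T (Y / p), (1 : ℝ) / q ≤ Y * 0.26482 := by
    apply mul_le_mul_of_nonneg_left _ hY0
    linarith
  linarith


theorem side_upper (D : ℝ) (hD : 1000 ≤ D) (lam : ℝ) (hlam : 0 < lam) : ∀ᶠ X : ℝ in atTop,
    ∀ (ps : ℕ) (S : Finset ℕ), GoodS X S → ∃ r : ℕ,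
      1.0705 * (Yf lam (Real.log X) : ℝ) ≤
        ((VV (WD X D S ps) r (Yf lam (Real.log X)) : ℝ) - 80) / BE (PD X D S ps) := by
  set E := Real.exp Real.eulerMascheroniConstant with hE
  have hE0 : 0 < E := Real.exp_pos _
  have hD0 : 0 < D := by linarith
  have t1 := QQ_cell (1 / D) 1 1 (2 / 5) (by positivity) one_pos one_pos (by norm_num)
  have t2 : Tendsto (fun L : ℝ => 1 - 6 / (Real.log L) ^ 2 - 1 / (⌊L ^ (2 / 5 : ℝ)⌋₊ : ℝ)) atTop (𝓝 1) := by
    have a1 : Tendsto (fun L : ℝ => 6 / (Real.log L) ^ 2) atTop (𝓝 0) := by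
      have : Tendsto (fun L : ℝ => (Real.log L) ^ 2) atTop atTop :=
        (tendsto_pow_atTop (by norm_num)).comp Real.tendsto_log_atTop
      exact this.const_div_atTop 6
    have a2 : Tendsto (fun L : ℝ => 1 / (⌊L ^ (2 / 5 : ℝ)⌋₊ : ℝ)) atTop (𝓝 0) := by
      have : Tendsto (fun L : ℝ => (⌊L ^ (2 / 5 : ℝ)⌋₊ : ℝ)) atTop atTop :=
        tendsto_natCast_atTop_atTop.comp (tendsto_nat_floor_atTop.comp (tendsto_rpow_atTop (by norm_num)))
      exact this.const_div_atTop 1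
    have a3 := (tendsto_const_nhds (x := (1 : ℝ)) (f := atTop (α := ℝ))).sub a1 |>.sub a2
    simpa using a3
  have t3 := t1.div t2 one_ne_zero
  rw [div_one] at t3
  have t4 := t3.eventually_lt_const (show (2 / 5 : ℝ) / 1 < 0.40001 by norm_num)
  have t5 := t2.eventually_const_lt (show (1 / 2 : ℝ) < 1 by norm_num)
  have e1 := NAs_ev D hD lam hlam
  have e2 := QQ_ev D hD 1 one_pos
  have e3 := loglin lam hlam (80 * (E + 1)) 0.0001 (by positivity) (by norm_num)
  have e4 : ∀ᶠ L : ℝ in atTop, 1 ≤ ⌊L ^ (2 / 5 : ℝ)⌋₊ :=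
    (tendsto_nat_floor_atTop.comp (tendsto_rpow_atTop (show (0 : ℝ) < 2 / 5 by norm_num))).eventually_ge_atTop 1
  have e5 : ∀ᶠ L : ℝ in atTop, D ≤ L ^ (3 / 5 : ℝ) :=
    (tendsto_rpow_atTop (by norm_num)).eventually_ge_atTop _
  have ev := ((((((t4.and t5).and e1).and e2).and e3).and e4).and e5).and (eventually_gt_atTop (1 : ℝ))
  filter_upwards [Real.tendsto_log_atTop.eventually ev, eventually_ge_atTop (1 : ℝ)] with X hX hX1
  obtain ⟨⟨⟨⟨⟨⟨⟨h1, h2⟩, h3⟩, h4⟩, h5⟩, h6⟩, h7⟩, h8⟩ := hX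
  intro ps S hS
  set L := Real.log X with hL
  have hL0 : 0 < L := by linarith
  have hlog := Real.log_pos h8
  have hS2 := hS.2
  rw [← hL] at hS2
  simp only [Pi.div_apply, one_mul, Real.rpow_one] at h1
  rw [show (1 : ℝ) / D * L = L / D by ring] at h1
  set Y := Yf lam L with hY
  set w := ⌊L ^ (2 / 5 : ℝ)⌋₊ with hw
  have hwz : w ≤ ⌊L / D⌋₊ := by
    apply Nat.floor_le_floor
    rw [le_div_iff₀ hD0]
    calc L ^ (2 / 5 : ℝ) * D ≤ L ^ (2 / 5 : ℝ) * L ^ (3 / 5 : ℝ) := by gcongr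
      _ = L := by
          rw [← Real.rpow_add hL0]
          norm_num
  have hBA := BE_A_le D hD X hX1 S ps w hwz h6 _ hS2 (by linarith)
  set A := (PD X D S ps).filter (fun p => w < p) with hA
  set B := (PD X D S ps).filter (fun p => ¬ w < p) with hB
  have hPW : A ∪ B = PD X D S ps := Finset.filter_union_filter_not_eq _ _
  have hPWp : ∀ p ∈ PD X D S ps, p.Prime := fun p hp => PD_prime hp
  have hAp : ∀ p ∈ A, p.Prime := fun p hp => hPWp p (Finset.mem_filter.1 hp).1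
  have hBp : ∀ p ∈ B, p.Prime := fun p hp => hPWp p (Finset.mem_filter.1 hp).1
  have hdis : Disjoint A B := Finset.disjoint_filter_filter_not _ _ _
  obtain ⟨r, hr⟩ := choose_class A B hAp hBp hdis Y
  rw [hPW] at hr
  refine ⟨r, ?_⟩
  have hWW : (∏ p ∈ PD X D S ps, p) = WD X D S ps := rfl
  rw [hWW] at hr
  have hBE : BE (PD X D S ps) = BE A * BE B := by
    unfold BE
    rw [← hPW, Finset.prod_union hdis]
  have hA0 : 0 < BE A := BE_pos hAp
  have hB0 : 0 < BE B := BE_pos hBp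
  have hBAlt : BE A < 0.40001 := lt_of_le_of_lt hBA h1
  have hcnt : ((NAs w ⌊L / D⌋₊ Y).card : ℝ) ≤ (((Icc 1 Y).filter (fun h => ∀ p ∈ A, ¬ p ∣ h)).card : ℝ) := by
    have : NAs w ⌊L / D⌋₊ Y ⊆ (Icc 1 Y).filter (fun h => ∀ p ∈ A, ¬ p ∣ h) := by
      intro h hh
      have hh' := Finset.mem_filter.1 hh
      refine Finset.mem_filter.2 ⟨hh'.1, fun p hp => hh'.2 p ?_⟩
      have h9 := Finset.mem_filter.1 hp
      have h10 := (mem_PD hD hX1).1 h9.1
      exact mem_PI.2 ⟨⟨h9.2, h10.1⟩, h10.2.1⟩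
    exact_mod_cast Finset.card_le_card this
  have hQ : QQ ⌊L / D⌋₊ ≤ BE (PD X D S ps) := QQ_le_BE D hD X hX1 S ps
  have hinv : (BE (PD X D S ps))⁻¹ ≤ (E + 1) * Real.log L := (inv_anti₀ (QQ_pos _) hQ).trans h4
  have hY0 : (0 : ℝ) ≤ Y := Nat.cast_nonneg _
  have g1 : 1.0706 * (Y : ℝ) ≤ (BE B * (((Icc 1 Y).filter (fun h => ∀ p ∈ A, ¬ p ∣ h)).card : ℝ)) / BE (PD X D S ps) := by
    rw [hBE, mul_comm (BE A), mul_div_mul_left _ _ hB0.ne', le_div_iff₀ hA0]
    calc 1.0706 * (Y : ℝ) * BE A ≤ 1.0706 * (Y : ℝ) * 0.40001 := by gcongr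
      _ ≤ 0.4283 * Y := by nlinarith
      _ ≤ _ := h3.trans hcnt
  have hBE0 : 0 < BE (PD X D S ps) := BE_pos hPWp
  calc 1.0705 * (Y : ℝ) = 1.0706 * Y - 0.0001 * Y := by ring
    _ ≤ 1.0706 * Y - 80 * (E + 1) * Real.log L := by linarith
    _ ≤ (BE B * (((Icc 1 Y).filter (fun h => ∀ p ∈ A, ¬ p ∣ h)).card : ℝ)) / BE (PD X D S ps) -
        80 * (BE (PD X D S ps))⁻¹ := by
        have : 80 * (BE (PD X D S ps))⁻¹ ≤ 80 * ((E + 1) * Real.log L) := by gcongr
        linarith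
    _ = (BE B * (((Icc 1 Y).filter (fun h => ∀ p ∈ A, ¬ p ∣ h)).card : ℝ) - 80) / BE (PD X D S ps) := by
        rw [sub_div, div_eq_mul_inv 80]
    _ ≤ _ := by gcongr


end Pool.Agent.H510R2.Maier.G
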