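import Mathlib
import Pool.Agent.H510R2.Maier.MB8
import Pool.Agent.H510R2.Maier.MA12

/-! Frequencies for the primes. -/

open Finset Filter Topology
open Pool.Agent.H378R2

namespace Pool.Agent.H510R2.Maier.G

theorem freq_arith (η : ℝ) (hη : 0 < η) (c0 : ℝ) (hc0 : 0 < c0) (D : ℝ) (hD : 3 / η ≤ D) : ∀ᶠ X : ℝ in atTop,
    (3 * X) ^ (1 - η) ≤ c0 * (X / (Real.exp (3 / 2 * (Real.log X / D)) * (Real.log X) ^ 4)) := by
  have hD0 : 0 < D := lt_of_lt_of_le (by positivity) hD
  have e1 := Real.isLittleO_log_id_atTop.bound (show (0 : ℝ) < η / 16 by positivity)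
  have e1' := Real.tendsto_log_atTop.eventually e1
  have e2 := Real.tendsto_log_atTop.eventually_ge_atTop (4 / η * |(1 - η) * Real.log 3 - Real.log c0|)
  filter_upwards [e1', e2, Real.tendsto_log_atTop.eventually_gt_atTop (1 : ℝ), eventually_gt_atTop (1 : ℝ)] with X h1 h2 h3 h4
  have hX0 : 0 < X := by linarith
  set L := Real.log X with hL
  have hlogL : 0 < Real.log L := Real.log_pos h3
  rw [Real.norm_of_nonneg hlogL.le, id, Real.norm_of_nonneg (by linarith)] at h1
  have h5 : c0 * (X / (Real.exp (3 / 2 * (L / D)) * L ^ 4)) =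
      Real.exp (Real.log c0 + L - 3 / 2 * (L / D) - 4 * Real.log L) := by
    rw [Real.exp_sub, Real.exp_sub, Real.exp_add, Real.exp_log hc0, hL, Real.exp_log hX0, ← hL]
    have : Real.exp (4 * Real.log L) = L ^ 4 := by
      rw [show (4 : ℝ) * Real.log L = ((4 : ℕ) : ℝ) * Real.log L by norm_num, Real.exp_nat_mul, Real.exp_log (by linarith)]
    rw [this]
    field_simp
  rw [h5, Real.rpow_def_of_pos (by positivity), Real.log_mul (by norm_num) hX0.ne', ← hL]
  apply Real.exp_le_exp.2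
  have h6 : 3 / 2 * (L / D) ≤ η / 2 * L := by
    have h7 : 3 ≤ D * η := by
      rw [div_le_iff₀ hη] at hD
      exact hD
    rw [mul_div_assoc', div_le_iff₀ hD0]
    nlinarith
  have h7 : (1 - η) * Real.log 3 - Real.log c0 ≤ η / 4 * L := by
    refine (le_abs_self _).trans ?_
    have h8 : |(1 - η) * Real.log 3 - Real.log c0| = η / 4 * (4 / η * |(1 - η) * Real.log 3 - Real.log c0|) := by
      field_simp
    rw [h8]
    gcongr
  nlinarith

/-- windows with few elements of `P` -/
noncomputable def NF (P : ℕ → Prop) (κ c : ℝ) (x : ℕ) : ℕ := by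
  classical
  exact ((Icc 1 x).filter (fun n : ℕ => (cntP P n ⌊c * (Real.log n) ^ 2⌋₊ : ℝ) ≤ κ * Real.log n)).card

/-- windows with many elements of `P` -/
noncomputable def NM (P : ℕ → Prop) (κ c : ℝ) (x : ℕ) : ℕ := by
  classical
  exact ((Icc 1 x).filter (fun n : ℕ => κ * Real.log n ≤ (cntP P n ⌊c * (Real.log n) ^ 2⌋₊ : ℝ))).card

theorem cnt_mono (n : ℕ) {Y Y' : ℕ} (h : Y ≤ Y') : cnt n Y ≤ cnt n Y' := by
  unfold cnt
  apply Finset.card_le_card
  apply Finset.filter_subset_filter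
  exact Finset.Icc_subset_Icc_right h

theorem cnt_le (n Y : ℕ) : cnt n Y ≤ Y := by
  unfold cnt
  refine (Finset.card_filter_le _ _).trans ?_
  simp

theorem log_bounds {X : ℝ} (hX : 0 < X) {n : ℕ} (h1 : X < n) (h2 : (n : ℝ) < 3 * X) :
    Real.log X ≤ Real.log n ∧ Real.log n ≤ Real.log X + 2 := by
  refine ⟨Real.log_le_log hX h1.le, ?_⟩
  have a1 : Real.log n ≤ Real.log (4 * X) := Real.log_le_log (by linarith) (by linarith)
  rw [Real.log_mul (by norm_num) hX.ne'] at a1
  have a2 : Real.log 4 ≤ 2 := by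
    rw [show (4 : ℝ) = 2 ^ 2 by norm_num, Real.log_pow]
    have := Real.log_two_lt_d9
    push_cast; linarith
  linarith

set_option maxHeartbeats 4000000 in
theorem few_freq (κ c η : ℝ) (hκ : 0 < κ) (hc : c < 2 * Real.exp (-Real.eulerMascheroniConstant) * κ) (hη : 0 < η) :
    ∀ᶠ x : ℕ in atTop, (x : ℝ) ^ (1 - η) ≤ NF Nat.Prime κ c x := by
  classical
  set E := Real.exp Real.eulerMascheroniConstant with hE
  have hE0 : 0 < E := Real.exp_pos _
  have hinv : 2 * Real.exp (-Real.eulerMascheroniConstant) * κ = 2 / E * κ := by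
    rw [Real.exp_neg]; ring
  rw [hinv] at hc
  obtain ⟨lam, h1, h2⟩ := exists_between (max_lt hc (show 0 < 2 / E * κ by positivity))
  have hlc : c < lam := (le_max_left _ _).trans_lt h1
  have hlam : 0 < lam := (le_max_right _ _).trans_lt h1
  have h3 : E / 2 * lam < κ := by
    calc E / 2 * lam < E / 2 * (2 / E * κ) := by gcongr
      _ = κ := by field_simp
  obtain ⟨κ', h4, h5⟩ := exists_between h3
  have hκ'0 : 0 < κ' := lt_trans (by positivity) h4
  set δ := (κ' - E / 2 * lam) / lam with hδ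
  have hδ0 : 0 < δ := by
    rw [hδ]; apply div_pos _ hlam; linarith
  have hδl : (E / 2 + δ) * lam = κ' := by
    rw [hδ]; field_simp; ring
  set ε : ℝ := min 1 ((κ - κ') / κ') with hε
  have hε0 : 0 < ε := lt_min one_pos (div_pos (by linarith) hκ'0)
  have hε1 : ε ≤ 1 := min_le_left _ _
  have hεκ : (1 + ε) * κ' ≤ κ := by
    have : ε ≤ (κ - κ') / κ' := min_le_right _ _
    rw [le_div_iff₀ hκ'0] at this
    linarith
  set D : ℝ := max 1000 (3 / η) with hDdef
  have hD : 1000 ≤ D := le_max_left _ _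
  have hD2 : 3 / η ≤ D := le_max_right _ _
  have hD0 : 0 < D := by linarith
  obtain ⟨Z, hZ⟩ := side_lower D hD lam hlam δ hδ0
  obtain ⟨X0, hX0⟩ := rows_sums (ε / 2) (by positivity) (by linarith) Z D hD
  have e3 : ∀ᶠ X : ℝ in atTop, c * (Real.log X + 2) ^ 2 ≤ lam * (Real.log X) ^ 2 := by
    rcases le_or_gt c 0 with hc0 | hc0
    · filter_upwards with X
      have a1 : c * (Real.log X + 2) ^ 2 ≤ 0 := mul_nonpos_of_nonpos_of_nonneg hc0 (sq_nonneg _)
      have a2 : 0 ≤ lam * (Real.log X) ^ 2 := by positivity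
      linarith
    · filter_upwards [Real.tendsto_log_atTop.eventually_ge_atTop (8 * c / (lam - c) + 1)] with X hX
      have h7 : 8 * c ≤ (lam - c) * Real.log X := by
        have h8 : 8 * c / (lam - c) ≤ Real.log X := by linarith
        rw [div_le_iff₀ (by linarith)] at h8
        linarith
      have h9 : 1 ≤ Real.log X := by
        have : 0 ≤ 8 * c / (lam - c) := div_nonneg (by linarith) (by linarith)
        linarith
      nlinarith
  have e4 := freq_arith η hη (ε / 200) (by positivity) D hD2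
  have key : ∀ᶠ X : ℝ in atTop, (3 * X) ^ (1 - η) ≤
      (((Icc 1 ⌊3 * X⌋₊).filter (fun n : ℕ => (cntP Nat.Prime n ⌊c * (Real.log n) ^ 2⌋₊ : ℝ) ≤ κ * Real.log n)).card : ℝ) := by
    filter_upwards [hZ, eventually_ge_atTop X0, Yf_cube lam, eventually_ge_atTop (40 : ℝ), e3, e4,
      Real.tendsto_log_atTop.eventually_ge_atTop (1 : ℝ)] with X g1 g2 g3 g4 g5 g6 g7
    obtain ⟨ps, S, hps, hS, hr⟩ := hX0 X g2
    obtain ⟨-, r2, r3, -⟩ := hr 0 (Yf lam (Real.log X)) g3
    have g8 := g1 ps S hps hS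
    have hXpos : 0 < X := by linarith
    set L := Real.log X with hL
    set Y := Yf lam L with hY
    set W := WD X D S ps with hW
    set B := BE (PD X D S ps) with hB
    have hPp : ∀ p ∈ PD X D S ps, p.Prime := fun p hp => PD_prime hp
    have hB0 : 0 < B := BE_pos hPp
    have hW0 : (0 : ℝ) < W := by exact_mod_cast WD_pos X D S ps
    have hφ : (W.totient : ℝ) = W * B := totient_prod _ hPp
    have hM1 := MPhi_ge X g4
    set M := MPhi X with hM
    have hM0 : 0 < M := by linarith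
    set V : ℝ := (VV W 0 Y : ℝ) with hV
    have hV0 : 0 ≤ V := Nat.cast_nonneg _
    set N1 := ∑ n ∈ Icc 1 ⌊3 * X⌋₊, nu X W 0 n with hN1
    set A := (V + 80) / B with hA
    have hA0 : 0 < A := by positivity
    have hMW : 0 < M / W := by positivity
    have hT : ∑ n ∈ Icc 1 ⌊3 * X⌋₊, nu X W 0 n * thw n Y ≤ (1 + ε / 2) * A * N1 := by
      refine r2.trans ?_
      have hMφ : 0 < M / W.totient := by rw [hφ]; positivity
      calc (1 + ε / 2 / 4) * (V * (M / W.totient)) + 40 * (M / W.totient)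
          ≤ (1 + ε / 2 / 4) * ((V + 80) * (M / W.totient)) := by nlinarith
        _ = (1 + ε / 2 / 4) * A * (M / W) := by
            rw [hA, hφ]; field_simp
        _ ≤ ((1 + ε / 2) * (1 - ε / 2 / 4)) * A * (M / W) := by
            have q1 : 1 + ε / 2 / 4 ≤ (1 + ε / 2) * (1 - ε / 2 / 4) := by nlinarith
            exact mul_le_mul_of_nonneg_right (mul_le_mul_of_nonneg_right q1 hA0.le) hMW.le
        _ = (1 + ε / 2) * A * ((1 - ε / 2 / 4) * (M / W)) := by ring
        _ ≤ (1 + ε / 2) * A * N1 := by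
            apply mul_le_mul_of_nonneg_left r3
            positivity
    have hcnt := count_few X hXpos W 0 (fun n => thw n Y) (fun n => thw_nonneg n Y) A ε N1 hA0 hε0 hε1 rfl hT
    have hsub : rowset X (fun n => thw n Y ≤ (1 + ε) * A) ⊆
        (Icc 1 ⌊3 * X⌋₊).filter (fun n : ℕ => (cntP Nat.Prime n ⌊c * (Real.log n) ^ 2⌋₊ : ℝ) ≤ κ * Real.log n) := by
      intro n hn
      obtain ⟨m1, m2, m3, m4⟩ := mem_rowset.1 hn
      refine Finset.mem_filter.2 ⟨Finset.mem_Icc.2 m1, ?_⟩
      obtain ⟨l1, l2⟩ := log_bounds hXpos m2 m3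
      rw [← hL] at l1 l2
      have hYle : (Y : ℝ) ≤ lam * L ^ 2 := Nat.floor_le (by positivity)
      have s1 : L * cnt n Y ≤ (1 + ε) * A := (thw_ge n Y X hXpos m2).trans m4
      have s2 : (1 + ε) * A ≤ (1 + ε) * ((E / 2 + δ) * (lam * L ^ 2)) := by
        have : A ≤ (E / 2 + δ) * (lam * L ^ 2) := g8.trans (by gcongr)
        gcongr
      have s3 : (1 + ε) * ((E / 2 + δ) * (lam * L ^ 2)) = L * (((1 + ε) * κ') * L) := by
        rw [← hδl]; ring
      have s4 : (cnt n Y : ℝ) ≤ ((1 + ε) * κ') * L := by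
        rw [s3] at s2
        exact le_of_mul_le_mul_left (s1.trans s2) (by linarith)
      have s5 : (cnt n Y : ℝ) ≤ κ * Real.log n := by
        calc (cnt n Y : ℝ) ≤ ((1 + ε) * κ') * L := s4
          _ ≤ κ * L := by gcongr
          _ ≤ κ * Real.log n := by gcongr
      have s6 : ⌊c * (Real.log n) ^ 2⌋₊ ≤ Y := by
        apply Nat.floor_le_floor
        rcases le_or_gt c 0 with hc0 | hc0
        · have a1 : c * (Real.log n) ^ 2 ≤ 0 := mul_nonpos_of_nonpos_of_nonneg hc0 (sq_nonneg _)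
          have a2 : 0 ≤ lam * L ^ 2 := by positivity
          linarith
        · refine le_trans ?_ g5
          have : 0 ≤ Real.log n := by linarith
          gcongr
      rw [cntP_prime]
      have s7 : (cnt n ⌊c * (Real.log n) ^ 2⌋₊ : ℝ) ≤ cnt n Y := by exact_mod_cast cnt_mono n s6
      exact s7.trans s5
    have hcard : ((rowset X (fun n => thw n Y ≤ (1 + ε) * A)).card : ℝ) ≤
        (((Icc 1 ⌊3 * X⌋₊).filter (fun n : ℕ => (cntP Nat.Prime n ⌊c * (Real.log n) ^ 2⌋₊ : ℝ) ≤ κ * Real.log n)).card : ℝ) := by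
      exact_mod_cast Finset.card_le_card hsub
    refine le_trans ?_ (hcnt.trans hcard)
    refine g6.trans ?_
    have hWle := WD_le X D hD0 (by linarith) S ps
    rw [← hW, ← hL] at hWle
    have q1 : X / 40 / W ≤ N1 := by
      refine le_trans ?_ r3
      have : 1 / 2 ≤ 1 - ε / 2 / 4 := by linarith
      calc X / 40 / W = 1 / 2 * (X / 20 / W) := by ring
        _ ≤ (1 - ε / 2 / 4) * (M / W) := by gcongr
    calc ε / 200 * (X / (Real.exp (3 / 2 * (L / D)) * L ^ 4)) ≤ ε / 200 * (X / (Real.exp (3 / 2 * (L / D)) * 1)) := by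
          gcongr
          exact one_le_pow₀ g7
      _ ≤ ε / 200 * (X / (W * 1)) := by gcongr
      _ = ε / 5 * (X / 40 / W) := by rw [mul_one]; ring
      _ ≤ ε / 4 * (X / 40 / W) := by
          have : 0 < X / 40 / W := by positivity
          nlinarith
      _ ≤ ε / 4 * N1 := by gcongr
  have htend : Tendsto (fun x : ℕ => (x : ℝ) / 3) atTop atTop :=
    tendsto_natCast_atTop_atTop.atTop_div_const (by norm_num)
  filter_upwards [htend.eventually key] with x hx
  have h6 : 3 * ((x : ℝ) / 3) = x := by ring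
  rw [h6, Nat.floor_natCast] at hx
  unfold NF
  convert hx

end Pool.Agent.H510R2.Maier.G
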