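import Mathlib
import Pool.Agent.H510R2.Maier.MB9

/-! Frequencies for the primes, windows with many primes. -/

open Finset Filter Topology
open Pool.Agent.H378R2

namespace Pool.Agent.H510R2.Maier.G

set_option maxHeartbeats 4000000 in
theorem many_freq (κ c η : ℝ) (hκ : 0 < κ) (hc : κ / 1.07 < c) (hη : 0 < η) :
    ∀ᶠ x : ℕ in atTop, (x : ℝ) ^ (1 - η) ≤ NM Nat.Prime κ c x := by
  classical
  have hc0 : 0 < c := lt_trans (by positivity) hc
  rw [div_lt_iff₀ (by norm_num)] at hc
  set D : ℝ := max 1000 (3 / η) with hDdef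
  have hD : 1000 ≤ D := le_max_left _ _
  have hD2 : 3 / η ≤ D := le_max_right _ _
  have hD0 : 0 < D := by linarith
  have hZ := side_upper D hD c hc0
  obtain ⟨X0, hX0⟩ := rows_sums (0.0001 / 2) (by norm_num) (by norm_num) 1 D hD
  have e2 : ∀ᶠ X : ℝ in atTop, κ * (Real.log X + 2) * (Real.log X + 2) ≤
      (1 - 0.0001) * (1.0705 * (c * (Real.log X) ^ 2 - 1)) := by
    have hgap : 0 < 1.07 * c - κ := by linarith
    filter_upwards [Real.tendsto_log_atTop.eventually_ge_atTop ((8 * κ + 2) / (1.07 * c - κ) + 1)] with X hX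
    have h8 : (8 * κ + 2) / (1.07 * c - κ) ≤ Real.log X - 1 := by linarith
    rw [div_le_iff₀ hgap] at h8
    have h9 : 1 ≤ Real.log X := by
      have : 0 ≤ (8 * κ + 2) / (1.07 * c - κ) := by positivity
      linarith
    have h10 : (8 * κ + 2) * Real.log X ≤ ((1.07 * c - κ) * Real.log X) * Real.log X := by
      apply mul_le_mul_of_nonneg_right _ (by linarith)
      nlinarith
    nlinarith
  have e5 : ∀ᶠ X : ℝ in atTop, (1 : ℝ) ≤ Yf c (Real.log X) := by
    filter_upwards [Real.tendsto_log_atTop.eventually_ge_atTop (1 / c + 1)] with X hX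
    have h1 : 1 ≤ Real.log X := by
      have : 0 < 1 / c := by positivity
      linarith
    have h2 : 1 / c ≤ Real.log X := by linarith
    rw [div_le_iff₀ hc0] at h2
    have : 1 ≤ ⌊c * (Real.log X) ^ 2⌋₊ := by
      apply Nat.le_floor
      push_cast
      nlinarith
    unfold Yf
    exact_mod_cast this
  have e6 : ∀ᶠ X : ℝ in atTop, (Real.log X) ^ 3 ≤ X := by
    have h1 := (Real.isLittleO_pow_log_id_atTop (n := 3)).bound (show (0 : ℝ) < 1 by norm_num)
    filter_upwards [h1, eventually_ge_atTop (1 : ℝ)] with X h2 h3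
    rw [Real.norm_of_nonneg (pow_nonneg (Real.log_nonneg h3) 3), id, Real.norm_of_nonneg (by linarith)] at h2
    linarith
  have e4 := freq_arith η hη (0.0001 / 800) (by norm_num) D hD2
  have key : ∀ᶠ X : ℝ in atTop, (3 * X) ^ (1 - η) ≤
      (((Icc 1 ⌊3 * X⌋₊).filter (fun n : ℕ => κ * Real.log n ≤ (cntP Nat.Prime n ⌊c * (Real.log n) ^ 2⌋₊ : ℝ))).card : ℝ) := by
    filter_upwards [hZ, eventually_ge_atTop X0, Yf_cube c, eventually_ge_atTop (40 : ℝ), e2, e4,
      Real.tendsto_log_atTop.eventually_ge_atTop (2 : ℝ), e5, e6] with X g1 g2 g3 g4 g5 g6 g7 g9 g10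
    obtain ⟨ps, S, hps, hS, hr⟩ := hX0 X g2
    obtain ⟨r, g8⟩ := g1 ps S hS
    obtain ⟨r2, -, r3, r4⟩ := hr r (Yf c (Real.log X)) g3
    have hXpos : 0 < X := by linarith
    set L := Real.log X with hL
    set Y := Yf c L with hY
    set W := WD X D S ps with hW
    set B := BE (PD X D S ps) with hB
    have hPp : ∀ p ∈ PD X D S ps, p.Prime := fun p hp => PD_prime hp
    have hB0 : 0 < B := BE_pos hPp
    have hW0 : (0 : ℝ) < W := by exact_mod_cast WD_pos X D S ps
    have hφ : (W.totient : ℝ) = W * B := totient_prod _ hPp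
    have hM1 := MPhi_ge X g4
    set M := MPhi X with hM
    have hM0 : 0 < M := by linarith
    set V : ℝ := (VV W r Y : ℝ) with hV
    set N1 := ∑ n ∈ Icc 1 ⌊3 * X⌋₊, nu X W r n with hN1
    set A := (V - 80) / B with hA
    have hY0 : (0 : ℝ) ≤ Y := Nat.cast_nonneg _
    have hA1 : 1 ≤ A := by linarith
    have hMW : 0 < M / W := by positivity
    have hMφ : 0 < M / W.totient := by rw [hφ]; positivity
    have hT : (1 - 0.0001 / 2) * A * N1 ≤ ∑ n ∈ Icc 1 ⌊3 * X⌋₊, nu X W r n * thw n Y := by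
      refine le_trans ?_ r2
      calc (1 - 0.0001 / 2) * A * N1 ≤ (1 - 0.0001 / 2) * A * ((1 + 0.0001 / 2 / 4) * (M / W)) := by
            apply mul_le_mul_of_nonneg_left r4
            apply mul_nonneg <;> linarith
        _ = ((1 - 0.0001 / 2) * (1 + 0.0001 / 2 / 4)) * (A * (M / W)) := by ring
        _ ≤ (1 - 0.0001 / 2 / 4) * (A * (M / W)) := by
            apply mul_le_mul_of_nonneg_right _ (by positivity)
            norm_num
        _ = (1 - 0.0001 / 2 / 4) * ((V - 80) * (M / W.totient)) := by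
            rw [hA, hφ]; field_simp
        _ ≤ _ := by nlinarith
    have hYX : (Y : ℝ) ≤ X := g3.trans g10
    have hgK : ∀ n : ℕ, X < n → (n : ℝ) < 3 * X → thw n Y ≤ (L + 2) * cnt n Y := by
      intro n hn1 hn2
      have hn0 : 0 < n := by
        have : (0 : ℝ) < n := by linarith
        exact_mod_cast this
      have h7 := thw_le n Y (4 * X) (by linarith) hn0
      refine h7.trans ?_
      have h8 : Real.log (4 * X) ≤ L + 2 := by
        rw [Real.log_mul (by norm_num) hXpos.ne']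
        have a2 : Real.log 4 ≤ 2 := by
          rw [show (4 : ℝ) = 2 ^ 2 by norm_num, Real.log_pow]
          have := Real.log_two_lt_d9
          push_cast; linarith
        linarith
      gcongr
    have hgK2 : ∀ n : ℕ, X < n → (n : ℝ) < 3 * X → thw n Y ≤ 2 * L ^ 4 := by
      intro n hn1 hn2
      refine (hgK n hn1 hn2).trans ?_
      have h7 : (cnt n Y : ℝ) ≤ L ^ 3 := by
        have : (cnt n Y : ℝ) ≤ Y := by exact_mod_cast cnt_le n Y
        exact this.trans g3
      calc (L + 2) * (cnt n Y : ℝ) ≤ (2 * L) * L ^ 3 := by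
            apply mul_le_mul (by linarith) h7 (Nat.cast_nonneg _) (by linarith)
        _ = 2 * L ^ 4 := by ring
    have hcnt := count_many X hXpos W r (fun n => thw n Y) A 0.0001 N1 (2 * L ^ 4) hA1 (by norm_num) (by norm_num)
      hgK2 rfl hT
    have hsub : rowset X (fun n => (1 - 0.0001) * A ≤ thw n Y) ⊆
        (Icc 1 ⌊3 * X⌋₊).filter (fun n : ℕ => κ * Real.log n ≤ (cntP Nat.Prime n ⌊c * (Real.log n) ^ 2⌋₊ : ℝ)) := by
      intro n hn
      obtain ⟨m1, m2, m3, m4⟩ := mem_rowset.1 hn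
      refine Finset.mem_filter.2 ⟨Finset.mem_Icc.2 m1, ?_⟩
      obtain ⟨l1, l2⟩ := log_bounds hXpos m2 m3
      rw [← hL] at l1 l2
      have hYlt : c * L ^ 2 < (Y : ℝ) + 1 := Nat.lt_floor_add_one _
      have s1 : (1 - 0.0001) * (1.0705 * (c * L ^ 2 - 1)) ≤ (1 - 0.0001) * A := by
        have : 1.0705 * (c * L ^ 2 - 1) ≤ A := by
          refine le_trans ?_ g8
          linarith
        linarith
      have s2 := m4.trans (hgK n m2 m3)
      have s3 : κ * (L + 2) * (L + 2) ≤ (L + 2) * cnt n Y := g5.trans (s1.trans s2)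
      have s4 : κ * (L + 2) ≤ cnt n Y := by
        have : (L + 2) * (κ * (L + 2)) ≤ (L + 2) * cnt n Y := by linarith
        exact le_of_mul_le_mul_left this (by linarith)
      have s6 : Y ≤ ⌊c * (Real.log n) ^ 2⌋₊ := by
        apply Nat.floor_le_floor
        gcongr
      rw [cntP_prime]
      have s7 : (cnt n Y : ℝ) ≤ cnt n ⌊c * (Real.log n) ^ 2⌋₊ := by exact_mod_cast cnt_mono n s6
      calc κ * Real.log n ≤ κ * (L + 2) := by gcongr
        _ ≤ _ := s4.trans s7
    have hcard : ((rowset X (fun n => (1 - 0.0001) * A ≤ thw n Y)).card : ℝ) ≤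
        (((Icc 1 ⌊3 * X⌋₊).filter (fun n : ℕ => κ * Real.log n ≤ (cntP Nat.Prime n ⌊c * (Real.log n) ^ 2⌋₊ : ℝ))).card : ℝ) := by
      exact_mod_cast Finset.card_le_card hsub
    refine le_trans ?_ hcard
    refine g6.trans ?_
    have hWle := WD_le X D hD0 (by linarith) S ps
    rw [← hW, ← hL] at hWle
    have q1 : X / 40 / W ≤ N1 := by
      refine le_trans ?_ r3
      calc X / 40 / W = 1 / 2 * (X / 20 / W) := by ring
        _ ≤ (1 - 0.0001 / 2 / 4) * (M / W) := by
            gcongr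
            norm_num
    have hL4 : 0 < L ^ 4 := by positivity
    have q2 : 0.0001 / 2 * (X / 40 / W) ≤ 2 * L ^ 4 * ((rowset X (fun n => (1 - 0.0001) * A ≤ thw n Y)).card : ℝ) := by
      refine le_trans ?_ hcnt
      gcongr
    have q3 : 0.0001 / 160 * (X / (W * L ^ 4)) ≤ ((rowset X (fun n => (1 - 0.0001) * A ≤ thw n Y)).card : ℝ) := by
      have q4 : 0.0001 / 160 * (X / (W * L ^ 4)) * (2 * L ^ 4) = 0.0001 / 2 * (X / 40 / W) := by
        field_simp
        norm_num
      have q5 : 0 < 2 * L ^ 4 := by positivity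
      have q6 : 0.0001 / 160 * (X / (W * L ^ 4)) * (2 * L ^ 4) ≤
          ((rowset X (fun n => (1 - 0.0001) * A ≤ thw n Y)).card : ℝ) * (2 * L ^ 4) := by
        rw [q4]
        linarith
      exact le_of_mul_le_mul_right q6 q5
    refine le_trans ?_ q3
    have q7 : X / (Real.exp (3 / 2 * (L / D)) * L ^ 4) ≤ X / (W * L ^ 4) := by gcongr
    have q8 : 0 ≤ X / (W * L ^ 4) := by positivity
    calc 0.0001 / 800 * (X / (Real.exp (3 / 2 * (L / D)) * L ^ 4)) ≤ 0.0001 / 800 * (X / (W * L ^ 4)) := by gcongr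
      _ ≤ _ := by linarith
  have htend : Tendsto (fun x : ℕ => (x : ℝ) / 3) atTop atTop :=
    tendsto_natCast_atTop_atTop.atTop_div_const (by norm_num)
  filter_upwards [htend.eventually key] with x hx
  have h6 : 3 * ((x : ℝ) / 3) = x := by ring
  rw [h6, Nat.floor_natCast] at hx
  unfold NM
  convert hx

end Pool.Agent.H510R2.Maier.G
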