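import Mathlib
import Pool.Agent.H510R2.Maier.MA14
import Pool.Agent.H510R2.Maier.MB9

/-! Frequencies in the random model. -/

open Finset Filter Topology MeasureTheory ProbabilityTheory

namespace Pool.Agent.H510R2.Maier.G

variable {Ω : Type*} [MeasurableSpace Ω] {μ : Measure Ω} [IsProbabilityMeasure μ] {A : ℕ → Set Ω}

open Classical in
/-- number of `n ≤ x` with `ω ∈ E n` -/
noncomputable def NE (E : ℕ → Set Ω) (x : ℕ) (ω : Ω) : ℕ := ((Icc 1 x).filter (fun n => ω ∈ E n)).card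

omit [MeasurableSpace Ω] in
theorem NE_mono (E : ℕ → Set Ω) {x y : ℕ} (h : x ≤ y) (ω : Ω) : NE E x ω ≤ NE E y ω := by
  classical
  unfold NE
  apply Finset.card_le_card
  apply Finset.filter_subset_filter
  exact Finset.Icc_subset_Icc_right h

omit [MeasurableSpace Ω] in
theorem NE_eq (E : ℕ → Set Ω) (x : ℕ) (ω : Ω) : (NE E x ω : ℝ) = ∑ n ∈ Icc 1 x, (E n).indicator (fun _ => (1 : ℝ)) ω := by
  classical
  unfold NE
  rw [Finset.card_filter]
  push_cast
  apply Finset.sum_congr rfl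
  intro n _
  rw [Set.indicator_apply]

theorem NE_int (E : ℕ → Set Ω) (hE : ∀ n, MeasurableSet (E n)) (x : ℕ) :
    Integrable (fun ω => (NE E x ω : ℝ)) μ ∧ ∫ ω, (NE E x ω : ℝ) ∂μ = ∑ n ∈ Icc 1 x, μ.real (E n) := by
  have h1 : ∀ n ∈ Icc 1 x, Integrable ((E n).indicator (fun _ => (1 : ℝ))) μ := fun n _ =>
    (integrable_const (1 : ℝ)).indicator (hE n)
  simp_rw [NE_eq]
  refine ⟨integrable_finsetSum _ h1, ?_⟩
  rw [integral_finsetSum _ h1]
  apply Finset.sum_congr rfl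
  intro n _
  rw [integral_indicator_const _ (hE n)]
  simp

theorem sum_bound (s η : ℝ) (hη : 0 < η) (u : ℕ → ℝ) (hu0 : ∀ n, 0 ≤ u n) (hu1 : ∀ n, u n ≤ 1)
    (hu : ∀ᶠ n : ℕ in atTop, u n ≤ (n : ℝ) ^ (-s)) : ∃ C : ℝ, 0 < C ∧ ∀ x : ℕ, 1 ≤ x →
      ∑ n ∈ Icc 1 x, u n ≤ C * (x : ℝ) ^ (max (1 - s) 0 + η) := by
  obtain ⟨n0, hn0⟩ := eventually_atTop.1 hu
  have hsum : Summable (fun n : ℕ => (n : ℝ) ^ (-(1 + η))) := Real.summable_nat_rpow.2 (by linarith)
  set T := ∑' n : ℕ, (n : ℝ) ^ (-(1 + η)) with hT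
  have hT0 : 0 ≤ T := tsum_nonneg fun n => by positivity
  refine ⟨n0 + T + 1, by positivity, fun x hx => ?_⟩
  have hx1 : (1 : ℝ) ≤ x := by exact_mod_cast hx
  have hx0 : (0 : ℝ) < x := by linarith
  have ha : 0 ≤ max (1 - s) 0 + η := by
    have := le_max_right (1 - s) 0
    linarith
  have hxa : 1 ≤ (x : ℝ) ^ (max (1 - s) 0 + η) := Real.one_le_rpow hx1 ha
  have h1 : ∀ n ∈ Icc 1 x, u n ≤ (if n < n0 then 1 else 0) +
      (x : ℝ) ^ (max (1 - s) 0 + η) * (n : ℝ) ^ (-(1 + η)) := by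
    intro n hn
    rw [Finset.mem_Icc] at hn
    have hn1 : (1 : ℝ) ≤ n := by exact_mod_cast hn.1
    have hnx : (n : ℝ) ≤ x := by exact_mod_cast hn.2
    have h2 : 0 ≤ (x : ℝ) ^ (max (1 - s) 0 + η) * (n : ℝ) ^ (-(1 + η)) := by positivity
    split_ifs with h3
    · have := hu1 n
      linarith
    · have h4 := hn0 n (by omega)
      rw [zero_add]
      refine h4.trans ?_
      have h5 : (n : ℝ) ^ (-s) = (n : ℝ) ^ (1 + η - s) * (n : ℝ) ^ (-(1 + η)) := by
        rw [← Real.rpow_add (by linarith)]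
        congr 1; ring
      rw [h5]
      apply mul_le_mul_of_nonneg_right _ (by positivity)
      calc (n : ℝ) ^ (1 + η - s) ≤ (n : ℝ) ^ (max (1 - s) 0 + η) := by
            apply Real.rpow_le_rpow_of_exponent_le hn1
            have := le_max_left (1 - s) 0
            linarith
        _ ≤ (x : ℝ) ^ (max (1 - s) 0 + η) := Real.rpow_le_rpow (by linarith) hnx ha
  refine (Finset.sum_le_sum h1).trans ?_
  rw [Finset.sum_add_distrib, ← Finset.mul_sum]
  have h2 : ∑ n ∈ Icc 1 x, (if n < n0 then (1 : ℝ) else 0) ≤ n0 := by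
    rw [← Finset.sum_filter, Finset.sum_const, nsmul_eq_mul, mul_one]
    have : ((Icc 1 x).filter (fun n => n < n0)).card ≤ n0 := by
      calc ((Icc 1 x).filter (fun n => n < n0)).card ≤ (Finset.range n0).card := by
            apply Finset.card_le_card
            intro n hn
            rw [Finset.mem_filter] at hn
            exact Finset.mem_range.2 hn.2
        _ = n0 := Finset.card_range _
    exact_mod_cast this
  have h3 : ∑ n ∈ Icc 1 x, (n : ℝ) ^ (-(1 + η)) ≤ T :=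
    hsum.sum_le_tsum _ (fun n _ => by positivity)
  calc ∑ n ∈ Icc 1 x, (if n < n0 then (1 : ℝ) else 0) + (x : ℝ) ^ (max (1 - s) 0 + η) * ∑ n ∈ Icc 1 x, (n : ℝ) ^ (-(1 + η))
      ≤ n0 * (x : ℝ) ^ (max (1 - s) 0 + η) + (x : ℝ) ^ (max (1 - s) 0 + η) * T := by
        apply add_le_add
        · refine h2.trans ?_
          have : (0 : ℝ) ≤ n0 := Nat.cast_nonneg _
          nlinarith
        · gcongr
    _ ≤ _ := by nlinarith

/-- almost sure upper bound for the number of events -/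
theorem freq_as (E : ℕ → Set Ω) (hE : ∀ n, MeasurableSet (E n)) (s η : ℝ) (hη : 0 < η)
    (h : ∀ᶠ n : ℕ in atTop, μ.real (E n) ≤ (n : ℝ) ^ (-s)) :
    ∀ᵐ ω ∂μ, ∀ᶠ x : ℕ in atTop, (NE E x ω : ℝ) ≤ (x : ℝ) ^ (max (1 - s) 0 + η) := by
  set a := max (1 - s) 0 with ha
  have ha0 : 0 ≤ a := le_max_right _ _
  obtain ⟨C, hC0, hC⟩ := sum_bound s (η / 4) (by positivity) (fun n => μ.real (E n)) (fun n => measureReal_nonneg)
    (fun n => measureReal_le_one) h
  -- Markov along powers of two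
  have hmk : ∀ k : ℕ, μ.real {ω | ((2 : ℝ) ^ k) ^ (a + η / 2) ≤ (NE E (2 ^ k) ω : ℝ)} ≤ C * ((2 : ℝ) ^ (-(η / 4))) ^ k := by
    intro k
    obtain ⟨hi, he⟩ := NE_int (μ := μ) E hE (2 ^ k)
    have h1 := mul_meas_ge_le_integral_of_nonneg (μ := μ) (f := fun ω => (NE E (2 ^ k) ω : ℝ))
      (Eventually.of_forall fun ω => Nat.cast_nonneg _) hi (((2 : ℝ) ^ k) ^ (a + η / 2))
    rw [he] at h1
    have h2 := hC (2 ^ k) Nat.one_le_two_pow
    push_cast at h2
    have h3 : (0 : ℝ) < ((2 : ℝ) ^ k) ^ (a + η / 2) := by positivity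
    have h4 : μ.real {ω | ((2 : ℝ) ^ k) ^ (a + η / 2) ≤ (NE E (2 ^ k) ω : ℝ)} ≤
        C * ((2 : ℝ) ^ k) ^ (a + η / 4) / ((2 : ℝ) ^ k) ^ (a + η / 2) := by
      rw [le_div_iff₀ h3, mul_comm]
      exact h1.trans h2
    refine h4.trans (le_of_eq ?_)
    rw [mul_div_assoc, ← Real.rpow_sub (by positivity)]
    congr 1
    rw [show a + η / 4 - (a + η / 2) = -(η / 4) by ring]
    rw [← Real.rpow_natCast, ← Real.rpow_natCast, ← Real.rpow_mul (by norm_num), ← Real.rpow_mul (by norm_num)]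
    congr 1; ring
  have hsum : Summable (fun k : ℕ => C * ((2 : ℝ) ^ (-(η / 4))) ^ k) := by
    apply Summable.mul_left
    apply summable_geometric_of_lt_one (by positivity)
    rw [Real.rpow_neg (by norm_num)]
    exact inv_lt_one_of_one_lt₀ (Real.one_lt_rpow (by norm_num) (by positivity))
  have hbc : (∑' k : ℕ, μ {ω | ((2 : ℝ) ^ k) ^ (a + η / 2) ≤ (NE E (2 ^ k) ω : ℝ)}) ≠ ⊤ := by
    apply ne_top_of_le_ne_top _ (ENNReal.tsum_le_tsum (g := fun k => ENNReal.ofReal (C * ((2 : ℝ) ^ (-(η / 4))) ^ k)) ?_)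
    · exact hsum.tsum_ofReal_ne_top
    · intro k
      rw [← ENNReal.ofReal_toReal (measure_ne_top μ _)]
      exact ENNReal.ofReal_le_ofReal (hmk k)
  -- the exponent loss
  have hexp : ∀ᶠ x : ℕ in atTop, (2 * (x : ℝ)) ^ (a + η / 2) ≤ (x : ℝ) ^ (a + η) := by
    have h1 : Tendsto (fun x : ℕ => (x : ℝ) ^ (η / 2)) atTop atTop :=
      (tendsto_rpow_atTop (by positivity)).comp tendsto_natCast_atTop_atTop
    filter_upwards [h1.eventually_ge_atTop ((2 : ℝ) ^ (a + η / 2)), eventually_gt_atTop 0] with x h2 h3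
    have h3' : (0 : ℝ) < x := by exact_mod_cast h3
    rw [Real.mul_rpow (by norm_num) h3'.le]
    calc (2 : ℝ) ^ (a + η / 2) * (x : ℝ) ^ (a + η / 2) ≤ (x : ℝ) ^ (η / 2) * (x : ℝ) ^ (a + η / 2) := by gcongr
      _ = (x : ℝ) ^ (a + η) := by
          rw [← Real.rpow_add h3']
          congr 1; ring
  filter_upwards [ae_eventually_notMem hbc] with ω hω
  obtain ⟨k0, hk0⟩ := eventually_atTop.1 hω
  filter_upwards [hexp, eventually_ge_atTop (2 ^ k0 + 1), eventually_ge_atTop 2] with x h1 h2 h3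
  set k := Nat.clog 2 x with hk
  have hxk : x ≤ 2 ^ k := Nat.le_pow_clog (by norm_num) x
  have hxk2 : 2 ^ (k - 1) < x := Nat.pow_pred_clog_lt_self (by norm_num) (by omega)
  have hkk : k0 ≤ k := by
    by_contra hcon
    have : 2 ^ k ≤ 2 ^ k0 := Nat.pow_le_pow_right (by norm_num) (by omega)
    omega
  have hk1 : 1 ≤ k := by
    by_contra hcon
    have : k = 0 := by omega
    rw [this] at hxk
    simp at hxk
    omega
  have h4 := hk0 k hkk
  have h5 : (NE E (2 ^ k) ω : ℝ) < ((2 : ℝ) ^ k) ^ (a + η / 2) := not_le.1 h4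
  have h6 : (NE E x ω : ℝ) ≤ NE E (2 ^ k) ω := by exact_mod_cast NE_mono E hxk ω
  have h7 : (2 : ℝ) ^ k ≤ 2 * x := by
    have : 2 ^ k ≤ 2 * x := by
      calc 2 ^ k = 2 * 2 ^ (k - 1) := by
            rw [← pow_succ']
            congr 1; omega
        _ ≤ 2 * x := by omega
    exact_mod_cast this
  calc (NE E x ω : ℝ) ≤ ((2 : ℝ) ^ k) ^ (a + η / 2) := h6.trans h5.le
    _ ≤ (2 * (x : ℝ)) ^ (a + η / 2) := by
        apply Real.rpow_le_rpow (by positivity) h7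
        linarith
    _ ≤ _ := h1

end Pool.Agent.H510R2.Maier.G
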