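import Mathlib
import Pool.Agent.H510R2.Maier.MB11

/-! Frequencies in Cramer's model. -/

open Finset Filter Topology MeasureTheory ProbabilityTheory

namespace Pool.Agent.H510R2.Maier.G

variable {Ω : Type*} [MeasurableSpace Ω] {μ : Measure Ω} [IsProbabilityMeasure μ] {A : ℕ → Set Ω}

theorem prob_low (hA : CramerModel μ A) (κ c η : ℝ) (hκ : 0 < κ) (hc : κ < c) (hη0 : 0 < η) :
    ∀ᶠ x : ℕ in atTop, μ.real {ω | Sw A x ⌊c * (Real.log x) ^ 2⌋₊ ω ≤ κ * Real.log x} ≤
      (x : ℝ) ^ (-(rate κ c - η)) := by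
  have hc0 : 0 < c := hκ.trans hc
  have hL : Tendsto (fun x : ℕ => Real.log (x : ℝ)) atTop atTop :=
    Real.tendsto_log_atTop.comp tendsto_natCast_atTop_atTop
  have e1 := hL.eventually_ge_atTop ((c + 1) / η + 1)
  have e2 : ∀ᶠ x : ℕ in atTop, c * (Real.log (x : ℝ)) ^ 2 ≤ x := by
    have h1 := (Real.isLittleO_pow_log_id_atTop (n := 2)).bound (show (0 : ℝ) < 1 / c by positivity)
    have h2 := tendsto_natCast_atTop_atTop.eventually h1
    filter_upwards [h2, eventually_ge_atTop 1] with x h2 h3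
    have h3' : (1 : ℝ) ≤ x := by exact_mod_cast h3
    rw [Real.norm_of_nonneg (pow_nonneg (Real.log_nonneg h3') 2), id, Real.norm_of_nonneg (by linarith)] at h2
    calc c * (Real.log (x : ℝ)) ^ 2 ≤ c * (1 / c * x) := by gcongr
      _ = x := by field_simp
  filter_upwards [e1, e2, eventually_ge_atTop 3] with x h1 h2 h3
  have hx3 : (3 : ℝ) ≤ x := by exact_mod_cast h3
  set L := Real.log (x : ℝ) with hLdef
  have hL1 : 1 ≤ L := by
    have : 0 ≤ (c + 1) / η := by positivity
    linarith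
  set Y := ⌊c * L ^ 2⌋₊ with hY
  have hYle : (Y : ℝ) ≤ c * L ^ 2 := Nat.floor_le (by positivity)
  have hYlt : c * L ^ 2 < (Y : ℝ) + 1 := Nat.lt_floor_add_one _
  have ht : Real.log (κ / c) ≤ 0 := Real.log_nonpos (by positivity) (by rw [div_le_one hc0]; exact hc.le)
  refine (tail_low hA x Y h3 (Real.log (κ / c)) (κ * L) ht).trans ?_
  rw [Real.exp_log (by positivity), Real.rpow_def_of_pos (by linarith)]
  apply Real.exp_le_exp.2
  rw [← hLdef]
  have hlog : Real.log ((x + Y : ℕ) : ℝ) ≤ L + 1 := by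
    have a1 : ((x + Y : ℕ) : ℝ) ≤ 2 * x := by push_cast; linarith
    have a2 : Real.log ((x + Y : ℕ) : ℝ) ≤ Real.log (2 * x) := by
      apply Real.log_le_log _ a1
      push_cast
      positivity
    rw [Real.log_mul (by norm_num) (by linarith)] at a2
    have := Real.log_two_lt_d9
    linarith
  have hlog0 : 0 < Real.log ((x + Y : ℕ) : ℝ) := by
    apply Real.log_pos
    push_cast
    have : (0 : ℝ) ≤ Y := Nat.cast_nonneg _
    linarith
  have h4 : (c - η) * L ≤ Y / Real.log ((x + Y : ℕ) : ℝ) := by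
    rcases le_or_gt c η with h5 | h5
    · have : (c - η) * L ≤ 0 := mul_nonpos_of_nonpos_of_nonneg (by linarith) (by linarith)
      exact this.trans (by positivity)
    · rw [le_div_iff₀ hlog0]
      calc (c - η) * L * Real.log ((x + Y : ℕ) : ℝ) ≤ (c - η) * L * (L + 1) := by
            apply mul_le_mul_of_nonneg_left hlog
            apply mul_nonneg <;> linarith
        _ ≤ c * L ^ 2 - 1 := by
            have h6 : c + 1 ≤ η * (L - 1) := by
              have : (c + 1) / η ≤ L - 1 := by linarith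
              rw [div_le_iff₀ hη0] at this
              linarith
            nlinarith
        _ ≤ Y := by linarith
  have h5 : (κ / c - 1) * (Y / Real.log ((x + Y : ℕ) : ℝ)) ≤ (κ / c - 1) * ((c - η) * L) := by
    apply mul_le_mul_of_nonpos_left h4
    have : κ / c ≤ 1 := by rw [div_le_one hc0]; exact hc.le
    linarith
  have h6 : Real.log (κ / c) = - Real.log (c / κ) := by
    rw [← Real.log_inv, inv_div]
  have h7 : (κ / c - 1) * ((c - η) * L) = (κ - c) * L + (1 - κ / c) * η * L := by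
    field_simp
    ring
  have h8 : (1 - κ / c) * η * L ≤ η * L := by
    have : 0 < κ / c := by positivity
    have : 0 ≤ η * L := by positivity
    nlinarith
  calc -Real.log (κ / c) * (κ * L) + (κ / c - 1) * (Y / Real.log ((x + Y : ℕ) : ℝ))
      ≤ κ * Real.log (c / κ) * L + ((κ - c) * L + η * L) := by
        rw [h6]
        have : -(-Real.log (c / κ)) * (κ * L) = κ * Real.log (c / κ) * L := by ring
        rw [this]
        linarith
    _ = -(c - κ - κ * Real.log (c / κ)) * L + η * L := by ring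
    _ = L * -(rate κ c - η) := by unfold rate; ring

theorem prob_high (hA : CramerModel μ A) (κ c : ℝ) (hc : 0 < c) (hcκ : c < κ) :
    ∀ᶠ x : ℕ in atTop, μ.real {ω | κ * Real.log x ≤ Sw A x ⌊c * (Real.log x) ^ 2⌋₊ ω} ≤
      (x : ℝ) ^ (-(rate κ c)) := by
  have hκ : 0 < κ := hc.trans hcκ
  filter_upwards [eventually_ge_atTop 3] with x h3
  have hx3 : (3 : ℝ) ≤ x := by exact_mod_cast h3
  set L := Real.log (x : ℝ) with hLdef
  have hL0 : 0 < L := Real.log_pos (by linarith)
  set Y := ⌊c * L ^ 2⌋₊ with hY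
  have hYle : (Y : ℝ) ≤ c * L ^ 2 := Nat.floor_le (by positivity)
  have ht : 0 ≤ Real.log (κ / c) := Real.log_nonneg (by rw [le_div_iff₀ hc]; linarith)
  refine (tail_high hA x Y h3 (Real.log (κ / c)) (κ * L) ht).trans ?_
  rw [Real.exp_log (by positivity), Real.rpow_def_of_pos (by linarith), ← hLdef]
  apply Real.exp_le_exp.2
  have h2 : (Y : ℝ) / L ≤ c * L := by
    rw [div_le_iff₀ hL0]
    linarith
  have h3 : 0 ≤ κ / c - 1 := by
    have : 1 ≤ κ / c := by rw [le_div_iff₀ hc]; linarith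
    linarith
  have h4 : (κ / c - 1) * (Y / L) ≤ (κ / c - 1) * (c * L) := mul_le_mul_of_nonneg_left h2 h3
  have h5 : (κ / c - 1) * (c * L) = (κ - c) * L := by field_simp
  have h6 : Real.log (κ / c) = - Real.log (c / κ) := by
    rw [← Real.log_inv, inv_div]
  unfold rate
  rw [h6]
  linarith

theorem model_few (hA : CramerModel μ A) (κ c η : ℝ) (hκ : 0 < κ) (hc : κ < c) (hη : 0 < η) :
    ∀ᵐ ω ∂μ, ∀ᶠ x : ℕ in atTop, (NF (fun m => ω ∈ A m) κ c x : ℝ) ≤ (x : ℝ) ^ (max (1 - rate κ c) 0 + η) := by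
  set E : ℕ → Set Ω := fun x => {ω | Sw A x ⌊c * (Real.log x) ^ 2⌋₊ ω ≤ κ * Real.log x} with hE
  have hm : ∀ n, MeasurableSet (E n) := fun n => measurableSet_le (Sw_meas hA _ _) measurable_const
  have h1 := freq_as (μ := μ) E hm (rate κ c - η / 2) (η / 2) (by positivity) (prob_low hA κ c (η / 2) hκ hc (by positivity))
  filter_upwards [h1] with ω hω
  filter_upwards [hω, eventually_ge_atTop 1] with x hx hx1
  have h2 : NF (fun m => ω ∈ A m) κ c x = NE E x ω := by
    classical
    unfold NF NE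
    congr 1
    apply Finset.filter_congr
    intro n _
    rw [← Sw_eq]
    rfl
  rw [h2]
  refine hx.trans ?_
  apply Real.rpow_le_rpow_of_exponent_le (by exact_mod_cast hx1)
  have h3 : max (1 - (rate κ c - η / 2)) 0 ≤ max (1 - rate κ c) 0 + η / 2 := by
    apply max_le
    · have := le_max_left (1 - rate κ c) 0
      linarith
    · have := le_max_right (1 - rate κ c) 0
      linarith
  linarith

theorem model_many (hA : CramerModel μ A) (κ c η : ℝ) (hc : 0 < c) (hcκ : c < κ) (hη : 0 < η) :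
    ∀ᵐ ω ∂μ, ∀ᶠ x : ℕ in atTop, (NM (fun m => ω ∈ A m) κ c x : ℝ) ≤ (x : ℝ) ^ (max (1 - rate κ c) 0 + η) := by
  set E : ℕ → Set Ω := fun x => {ω | κ * Real.log x ≤ Sw A x ⌊c * (Real.log x) ^ 2⌋₊ ω} with hE
  have hm : ∀ n, MeasurableSet (E n) := fun n => measurableSet_le measurable_const (Sw_meas hA _ _)
  have h1 := freq_as (μ := μ) E hm (rate κ c) η hη (prob_high hA κ c hc hcκ)
  filter_upwards [h1] with ω hω
  filter_upwards [hω] with x hx
  have h2 : NM (fun m => ω ∈ A m) κ c x = NE E x ω := by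
    classical
    unfold NM NE
    congr 1
    apply Finset.filter_congr
    intro n _
    rw [← Sw_eq]
    rfl
  rw [h2]
  exact hx

theorem rate_pos {κ c : ℝ} (hκ : 0 < κ) (hc : 0 < c) (h : c ≠ κ) : 0 < rate κ c := by
  unfold rate
  have h1 := Real.log_lt_sub_one_of_pos (show 0 < c / κ by positivity) (by
    intro h2
    rw [div_eq_one_iff_eq hκ.ne'] at h2
    exact h h2)
  have h3 : κ * Real.log (c / κ) < κ * (c / κ - 1) := by gcongr
  have h4 : κ * (c / κ - 1) = c - κ := by field_simp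
  linarith

end Pool.Agent.H510R2.Maier.G
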